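import Pool.Agent.H33.NM.XIM
import Pool.Agent.H98.NX.Ef
import Pool.Agent.H98.NX.Eh

set_option autoImplicit false

/-!
# Interface of block X (local theory): statements used by blocks B, L, S
-/

namespace H50NA

open MeasureTheory Set Filter Topology Metric

noncomputable section

variable {X : Type} [MetricSpace X] {gm : X → X → ℝ → X}

/-- two local minimisers -/
theorem m2 (hX : Npc X gm) {f g : ℂ → X} {O : Set ℂ} (hf : LM f O) (hg : LM g O) :
    SubH (fun z => dist (f z) (g z) ^ 2) O := H33NM.m2 hX hf hg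

theorem lm_const (p : X) {O : Set ℂ} (hO : IsOpen O) : LM (fun _ : ℂ => p) O := H33NM.lm_const p hO

theorem lm_mono {f : ℂ → X} {O O' : Set ℂ} (h : LM f O) (hO : IsOpen O') (hs : O' ⊆ O) : LM f O' :=
  H33NM.lm_mono h hO hs

theorem lm_trans {f : ℂ → X} {O : Set ℂ} (h : LM f O) (a : ℂ) : LM (fun z => f (z + a)) {z | z + a ∈ O} :=
  H33NM.lm_trans h a

theorem lm_scale {f : ℂ → X} {O : Set ℂ} (h : LM f O) (a : ℂ) {c : ℝ} (hc : 0 < c) :
    LM (fun z => f (a + (c : ℂ) * z)) {z | a + (c : ℂ) * z ∈ O} := H33NM.lm_scale h a hc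

/-- speeds are measurable and bounded by the Lipschitz constant -/
theorem sp_meas {f : ℂ → X} {O : Set ℂ} (hO : IsOpen O) (h : Lpo f O) (t : ℂ) :
    AEStronglyMeasurable (sp f t) (volume.restrict O) :=
  (H98NX.sp_meas hO (H98NX.lpo_cont hO h) t).aestronglyMeasurable.congr
    (indicator_ae_eq_restrict hO.measurableSet)

theorem sp_bd {f : ℂ → X} {O : Set ℂ} (hO : IsOpen O) {L : ℝ}
    (h : ∀ x ∈ O, ∀ y ∈ O, dist (f x) (f y) ≤ L * dist x y) (t x : ℂ) (hx : x ∈ O) :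
    0 ≤ sp f t x ∧ sp f t x ≤ L * ‖t‖ := by
  refine ⟨H98NX.sp_nonneg f t x, ?_⟩
  obtain ⟨r, hr, hb⟩ := Metric.isOpen_iff.1 hO x hx
  exact H98NX.sp_le hr (fun y hy => h y (hb hy) x hx) t

/-- the speed is a limit almost everywhere -/
theorem sp_lim {f : ℂ → X} {O : Set ℂ} (hO : IsOpen O) (h : Lpo f O) (t : ℂ) :
    ∀ᵐ x ∂(volume.restrict O), Tendsto (fun s : ℝ => dist (f (x + (s : ℂ) * t)) (f x) / |s|)
      (𝓝[≠] 0) (𝓝 (sp f t x)) := by
  rw [ae_restrict_iff' hO.measurableSet]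
  filter_upwards [H98NX.sp_lim (volume : Measure ℂ) hO h] with x hx hxO
  have h1 := hx hxO t
  simpa only [Complex.real_smul] using h1

/-- parallelogram law -/
theorem sp_par (hX : Npc X gm) {f : ℂ → X} {O : Set ℂ} (hO : IsOpen O) (h : Lpo f O) (t t' : ℂ) :
    ∀ᵐ x ∂(volume.restrict O),
      sp f (t + t') x ^ 2 + sp f (t - t') x ^ 2 = 2 * sp f t x ^ 2 + 2 * sp f t' x ^ 2 := by
  rw [ae_restrict_iff' hO.measurableSet]
  filter_upwards [H98NX.md_ae (volume : Measure ℂ) hX hO h] with x hx hxO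
  obtain ⟨-, B, -, hB⟩ := hx hxO
  rw [hB, hB, hB, hB]
  simp only [map_add, map_sub, LinearMap.add_apply, LinearMap.sub_apply]
  ring

/-- integrated difference quotients -/
theorem dq_le {f : ℂ → X} {O : Set ℂ} (hO : IsOpen O) (h : Lpo f O) (t : ℂ) {x : ℂ} {r s : ℝ}
    (hr : 0 < r) (hs : 0 < s) (hx : closedBall x (r + s * ‖t‖) ⊆ O) :
    ∫ y in ball x r, dist (f (y + (s : ℂ) * t)) (f y) ^ 2 ≤
      s ^ 2 * ∫ y in ball x (r + s * ‖t‖), sp f t y ^ 2 := by
  have h1 := H98NX.sp_int (volume : Measure ℂ) hO h (isCompact_closedBall x (r + s * ‖t‖)) hx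
    (measurableSet_ball (x := x) (ε := r)) hs.le t (fun y hy s' h0 h1' => by
      rw [mem_closedBall]
      have h2 : dist (y + s' • t) y = s' * ‖t‖ := by
        rw [dist_eq_norm, add_sub_cancel_left, norm_smul, Real.norm_of_nonneg h0]
      have h3 : dist y x < r := hy
      have h4 := dist_triangle (y + s' • t) y x
      have h5 : s' * ‖t‖ ≤ s * ‖t‖ := mul_le_mul_of_nonneg_right h1' (norm_nonneg t)
      linarith)
  have e : ∫ y in closedBall x (r + s * ‖t‖), sp f t y ^ 2 = ∫ y in ball x (r + s * ‖t‖), sp f t y ^ 2 := by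
    apply setIntegral_congr_set
    rw [← ball_union_sphere]
    exact union_ae_eq_left_of_ae_eq_empty (ae_eq_empty.2 (Measure.addHaar_sphere volume x (r + s * ‖t‖)))
  rw [e] at h1
  simpa only [Complex.real_smul] using h1

/-- averages of squared speeds of a local minimiser are nondecreasing in the radius -/
theorem avg_mono (hX : Npc X gm) {f : ℂ → X} {O : Set ℂ} (h : LM f O) (t x : ℂ) {r R : ℝ}
    (hr : 0 < r) (hR : r ≤ R) (hx : closedBall x R ⊆ O) :
    (⨍ y in ball x r, sp f t y ^ 2) ≤ ⨍ y in ball x R, sp f t y ^ 2 := H33NM.avg_mono hX h t x hr hR hx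

/-- pointwise bound of difference quotients by averages of squared speeds -/
theorem dq_avg (hX : Npc X gm) {f : ℂ → X} {O : Set ℂ} (h : LM f O) (t x : ℂ) {r s A : ℝ}
    (hr : 0 < r) (hs : 0 < s) (hx : closedBall x (r + s * ‖t‖) ⊆ O)
    (hA : ∀ s' : ℝ, 0 ≤ s' → s' ≤ s → (⨍ y in ball (x + (s' : ℂ) * t) r, sp f t y ^ 2) ≤ A) :
    dist (f (x + (s : ℂ) * t)) (f x) ^ 2 ≤ s ^ 2 * A := H33NM.dq_avg hX h t x hr hs hx hA

end

end H50NA
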