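import Pool.Agent.H50.NA.L6

set_option autoImplicit false

/-!
# Row L7: perturbation of a chart

Cht (chart): on the ball ball x0 r the map u is split along the internal decomposition E (non zero E_b), T_b is C^1 with pairwise different gradients, and rs (E b)(u y) = trl (rs (E b)(u x0)) (T_b y - T_b x0).
Speeds of u in the chart: ds(u y)(u z)^2 = sum_b nn_b (T_b z - T_b y)^2 (osm E (u y) = u y, ds_osm, ds_trl with ds = 0, rd = 0 for equal norms), so sp_t(u)(y)^2 = sum_b nn_b (D_t T_b y)^2 for every y in the ball (T_b differentiable; limit of difference quotients).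
Proof of pert. a_b := gradient of T_b at x0 (a_b = D_1T_b(x0) + i D_iT_b(x0)), distinct. e0, r0 from main_lemma. Choose r1 < min(r, r0) so small that for |y - x0| < r1: |D_tT_b(y) - D_tT_b(x0)| <= small for unit t, so that
 (1) |T_b y - T_b x0 - <a_b,y-x0>| <= e0 rho/(4 (m+1)), rho := 3 r1/4, for y in ball x0 r1 (mean value inequality), (2) Q_y(t) := sum nn_b (D_tT_b y)^2 <= Q(t) + e0^2/4 for unit t, y in ball x0 r1, Q(t) = sum nn_b <a_b,t>^2.
 r' := r1. ep > 0 small (below). Let w be LM on ball x0 r' with ds(w y)(u y) <= ep there and the speed estimate. Apply main_lemma to w on ball x0 rho: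
 (i) |rd (rs w x0)(rs w y) - nn_b<a_b,y-x0>| <= |rd (rs w x0)(rs u x0)| + |rd (rs u y)(rs w y)| + |nn_b (T_b y - T_b x0) - nn_b<a_b,y-x0>| <= 2 m ep + e0 rho/4 <= e0 rho (rd_le_sup, abs_le_ds, rd_trl).
 (ii) osm E (u y) = u y; |osm E (w y) - w y| <= |osm E (w y) - osm E (u y)| + |u y - w y| <= 2 ep pointwise (osm is a minimum of values of w y on components), so rd (osm E (w y))(w y) <= 2 m ep <= e0 rho.
 (iii) for x, y in ball x0 rho, x <> y: y = x + s t, |t| = 1, s = |y-x|; the segment is contained in ball x0 rho. Divide it into n equal pieces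
   of length s/n < r'/16: each piece [x_k, x_{k+1}] has closedBall x_k (r'/8 + s/n) in ball x0 r' (rho + r'/8 + r'/16 < r'), so dist(w x_{k+1})(w x_k) <= (s/n) sqrt A with A a bound for avg_{ball z (r'/8)} sp_t(w)^2, z in the segment; sum: dist(w x)(w y) <= s sqrt A.
   Bound: on ball z (r'/8) (contained in ball x0 r'): (avg sp_t(w)^2)^{1/2} <= (avg sp_t(u)^2)^{1/2} + (avg (sp_t w - sp_t u)^2)^{1/2} <= sqrt(Q(t) + e0^2/4) + sqrt(64 ep/(pi r'^2)) and for ep small the square is <= Q(t) + e0^2 uniformly in t (Q(t) <= m max|a|^2).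
 Conclusion: w y is split for y in ball x0 (3/4 rho) = ball x0 (9 r'/16), which contains ball x0 (r'/2).
-/

namespace H50NA

open MeasureTheory Set Filter Topology Metric

variable {K : Type} [Field K] (F : VF K) {V : Type} [AddCommGroup V] [Module K V] [Module.Finite K V]

/-- charts -/
structure Cht (u : ℂ → Nm F V) (x0 : ℂ) (r : ℝ) (N : ℕ) (E : Fin N → Submodule K V)
    (T : Fin N → ℂ → ℝ) : Prop where
  rpos : 0 < r
  int : DirectSum.IsInternal E
  ne : ∀ b, E b ≠ ⊥
  c1 : ∀ b, ContDiffOn ℝ 1 (T b) (ball x0 r)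
  dst : ∀ y ∈ ball x0 r, ∀ b b', b ≠ b' → fderiv ℝ (T b) y ≠ fderiv ℝ (T b') y
  spl : ∀ y ∈ ball x0 r, SpD E (u y).1
  eq : ∀ b, ∀ y ∈ ball x0 r, rs (E b) (u y).1 = trl (rs (E b) (u x0).1) (T b y - T b x0)

theorem rd_self7 {al : V → ℝ} (ha : SN F al) : rd F al al = 0 := by
  obtain ⟨b, hb⟩ := ha.2
  have h := rd_eq F hb hb
  simpa using h

theorem trl_zero7 {al : V → ℝ} (ha : al 0 = 0) : trl al 0 = al := by
  funext x
  unfold trl
  split_ifs with hx
  · rw [hx, ha]
  · rw [add_zero]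

theorem cpt_mem7 {N : ℕ} (E : Fin N → Submodule K V) (b : Fin N) (x : V) : cpt E b x ∈ E b := by
  unfold cpt
  split_ifs with hE
  · exact Subtype.mem _
  · exact (E b).zero_mem

theorem dist_chart7 {u : ℂ → Nm F V} {x0 : ℂ} {r : ℝ} {N : ℕ} {E : Fin N → Submodule K V}
    {T : Fin N → ℂ → ℝ} (h : Cht F u x0 r N E T) {y z : ℂ} (hy : y ∈ ball x0 r)
    (hz : z ∈ ball x0 r) :
    dist (u y) (u z) ^ 2 = ∑ b, nn E b * (T b z - T b y) ^ 2 := by
  have hy' := (spd_iff F h.int (u y).2).1 (h.spl y hy)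
  have hz' := (spd_iff F h.int (u z).2).1 (h.spl z hz)
  rw [dist_nm, ← hy', ← hz', ds_osm F h.int (u y).2 (u z).2]
  refine Finset.sum_congr rfl fun b _ => ?_
  rw [h.eq b y hy, h.eq b z hz]
  have hs : SN F (rs (E b) (u x0).1) := rs_sn F (E b) (u x0).2
  rw [ds_trl F hs hs, ds_self F hs, rd_self7 F hs]
  unfold nn
  ring

theorem rd_chart7 {u : ℂ → Nm F V} {x0 : ℂ} {r : ℝ} {N : ℕ} {E : Fin N → Submodule K V}
    {T : Fin N → ℂ → ℝ} (h : Cht F u x0 r N E T) {y : ℂ} (hy : y ∈ ball x0 r) (b : Fin N) :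
    rd F (rs (E b) (u x0).1) (rs (E b) (u y).1) = nn E b * (T b y - T b x0) := by
  rw [h.eq b y hy]
  have hs : SN F (rs (E b) (u x0).1) := rs_sn F (E b) (u x0).2
  have h1 := rd_trl F hs hs 0 (T b y - T b x0)
  rw [trl_zero7 hs.1, rd_self7 F hs] at h1
  rw [h1]
  unfold nn
  ring

theorem osm_near7 {N : ℕ} {E : Fin N → Submodule K V} (hE : DirectSum.IsInternal E)
    {al be : V → ℝ} (ha : SN F al) (hb : SN F be) (hs : SpD E be) {c : ℝ}
    (h : ∀ x, |be x - al x| ≤ c) (x : V) (hx : x ≠ 0) : |al x - osm E al x| ≤ 2 * c := by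
  obtain ⟨h1, h2, h3⟩ := osm_spd F hE ha
  have hv : ∀ b, osm E al (cpt E b x) = al (cpt E b x) := by
    intro b
    have := congrFun (h2 b) ⟨cpt E b x, cpt_mem7 E b x⟩
    exact this
  obtain ⟨b0, hb0, hb1⟩ := (hs x hx).2
  obtain ⟨b1, hb2, hb3⟩ := (h1 x hx).2
  have e1 := (h1 x hx).1 b0 hb0
  have e2 := (hs x hx).1 b1 hb2
  rw [hv] at e1 hb3
  have f0 := abs_le.1 (h (cpt E b0 x))
  have f1 := abs_le.1 (h (cpt E b1 x))
  have f2 := abs_le.1 (h x)
  rw [abs_le]
  constructor <;> linarith [f0.1, f0.2, f1.1, f1.2, f2.1, f2.2]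

/-- the linear form of a gradient -/
theorem lin7 (L : ℂ →L[ℝ] ℝ) (z : ℂ) : L z = L 1 * z.re + L Complex.I * z.im := by
  have hz : z = z.re • (1 : ℂ) + z.im • Complex.I := by
    apply Complex.ext <;> simp
  conv_lhs => rw [hz]
  rw [map_add, map_smul, map_smul, smul_eq_mul, smul_eq_mul]
  ring

theorem inner_le7 (a z : ℂ) : |a.re * z.re + a.im * z.im| ≤ ‖a‖ * ‖z‖ := by
  have h1 : a.re * z.re + a.im * z.im = (a * (starRingEnd ℂ) z).re := by
    simp [Complex.mul_re]
  rw [h1]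
  refine (Complex.abs_re_le_norm _).trans ?_
  rw [norm_mul, Complex.norm_conj]



theorem seg7 {X : Type} [MetricSpace X] {w : ℂ → X} {x t : ℂ} {s B h0 : ℝ} (hs : 0 < s)
    (hh : 0 < h0)
    (h : ∀ s1 s2 : ℝ, 0 ≤ s1 → s1 < s2 → s2 ≤ s → s2 - s1 ≤ h0 →
      dist (w (x + (s2 : ℂ) * t)) (w (x + (s1 : ℂ) * t)) ≤ (s2 - s1) * B) :
    dist (w (x + (s : ℂ) * t)) (w x) ≤ s * B := by
  obtain ⟨n, hn⟩ := exists_nat_gt (s / h0)
  have hn1 : 0 < (n : ℝ) + 1 := by positivity
  have hn2 : s / ((n : ℝ) + 1) ≤ h0 := by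
    rw [div_le_iff₀ hn1]
    rw [div_lt_iff₀ hh] at hn
    nlinarith
  set p : ℕ → ℝ := fun k => k * (s / ((n : ℝ) + 1)) with hp
  have hd : 0 < s / ((n : ℝ) + 1) := by positivity
  have h1 := dist_le_range_sum_dist (fun k => w (x + ((p k : ℝ) : ℂ) * t)) (n + 1)
  have h2 : p 0 = 0 := by simp [hp]
  have h3 : p (n + 1) = s := by
    simp only [hp]
    push_cast
    field_simp
  have h4 : ∀ i ∈ Finset.range (n + 1), dist (w (x + ((p i : ℝ) : ℂ) * t))
      (w (x + ((p (i + 1) : ℝ) : ℂ) * t)) ≤ s / ((n : ℝ) + 1) * B := by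
    intro i hi
    have hi' : (i : ℝ) + 1 ≤ (n : ℝ) + 1 := by
      have := Finset.mem_range.1 hi
      have h5 : i ≤ n := by omega
      have h6 : (i : ℝ) ≤ n := by exact_mod_cast h5
      linarith
    have e1 : p (i + 1) - p i = s / ((n : ℝ) + 1) := by
      simp only [hp]
      push_cast
      ring
    have e2 : 0 ≤ p i := by
      simp only [hp]
      positivity
    have e3 : p (i + 1) ≤ s := by
      have : p (i + 1) = ((i : ℝ) + 1) * (s / ((n : ℝ) + 1)) := by
        simp only [hp]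
        push_cast
        ring
      rw [this]
      calc ((i : ℝ) + 1) * (s / ((n : ℝ) + 1)) ≤ ((n : ℝ) + 1) * (s / ((n : ℝ) + 1)) :=
            mul_le_mul_of_nonneg_right hi' hd.le
        _ = s := by field_simp
    have := h (p i) (p (i + 1)) e2 (by linarith) e3 (by linarith)
    rw [e1] at this
    rw [dist_comm]
    exact this
  have h5 := h1.trans (Finset.sum_le_sum h4)
  rw [Finset.sum_const, Finset.card_range, nsmul_eq_mul] at h5
  simp only [h2, h3] at h5
  rw [dist_comm]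
  have h6 : ((n + 1 : ℕ) : ℝ) * (s / ((n : ℝ) + 1) * B) = s * B := by
    push_cast
    field_simp
  rw [h6] at h5
  simpa using h5

theorem vol7 (z : ℂ) {q : ℝ} (hq : 0 < q) : volume.real (ball z q) = Real.pi * q ^ 2 := by
  rw [measureReal_def, Complex.volume_ball, ENNReal.toReal_mul, ENNReal.toReal_pow,
    ENNReal.toReal_ofReal hq.le]
  simp [mul_comm]

theorem avg7 {f g : ℂ → ℝ} {S : Set ℂ} {z : ℂ} {q B th ep : ℝ} (hq : 0 < q)
    (hS : ball z q ⊆ S) (hSm : MeasurableSet S) (hth : 0 < th)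
    (hf : ∀ y ∈ ball z q, f y ^ 2 ≤ (1 + th) * B + (1 + 1 / th) * g y ^ 2)
    (hi : IntegrableOn (fun y => g y ^ 2) S) (hfi : IntegrableOn (fun y => f y ^ 2) (ball z q))
    (he : ∫ y in S, g y ^ 2 ≤ ep) :
    (⨍ y in ball z q, f y ^ 2) ≤ (1 + th) * B + (1 + 1 / th) * (ep / (Real.pi * q ^ 2)) := by
  have hv := vol7 z hq
  have hvp : 0 < Real.pi * q ^ 2 := by positivity
  rw [setAverage_eq, hv, smul_eq_mul]
  have hfin : volume (ball z q) ≠ ⊤ := measure_ball_lt_top.ne
  have hib : IntegrableOn (fun y => g y ^ 2) (ball z q) := hi.mono_set hS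
  have h1 : ∫ y in ball z q, f y ^ 2 ≤
      ∫ y in ball z q, ((1 + th) * B + (1 + 1 / th) * g y ^ 2) := by
    refine setIntegral_mono_on hfi ?_ measurableSet_ball hf
    exact (integrableOn_const hfin).add (hib.const_mul _)
  have h2 : ∫ y in ball z q, ((1 + th) * B + (1 + 1 / th) * g y ^ 2) =
      (1 + th) * B * (Real.pi * q ^ 2) + (1 + 1 / th) * ∫ y in ball z q, g y ^ 2 := by
    have hc : Integrable (fun _ : ℂ => (1 + th) * B) (volume.restrict (ball z q)) :=
      integrableOn_const hfin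
    have e1 : ∫ y in ball z q, (1 + 1 / th) * g y ^ 2 = (1 + 1 / th) * ∫ y in ball z q, g y ^ 2 :=
      integral_const_mul _ _
    rw [integral_add hc (hib.const_mul _), e1, setIntegral_const, hv, smul_eq_mul, mul_comm]
  have h3 : ∫ y in ball z q, g y ^ 2 ≤ ep := by
    refine le_trans ?_ he
    refine setIntegral_mono_set hi ?_ ?_
    · exact Filter.Eventually.of_forall fun y => sq_nonneg _
    · exact hS.eventuallyLE
  have h4 : 0 < 1 + 1 / th := by positivity
  have h5 : ∫ y in ball z q, f y ^ 2 ≤ (1 + th) * B * (Real.pi * q ^ 2) + (1 + 1 / th) * ep := by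
    rw [h2] at h1
    have := mul_le_mul_of_nonneg_left h3 h4.le
    linarith
  calc (Real.pi * q ^ 2)⁻¹ * ∫ y in ball z q, f y ^ 2 ≤
      (Real.pi * q ^ 2)⁻¹ * ((1 + th) * B * (Real.pi * q ^ 2) + (1 + 1 / th) * ep) :=
        mul_le_mul_of_nonneg_left h5 (by positivity)
    _ = _ := by
        field_simp

theorem sp_up7 {X : Type} [MetricSpace X] {f : ℂ → X} {x t : ℂ} {C d : ℝ} (hd : 0 < d)
    (h : ∀ s : ℝ, 0 < s → s < d → dist (f (x + (s : ℂ) * t)) (f x) ≤ s * C) : sp f t x ≤ C := by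
  unfold sp
  refine Filter.limsup_le_of_le ?_ ?_
  · refine Filter.isCoboundedUnder_le_of_le atTop (x := 0) fun n => ?_
    positivity
  · have h1 : Tendsto (fun n : ℕ => 1 / ((n : ℝ) + 1)) atTop (𝓝 0) :=
      tendsto_one_div_add_atTop_nhds_zero_nat
    filter_upwards [h1.eventually (gt_mem_nhds hd)] with n hn
    have hn1 : 0 < (n : ℝ) + 1 := by positivity
    have h2 := h (1 / ((n : ℝ) + 1)) (by positivity) hn
    have h3 : x + (1 / ((n : ℝ) + 1)) • t = x + ((1 / ((n : ℝ) + 1) : ℝ) : ℂ) * t := by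
      rw [Complex.real_smul]
    rw [h3]
    calc ((n : ℝ) + 1) * dist (f (x + ((1 / ((n : ℝ) + 1) : ℝ) : ℂ) * t)) (f x) ≤
        ((n : ℝ) + 1) * (1 / ((n : ℝ) + 1) * C) := mul_le_mul_of_nonneg_left h2 hn1.le
      _ = C := by field_simp


/-- estimates near the centre of a chart -/
theorem near7 {u : ℂ → Nm F V} {x0 : ℂ} {r : ℝ} {N : ℕ} {E : Fin N → Submodule K V}
    {T : Fin N → ℂ → ℝ} (h : Cht F u x0 r N E T) {a : Fin N → ℂ}
    (ha : ∀ b z, fderiv ℝ (T b) x0 z = (a b).re * z.re + (a b).im * z.im) {k : ℝ} (hk : 0 < k) :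
    ∃ r1 : ℝ, 0 < r1 ∧ r1 < r ∧ ∀ b, ∀ y ∈ ball x0 r1, ∀ z ∈ ball x0 r1,
      |T b z - T b y - ((a b).re * (z - y).re + (a b).im * (z - y).im)| ≤ k * ‖z - y‖ := by
  have h1 : ∀ b, ContinuousAt (fderiv ℝ (T b)) x0 := by
    intro b
    have h2 := (h.c1 b).continuousOn_fderiv_of_isOpen isOpen_ball le_rfl
    exact h2.continuousAt (isOpen_ball.mem_nhds (mem_ball_self h.rpos))
  have h3 : ∀ᶠ y in 𝓝 x0, ∀ b, ‖fderiv ℝ (T b) y - fderiv ℝ (T b) x0‖ ≤ k := by
    rw [Filter.eventually_all]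
    intro b
    have h4 := (h1 b).eventually (Metric.closedBall_mem_nhds (fderiv ℝ (T b) x0) hk)
    filter_upwards [h4] with y hy
    rw [← dist_eq_norm]
    exact hy
  obtain ⟨d, hd, hd1⟩ := Metric.eventually_nhds_iff_ball.1 h3
  have hr := h.rpos
  refine ⟨min d (r / 2), by positivity, lt_of_le_of_lt (min_le_right _ _) (by linarith), ?_⟩
  intro b y hy z hz
  have hsub : ball x0 (min d (r / 2)) ⊆ ball x0 r :=
    ball_subset_ball ((min_le_right _ _).trans (by linarith))
  have h5 : ∀ x ∈ ball x0 (min d (r / 2)), DifferentiableAt ℝ (T b) x := by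
    intro x hx
    exact ((h.c1 b).differentiableOn one_ne_zero).differentiableAt
      (isOpen_ball.mem_nhds (hsub hx))
  have h6 := Convex.norm_image_sub_le_of_norm_fderiv_le' (𝕜 := ℝ) (f := T b)
    (φ := fderiv ℝ (T b) x0) (C := k) h5
    (fun x hx => hd1 x (ball_subset_ball (min_le_left _ _) hx) b) (convex_ball _ _) hy hz
  rw [ha, Real.norm_eq_abs] at h6
  exact h6

/-- the speed quadratic form -/
theorem quad7 {N : ℕ} (n : Fin N → ℝ) (hn : ∀ b, 0 ≤ n b) (a : Fin N → ℂ) {e : ℝ} (he : 0 < e) :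
    ∃ k : ℝ, 0 < k ∧ (∑ b, n b) * k ≤ e ∧ ∀ (p : Fin N → ℝ) (z : ℂ),
      (∀ b, |p b - ((a b).re * z.re + (a b).im * z.im)| ≤ k * ‖z‖) →
      ∑ b, n b * p b ^ 2 ≤ ∑ b, n b * ((a b).re * z.re + (a b).im * z.im) ^ 2 + e * ‖z‖ ^ 2 := by
  set A : ℝ := ∑ b, ‖a b‖ with hA
  set n0 : ℝ := ∑ b, n b with hn0
  have hA0 : 0 ≤ A := Finset.sum_nonneg fun b _ => norm_nonneg _
  have hn00 : 0 ≤ n0 := Finset.sum_nonneg fun b _ => hn b
  have hAb : ∀ b, ‖a b‖ ≤ A := fun b =>
    Finset.single_le_sum (f := fun b => ‖a b‖) (fun b _ => norm_nonneg _) (Finset.mem_univ b)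
  set D : ℝ := (n0 + 1) * (2 * A + 1) with hD
  have hD0 : 0 < D := by positivity
  have hk1 : min 1 (e / D) * D ≤ e := by
    calc min 1 (e / D) * D ≤ e / D * D := mul_le_mul_of_nonneg_right (min_le_right _ _) hD0.le
      _ = e := by field_simp
  have hk0 : 0 < min 1 (e / D) := by positivity
  refine ⟨min 1 (e / D), hk0, ?_, ?_⟩
  · nlinarith [mul_nonneg hn00 hA0]
  · intro p z hp
    set k := min 1 (e / D) with hk
    have hk2 : k ≤ 1 := min_le_left _ _
    have hz := norm_nonneg z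
    have key : ∀ b, n b * p b ^ 2 ≤ n b * ((a b).re * z.re + (a b).im * z.im) ^ 2 +
        n b * (k * (2 * A + 1) * ‖z‖ ^ 2) := by
      intro b
      rw [← mul_add]
      refine mul_le_mul_of_nonneg_left ?_ (hn b)
      set c := (a b).re * z.re + (a b).im * z.im with hc
      have h1 : |c| ≤ A * ‖z‖ := (inner_le7 (a b) z).trans
        (mul_le_mul_of_nonneg_right (hAb b) hz)
      have h2 := hp b
      have h3 : p b ^ 2 = c ^ 2 + (p b - c) * (2 * c + (p b - c)) := by ring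
      have h4 : (p b - c) * (2 * c + (p b - c)) ≤ k * ‖z‖ * (2 * (A * ‖z‖) + k * ‖z‖) := by
        refine (le_abs_self _).trans ?_
        rw [abs_mul]
        refine mul_le_mul h2 ?_ (abs_nonneg _) (by positivity)
        refine (abs_add_le _ _).trans ?_
        rw [abs_mul, abs_two]
        linarith
      rw [h3]
      have h5 : k * ‖z‖ * (2 * (A * ‖z‖) + k * ‖z‖) ≤ k * (2 * A + 1) * ‖z‖ ^ 2 := by
        have : k * ‖z‖ * (2 * (A * ‖z‖) + k * ‖z‖) = k * (2 * A + k) * ‖z‖ ^ 2 := by ring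
        rw [this]
        refine mul_le_mul_of_nonneg_right ?_ (sq_nonneg _)
        exact mul_le_mul_of_nonneg_left (by linarith) hk0.le
      linarith
    have h6 := Finset.sum_le_sum fun b (_ : b ∈ Finset.univ) => key b
    rw [Finset.sum_add_distrib, ← Finset.sum_mul] at h6
    refine h6.trans ?_
    have h7 : n0 * (k * (2 * A + 1) * ‖z‖ ^ 2) ≤ e * ‖z‖ ^ 2 := by
      rw [← mul_assoc]
      refine mul_le_mul_of_nonneg_right ?_ (sq_nonneg _)
      refine le_trans ?_ hk1
      nlinarith [mul_nonneg hk0.le (by positivity : (0 : ℝ) ≤ 2 * A + 1)]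
    linarith

theorem pert {u : ℂ → Nm F V} {x0 : ℂ} {r : ℝ} {N : ℕ} {E : Fin N → Submodule K V}
    {T : Fin N → ℂ → ℝ} (h : Cht F u x0 r N E T) : ∃ r' : ℝ, 0 < r' ∧ r' < r ∧ ∃ ep : ℝ, 0 < ep ∧
      ∀ w : ℂ → Nm F V, LM w (ball x0 r') → (∀ y ∈ ball x0 r', dist (w y) (u y) ≤ ep) →
        (∀ t : ℂ, ‖t‖ = 1 → ∫ y in ball x0 (7 / 8 * r'), (sp w t y - sp u t y) ^ 2 ≤ ep) →
        ∀ y ∈ ball x0 (r' / 2), SpD E (w y).1 := by
  classical
  set a : Fin N → ℂ := fun b => ⟨fderiv ℝ (T b) x0 1, fderiv ℝ (T b) x0 Complex.I⟩ with ha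
  have ha' : ∀ b z, fderiv ℝ (T b) x0 z = (a b).re * z.re + (a b).im * z.im :=
    fun b z => lin7 _ z
  have hinj : Function.Injective a := by
    intro b b' hbb
    by_contra hne
    refine h.dst x0 (mem_ball_self h.rpos) b b' hne ?_
    ext z
    rw [ha', ha', hbb]
  obtain ⟨e0, he0, r0, hr0, hmain⟩ := main_lemma F h.int h.ne hinj
  set n : Fin N → ℝ := fun b => nn E b with hn
  have hn0 : ∀ b, 0 ≤ n b := fun b => by
    simp only [hn]
    unfold nn
    positivity
  set Q : ℂ → ℝ := fun z => ∑ b, n b * ((a b).re * z.re + (a b).im * z.im) ^ 2 with hQ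
  have hQ0 : ∀ z, 0 ≤ Q z := fun z =>
    Finset.sum_nonneg fun b _ => mul_nonneg (hn0 b) (sq_nonneg _)
  have hQs : ∀ (s : ℝ) (z : ℂ), Q ((s : ℂ) * z) = s ^ 2 * Q z := by
    intro s z
    simp only [hQ, Finset.mul_sum]
    refine Finset.sum_congr rfl fun b _ => ?_
    have e1 : ((s : ℂ) * z).re = s * z.re := by simp
    have e2 : ((s : ℂ) * z).im = s * z.im := by simp
    rw [e1, e2]
    ring
  set nA : ℝ := ∑ b, n b * ‖a b‖ ^ 2 with hnA
  have hnA0 : 0 ≤ nA := Finset.sum_nonneg fun b _ => mul_nonneg (hn0 b) (sq_nonneg _)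
  have hQb : ∀ t : ℂ, ‖t‖ = 1 → Q t ≤ nA := by
    intro t ht
    refine Finset.sum_le_sum fun b _ => mul_le_mul_of_nonneg_left ?_ (hn0 b)
    have h1 := inner_le7 (a b) t
    rw [ht, mul_one] at h1
    rw [← sq_abs]
    exact pow_le_pow_left₀ (abs_nonneg _) h1 2
  obtain ⟨q, hq⟩ : ∃ q : ℝ, q = e0 ^ 2 / 4 := ⟨_, rfl⟩
  have hq0 : 0 < q := by rw [hq]; positivity
  obtain ⟨k, hk0, hk1, hk2⟩ := quad7 n hn0 a (e := min q (e0 / 2)) (by positivity)
  obtain ⟨r1, hr1, hr1r, hnear⟩ := near7 F h ha' hk0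
  -- the radius
  obtain ⟨r', hr'⟩ : ∃ r' : ℝ, r' = min (r1 / 2) r0 := ⟨_, rfl⟩
  have hr'0 : 0 < r' := by rw [hr']; positivity
  have hr'1 : r' < r1 := by rw [hr']; exact lt_of_le_of_lt (min_le_left _ _) (by linarith)
  have hr'2 : r' ≤ r0 := by rw [hr']; exact min_le_right _ _
  clear hr'
  have hsub1 : ball x0 r1 ⊆ ball x0 r := ball_subset_ball hr1r.le
  have hsub2 : ball x0 r' ⊆ ball x0 r1 := ball_subset_ball hr'1.le
  -- distances of u
  have hu2 : ∀ y ∈ ball x0 r1, ∀ z ∈ ball x0 r1,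
      dist (u y) (u z) ^ 2 ≤ Q (z - y) + q * ‖z - y‖ ^ 2 := by
    intro y hy z hz
    rw [dist_chart7 F h (hsub1 hy) (hsub1 hz)]
    have h1 := hk2 (fun b => T b z - T b y) (z - y) (fun b => hnear b y hy z hz)
    have h2 : min q (e0 / 2) * ‖z - y‖ ^ 2 ≤ q * ‖z - y‖ ^ 2 :=
      mul_le_mul_of_nonneg_right (min_le_left _ _) (sq_nonneg _)
    simp only [hQ]
    simp only [hn] at h1 ⊢
    linarith
  -- speeds of u
  have hspu : ∀ t : ℂ, ‖t‖ = 1 → ∀ y ∈ ball x0 r1, sp u t y ≤ Real.sqrt (Q t + q) := by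
    intro t ht y hy
    have hd : 0 < r1 - dist y x0 := by
      have := mem_ball.1 hy
      linarith
    refine sp_up7 hd fun s hs hs1 => ?_
    have hz : y + (s : ℂ) * t ∈ ball x0 r1 := by
      rw [mem_ball]
      have h1 : dist (y + (s : ℂ) * t) x0 ≤ dist (y + (s : ℂ) * t) y + dist y x0 :=
        dist_triangle _ _ _
      have h2 : dist (y + (s : ℂ) * t) y = s := by
        rw [dist_eq_norm]
        simp [ht, abs_of_pos hs]
      linarith
    have h3 := hu2 _ hy _ hz
    have h4 : y + (s : ℂ) * t - y = (s : ℂ) * t := by ring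
    have h5 : ‖(s : ℂ) * t‖ = s := by simp [ht, abs_of_pos hs]
    rw [h4, hQs, h5] at h3
    rw [dist_comm]
    refine abs_le_of_sq_le_sq' ?_ (by positivity) |>.2
    rw [mul_pow, Real.sq_sqrt (add_nonneg (hQ0 t) hq0.le)]
    linarith
  have hLu : ∀ y ∈ ball x0 r1, ∀ z ∈ ball x0 r1,
      dist (u y) (u z) ≤ Real.sqrt (nA + q) * dist y z := by
    intro y hy z hz
    refine abs_le_of_sq_le_sq' ?_ (by positivity) |>.2
    rw [mul_pow, Real.sq_sqrt (add_nonneg hnA0 hq0.le)]
    refine (hu2 y hy z hz).trans ?_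
    have h1 : Q (z - y) ≤ nA * ‖z - y‖ ^ 2 := by
      simp only [hQ, hnA, Finset.sum_mul]
      refine Finset.sum_le_sum fun b _ => ?_
      rw [mul_assoc]
      refine mul_le_mul_of_nonneg_left ?_ (hn0 b)
      rw [← sq_abs, ← mul_pow]
      exact pow_le_pow_left₀ (abs_nonneg _) (inner_le7 (a b) (z - y)) 2
    have h2 : dist y z = ‖z - y‖ := by rw [dist_comm, dist_eq_norm]
    rw [h2]
    linarith
  have hLpou : Lpo u (ball x0 r1) := by
    intro C hC _
    exact ⟨_, fun x hx y hy => hLu x (hC hx) y (hC hy)⟩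
  -- constants
  obtain ⟨th, hth⟩ : ∃ th : ℝ, th = q / (nA + q) := ⟨_, rfl⟩
  have hth0 : 0 < th := by rw [hth]; positivity
  have hth1 : th * (nA + q) = q := by
    rw [hth]
    field_simp
  obtain ⟨rho, hrho⟩ : ∃ rho : ℝ, rho = 3 / 4 * r' := ⟨_, rfl⟩
  have hrho0 : 0 < rho := by rw [hrho]; positivity
  obtain ⟨n1, hn1⟩ : ∃ n1 : ℝ, n1 = ∑ b, n b := ⟨_, rfl⟩
  have hn10 : 0 ≤ n1 := by rw [hn1]; exact Finset.sum_nonneg fun b _ => hn0 b
  have hnb : ∀ b, n b ≤ n1 := fun b => by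
    rw [hn1]
    exact Finset.single_le_sum (f := n) (fun b _ => hn0 b) (Finset.mem_univ b)
  rw [← hn1] at hk1
  obtain ⟨m, hm⟩ : ∃ m : ℝ, m = (Module.finrank K V : ℝ) := ⟨_, rfl⟩
  have hm0 : 0 ≤ m := by rw [hm]; positivity
  obtain ⟨ep1, hep1⟩ : ∃ x : ℝ, x = e0 * rho / (4 * (n1 + 1)) := ⟨_, rfl⟩
  obtain ⟨ep2, hep2⟩ : ∃ x : ℝ, x = e0 * rho / (2 * (m + 1)) := ⟨_, rfl⟩
  obtain ⟨ep3, hep3⟩ : ∃ x : ℝ, x = q * (Real.pi * (r' / 8) ^ 2) / (1 + 1 / th) := ⟨_, rfl⟩
  have hep10 : 0 < ep1 := by rw [hep1]; positivity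
  have hep20 : 0 < ep2 := by rw [hep2]; positivity
  have hep30 : 0 < ep3 := by rw [hep3]; positivity
  obtain ⟨ep, hep⟩ : ∃ x : ℝ, x = min ep1 (min ep2 ep3) := ⟨_, rfl⟩
  have hep0 : 0 < ep := by rw [hep]; positivity
  have hepa : ep ≤ ep1 := by rw [hep]; exact min_le_left _ _
  have hepb : ep ≤ ep2 := by rw [hep]; exact (min_le_right _ _).trans (min_le_left _ _)
  have hepc : ep ≤ ep3 := by rw [hep]; exact (min_le_right _ _).trans (min_le_right _ _)
  refine ⟨r', hr'0, by linarith, ep, hep0, ?_⟩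
  intro w hw hd hs
  have hsubr : ball x0 rho ⊆ ball x0 r' := ball_subset_ball (by linarith)
  -- (i)
  have hi : ∀ b, ∀ y ∈ ball x0 rho, |rd F (rs (E b) (w x0).1) (rs (E b) (w y).1) -
      nn E b * ((a b).re * (y - x0).re + (a b).im * (y - x0).im)| ≤ e0 * rho := by
    intro b y hy
    have hy' : y ∈ ball x0 r' := hsubr hy
    have hx0' : x0 ∈ ball x0 r' := mem_ball_self hr'0
    have s1 : SN F (rs (E b) (w x0).1) := rs_sn F (E b) (w x0).2
    have s2 : SN F (rs (E b) (u x0).1) := rs_sn F (E b) (u x0).2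
    have s3 : SN F (rs (E b) (u y).1) := rs_sn F (E b) (u y).2
    have s4 : SN F (rs (E b) (w y).1) := rs_sn F (E b) (w y).2
    have hclose : ∀ z ∈ ball x0 r', ∀ v, |(u z).1 v - (w z).1 v| ≤ ep := fun z hz v =>
      (abs_le_ds F (w z).2 (u z).2 v).trans (hd z hz)
    have e1 : |rd F (rs (E b) (w x0).1) (rs (E b) (u x0).1)| ≤ Module.finrank K (E b) * ep :=
      rd_le_sup F s1 s2 fun v _ => hclose x0 hx0' v
    have e2 : |rd F (rs (E b) (u y).1) (rs (E b) (w y).1)| ≤ Module.finrank K (E b) * ep :=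
      rd_le_sup F s3 s4 fun v _ => by
        have := hclose y hy' v
        rw [abs_sub_comm] at this
        exact this
    have e3 : rd F (rs (E b) (w x0).1) (rs (E b) (w y).1) =
        rd F (rs (E b) (w x0).1) (rs (E b) (u x0).1) + nn E b * (T b y - T b x0) +
          rd F (rs (E b) (u y).1) (rs (E b) (w y).1) := by
      rw [rd_add F s1 s2 s4, rd_add F s2 s3 s4, rd_chart7 F h (hsub1 (hsub2 hy')) b]
      ring
    have e4 := hnear b x0 (hsub2 hx0') y (hsub2 hy')
    have e5 : ‖y - x0‖ ≤ rho := by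
      rw [← dist_eq_norm]
      exact (mem_ball.1 hy).le
    have e6 : |nn E b * (T b y - T b x0) -
        nn E b * ((a b).re * (y - x0).re + (a b).im * (y - x0).im)| ≤ e0 / 2 * rho := by
      rw [← mul_sub, abs_mul, abs_of_nonneg (hn0 b)]
      calc nn E b * |T b y - T b x0 - ((a b).re * (y - x0).re + (a b).im * (y - x0).im)| ≤
          nn E b * (k * ‖y - x0‖) := mul_le_mul_of_nonneg_left e4 (hn0 b)
        _ ≤ n1 * (k * rho) := by
            refine mul_le_mul (hnb b) ?_ (by positivity) hn10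
            exact mul_le_mul_of_nonneg_left e5 hk0.le
        _ = n1 * k * rho := by ring
        _ ≤ e0 / 2 * rho := by
            refine mul_le_mul_of_nonneg_right (hk1.trans (min_le_right _ _)) hrho0.le
    have e7 : (Module.finrank K (E b) : ℝ) * ep ≤ e0 * rho / 4 := by
      have h1 : (Module.finrank K (E b) : ℝ) = nn E b := rfl
      rw [h1]
      calc nn E b * ep ≤ (n1 + 1) * ep1 := by
            refine mul_le_mul ?_ hepa hep0.le (by positivity)
            linarith [hnb b]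
        _ = e0 * rho / 4 := by
            rw [hep1]
            field_simp
    rw [e3]
    have e8 := abs_le.1 e1
    have e9 := abs_le.1 e2
    have e10 := abs_le.1 e6
    rw [abs_le]
    constructor <;> linarith [e8.1, e8.2, e9.1, e9.2, e10.1, e10.2]
  -- (ii)
  have hii : ∀ y ∈ ball x0 rho, rd F (osm E (w y).1) (w y).1 ≤ e0 * rho := by
    intro y hy
    have hy' : y ∈ ball x0 r' := hsubr hy
    have hc : ∀ v, |(u y).1 v - (w y).1 v| ≤ ep := fun v =>
      (abs_le_ds F (w y).2 (u y).2 v).trans (hd y hy')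
    have h1 : |rd F (osm E (w y).1) (w y).1| ≤ m * (2 * ep) := by
      rw [hm]
      exact rd_le_sup F (osm_sn F h.int (w y).2) (w y).2 fun v hv =>
        osm_near7 F h.int (w y).2 (u y).2 (h.spl y (hsub1 (hsub2 hy'))) hc v hv
    refine (le_abs_self _).trans (h1.trans ?_)
    calc m * (2 * ep) ≤ (m + 1) * (2 * ep2) := by
          refine mul_le_mul (by linarith) (by linarith) (by positivity) (by positivity)
      _ = e0 * rho := by
          rw [hep2]
          field_simp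
  -- averages of the speeds of w
  have havg : ∀ t : ℂ, ‖t‖ = 1 → ∀ z ∈ ball x0 rho,
      (⨍ y in ball z (r' / 8), sp w t y ^ 2) ≤ Q t + e0 ^ 2 := by
    intro t ht z hz
    have hzz := mem_ball.1 hz
    have hsb : ball z (r' / 8) ⊆ ball x0 (7 / 8 * r') := by
      refine ball_subset_ball' ?_
      linarith
    have hsb2 : ball x0 (7 / 8 * r') ⊆ ball x0 (15 / 16 * r') := ball_subset_ball (by linarith)
    have hsb3 : closedBall x0 (15 / 16 * r') ⊆ ball x0 r' := closedBall_subset_ball (by linarith)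
    obtain ⟨L, hL⟩ := hw.lip _ hsb3 (isCompact_closedBall _ _)
    have hbw : ∀ y ∈ ball x0 (15 / 16 * r'), 0 ≤ sp w t y ∧ sp w t y ≤ L * ‖t‖ := fun y hy =>
      sp_bd isOpen_ball (fun p hp p' hp' => hL p (ball_subset_closedBall hp) p'
        (ball_subset_closedBall hp')) t y hy
    have hbu : ∀ y ∈ ball x0 r1, 0 ≤ sp u t y ∧ sp u t y ≤ Real.sqrt (nA + q) * ‖t‖ := fun y hy =>
      sp_bd isOpen_ball hLu t y hy
    have hmw : AEStronglyMeasurable (sp w t) (volume.restrict (ball x0 (7 / 8 * r'))) :=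
      (sp_meas isOpen_ball hw.lip t).mono_measure
        (Measure.restrict_mono (hsb2.trans (ball_subset_closedBall.trans hsb3)) le_rfl)
    have hmu : AEStronglyMeasurable (sp u t) (volume.restrict (ball x0 (7 / 8 * r'))) :=
      (sp_meas isOpen_ball hLpou t).mono_measure
        (Measure.restrict_mono (ball_subset_ball (by linarith)) le_rfl)
    have hfin : volume (ball x0 (7 / 8 * r')) < ⊤ := measure_ball_lt_top
    have hint : ∀ (f : ℂ → ℝ) (M : ℝ),
        AEStronglyMeasurable f (volume.restrict (ball x0 (7 / 8 * r'))) →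
        (∀ y ∈ ball x0 (7 / 8 * r'), |f y| ≤ M) →
        IntegrableOn (fun y => f y ^ 2) (ball x0 (7 / 8 * r')) := by
      intro f M hf hM
      have hfm : IsFiniteMeasure (volume.restrict (ball x0 (7 / 8 * r'))) :=
        ⟨by rw [Measure.restrict_apply_univ]; exact hfin⟩
      refine Integrable.of_bound (hf.pow 2) (M ^ 2) ?_
      refine (ae_restrict_iff' measurableSet_ball).2 (Filter.Eventually.of_forall fun y hy => ?_)
      rw [Real.norm_eq_abs, abs_pow]
      exact pow_le_pow_left₀ (abs_nonneg _) (hM y hy) 2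
    have hiw : IntegrableOn (fun y => sp w t y ^ 2) (ball x0 (7 / 8 * r')) := by
      refine hint (sp w t) (L * ‖t‖) hmw fun y hy => ?_
      rw [abs_of_nonneg (hbw y (hsb2 hy)).1]
      exact (hbw y (hsb2 hy)).2
    have hid : IntegrableOn (fun y => (sp w t y - sp u t y) ^ 2) (ball x0 (7 / 8 * r')) := by
      refine hint (fun y => sp w t y - sp u t y) (L * ‖t‖ + Real.sqrt (nA + q) * ‖t‖)
        (hmw.sub hmu) fun y hy => ?_
      have h1 := hbw y (hsb2 hy)
      have h2 := hbu y (ball_subset_ball (by linarith) hy)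
      rw [abs_le]
      constructor <;> linarith [h1.1, h1.2, h2.1, h2.2]
    have hA := avg7 (f := sp w t) (g := fun y => sp w t y - sp u t y) (B := Q t + q)
      (q := r' / 8) (z := z) (ep := ep) (by positivity) hsb measurableSet_ball hth0 ?_ hid
      (hiw.mono_set hsb) (hs t ht)
    · refine hA.trans ?_
      have h1 : th * (Q t + q) ≤ q := by
        rw [← hth1]
        exact mul_le_mul_of_nonneg_left (by linarith [hQb t ht]) hth0.le
      have h2 : (1 + 1 / th) * (ep / (Real.pi * (r' / 8) ^ 2)) ≤ q := by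
        calc (1 + 1 / th) * (ep / (Real.pi * (r' / 8) ^ 2)) ≤
            (1 + 1 / th) * (ep3 / (Real.pi * (r' / 8) ^ 2)) := by
              refine mul_le_mul_of_nonneg_left ?_ (by positivity)
              exact div_le_div_of_nonneg_right hepc (by positivity)
          _ = q := by
              rw [hep3]
              field_simp
      have h3 : (1 + th) * (Q t + q) = Q t + q + th * (Q t + q) := by ring
      have h4 : 4 * q = e0 ^ 2 := by
        rw [hq]
        ring
      rw [h3]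
      nlinarith
    · intro y hy
      have h1 := hspu t ht y (ball_subset_ball (by linarith) (hsb hy))
      have h0 := (hbu y (ball_subset_ball (by linarith) (hsb hy))).1
      have h2 : sp u t y ^ 2 ≤ Q t + q := by
        have := pow_le_pow_left₀ h0 h1 2
        rwa [Real.sq_sqrt (add_nonneg (hQ0 t) hq0.le)] at this
      have h3 : sp w t y ^ 2 ≤ (1 + th) * sp u t y ^ 2 +
          (1 + 1 / th) * (sp w t y - sp u t y) ^ 2 := by
        have h4 : (1 + th) * sp u t y ^ 2 + (1 + 1 / th) * (sp w t y - sp u t y) ^ 2 -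
            sp w t y ^ 2 = (th * sp u t y - (sp w t y - sp u t y)) ^ 2 / th := by
          field_simp
          ring
        have h5 : 0 ≤ (th * sp u t y - (sp w t y - sp u t y)) ^ 2 / th := by positivity
        linarith
      have h6 := mul_le_mul_of_nonneg_left h2 (by positivity : (0 : ℝ) ≤ 1 + th)
      linarith
  -- (iii)
  have hiii : ∀ x ∈ ball x0 rho, ∀ y ∈ ball x0 rho, dist (w x) (w y) ^ 2 ≤
      ∑ b, nn E b * ((a b).re * (y - x).re + (a b).im * (y - x).im) ^ 2 +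
        e0 ^ 2 * dist x y ^ 2 := by
    intro x hx y hy
    change dist (w x) (w y) ^ 2 ≤ Q (y - x) + e0 ^ 2 * dist x y ^ 2
    rcases eq_or_ne x y with hxy | hxy
    · rw [hxy, dist_self, sub_self, dist_self]
      have := hQ0 0
      nlinarith
    set s : ℝ := ‖y - x‖ with hs'
    have hs0 : 0 < s := norm_pos_iff.2 (sub_ne_zero.2 hxy.symm)
    have hsc : (s : ℂ) ≠ 0 := by exact_mod_cast hs0.ne'
    set t : ℂ := (y - x) / (s : ℂ) with ht'
    have ht : ‖t‖ = 1 := by
      simp only [ht', norm_div, Complex.norm_real, Real.norm_eq_abs, abs_of_pos hs0]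
      exact div_self hs0.ne'
    have hst : (s : ℂ) * t = y - x := by
      simp only [ht']
      field_simp
    have hseg : ∀ s1 : ℝ, 0 ≤ s1 → s1 ≤ s → x + (s1 : ℂ) * t ∈ ball x0 rho := by
      intro s1 h1 h2
      have hc := (convex_ball x0 rho).add_smul_sub_mem hx hy
        (t := s1 / s) ⟨by positivity, (div_le_one hs0).2 h2⟩
      have h3 : x + (s1 : ℂ) * t = x + (s1 / s) • (y - x) := by
        rw [Complex.real_smul, ← hst]
        push_cast
        field_simp
      rw [h3]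
      exact hc
    have hkey := seg7 (w := w) (x := x) (t := t) (s := s) (B := Real.sqrt (Q t + e0 ^ 2))
      (h0 := r' / 16) hs0 (by positivity) ?_
    · have h1 : x + (s : ℂ) * t = y := by
        rw [hst]
        ring
      rw [h1, dist_comm] at hkey
      have h2 := pow_le_pow_left₀ dist_nonneg hkey 2
      rw [mul_pow, Real.sq_sqrt (add_nonneg (hQ0 t) (sq_nonneg _))] at h2
      have h3 : dist x y = s := by rw [dist_comm, dist_eq_norm]
      rw [h3, ← hst, hQs]
      linarith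
    · intro s1 s2 h1 h2 h3 h4
      have hx1 := hseg s1 h1 (by linarith)
      have hx1' := mem_ball.1 hx1
      have hdq := dq_avg (npcN F) hw t (x + (s1 : ℂ) * t) (r := r' / 8) (s := s2 - s1)
        (A := Q t + e0 ^ 2) (by positivity) (by linarith) ?_ ?_
      · have h5 : x + (s1 : ℂ) * t + ((s2 - s1 : ℝ) : ℂ) * t = x + (s2 : ℂ) * t := by
          push_cast
          ring
        rw [h5] at hdq
        refine abs_le_of_sq_le_sq' ?_ (mul_nonneg (by linarith) (Real.sqrt_nonneg _)) |>.2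
        rw [mul_pow, Real.sq_sqrt (add_nonneg (hQ0 t) (sq_nonneg _))]
        exact hdq
      · rw [ht, mul_one]
        refine (closedBall_subset_closedBall' (y := x0)
          (ε₂ := r' / 8 + (s2 - s1) + dist (x + (s1 : ℂ) * t) x0) le_rfl).trans ?_
        refine closedBall_subset_ball ?_
        linarith
      · intro s' h5 h6
        have h7 : x + (s1 : ℂ) * t + (s' : ℂ) * t = x + ((s1 + s' : ℝ) : ℂ) * t := by
          push_cast
          ring
        rw [h7]
        exact havg t ht _ (hseg (s1 + s') (by linarith) (by linarith))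
  intro y hy
  refine hmain w x0 rho hrho0 (by linarith) (lm_mono hw isOpen_ball hsubr) hi hii hiii y ?_
  refine ball_subset_ball ?_ hy
  linarith

theorem pert' {u : ℂ → Nm F V} {x0 : ℂ} {r : ℝ} {N : ℕ} {E : Fin N → Submodule K V}
    {T : Fin N → ℂ → ℝ} (h : Cht F u x0 r N E T) : ∃ r' : ℝ, 0 < r' ∧ r' < r ∧ ∃ ep : ℝ, 0 < ep ∧
      ∀ w : ℂ → Nm F V, LM w (ball x0 r') → (∀ y ∈ ball x0 r', dist (w y) (u y) ≤ ep) →
        (∀ t : ℂ, ‖t‖ = 1 → IntegrableOn (fun y => (sp w t y - sp u t y) ^ 2) (ball x0 r') ∧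
          ∫ y in ball x0 r', (sp w t y - sp u t y) ^ 2 ≤ ep) →
        ∀ y ∈ ball x0 (r' / 2), SpD E (w y).1 := by
  obtain ⟨r', h1, h2, ep, h3, h4⟩ := pert F h
  refine ⟨r', h1, h2, ep, h3, fun w hw hd hs => h4 w hw hd fun t ht => ?_⟩
  refine le_trans ?_ (hs t ht).2
  refine setIntegral_mono_set (hs t ht).1 ?_ ?_
  · exact Filter.Eventually.of_forall fun y => sq_nonneg _
  · exact (ball_subset_ball (by linarith)).eventuallyLE

end H50NA
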