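import Pool.Agent.H50.NA.Inst

set_option autoImplicit false

/-!
# The action of GL(V) on splittable norms: act F a al = al o a⁻¹.  Row Act: the last five theorems.  COMPLETE PROOFS.

rd_rs_acf.  al' = rs E al, be' = rs E be are SN (rs_sn); common basis b of E (index Fin (finrank E)).  e : E ≃ₗ E.map a (a.submoduleMap E).  finrank (E.map a) = finrank E (LinearEquiv.finrank_eq e).
   b' := (b.map e).reindex (finCongr ..) : Bs K (E.map a); it splits rs (E.map a) (acf a al) and rs .. (acf a be), because (acf a al) (e x) = al x (rs_acf) and b'.repr (e x) i = b.repr x i (up to the reindexing);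
   rd_eq for both, sums equal (Equiv.sum_comp).
int_acf.  DirectSum.IsInternal for E transported by a linear equivalence: use DirectSum.isInternal_submodule_iff_iSupIndep_and_iSup_eq_top; Submodule.map_iSup; iSupIndep under the order isomorphism
   Submodule.orderIsoMapComap a (iSupIndep.map_orderIso or iSupIndep_map_orderIso_iff); or directly: every x is a unique sum of components.
cpt_acf.  cpt E b x is the component: characterisation: if x = sum_b y_b, y_b ∈ E b, then cpt E b x = y_b (unfold cpt, the decomposition is the inverse of the bijection DirectSum.coeLinearMap; helper31 proves such a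
   lemma in his rows; prove it here privately).  Then a x = sum_b a (cpt E b x) with a (cpt E b x) ∈ (E b).map a.
spd_acf.  By cpt_acf: for x ≠ 0, a x ≠ 0, (acf a al) (a x) = al x, (acf a al) (cpt (E.map a) b (a x)) = al (cpt E b x), cpt .. (a x) ≠ 0 iff cpt E b x ≠ 0; every y is a x with x = a.symm y.
gmf_acf.  Both sides are SN.  Let p, q be al, be as elements of Nm F V.  Uniqueness of the point m with dist p m = t dist p q, dist m q = (1-t) dist p q in a space with Npc: here directly: gmf_ex for al, be: basis b splitting al, be and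
   gmf al be t with gmf al be t (b i) = (1-t) al (b i) + t be (b i); b.map a splits acf a al, acf a be, acf a (gmf al be t) with the corresponding values.  gmf_ex for acf a al, acf a be: basis c.  To compare two norms defined by
   different common bases use npcN.cn (theorem npcN of Inst): for m1 = gmN (act a p) (act a q) t and z = act a (gmN p q t): dist m1 z ^2 <= (1-t) dist (act a p) z ^2 + t dist (act a q) z ^2 - t (1-t) dist^2, and
   dist (act a p) z = dist p (gmN p q t) = t dist p q, dist (act a q) z = (1-t) dist p q (computed by ds_eq in the basis b: sum (t (be-al))^2).  (1-t) t^2 + t (1-t)^2 - t (1-t) = 0, so dist m1 z = 0.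
-/

namespace H50NA

open MeasureTheory Set Filter Topology

noncomputable section

variable {K : Type} [Field K] (F : VF K) {V : Type} [AddCommGroup V] [Module K V] [Module.Finite K V]

/-- push forward of a function -/
def acf (a : V ≃ₗ[K] V) (al : V → ℝ) : V → ℝ := fun x => al (a.symm x)

theorem acf_mul (a b : V ≃ₗ[K] V) (al : V → ℝ) : acf (a * b) al = acf a (acf b al) := by
  funext x
  show al ((a * b).symm x) = al (b.symm (a.symm x))
  rfl

theorem acf_spl {a : V ≃ₗ[K] V} {al : V → ℝ} {b : Bs K V} (h : Spl F b al) :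
    Spl F (b.map a) (acf a al) := by
  intro x hx
  have hx' : a.symm x ≠ 0 := fun h0 => hx (by simpa using h0)
  obtain ⟨h1, i, h2, h3⟩ := h _ hx'
  have e1 : ∀ i, (b.map a).repr x i = b.repr (a.symm x) i := fun i => rfl
  have e2 : ∀ i, acf a al ((b.map a) i) = al (b i) := fun i => by simp [acf]
  refine ⟨fun j hj => ?_, i, ?_, ?_⟩
  · rw [e2, e1]; exact h1 j hj
  · rw [e1]; exact h2
  · rw [e2, e1]; exact h3

theorem acf_sn (a : V ≃ₗ[K] V) {al : V → ℝ} (h : SN F al) : SN F (acf a al) := by
  obtain ⟨h0, b, hb⟩ := h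
  exact ⟨by simp [acf, h0], b.map a, acf_spl F hb⟩

theorem acf_symm (a : V ≃ₗ[K] V) (al : V → ℝ) : acf a.symm (acf a al) = al := by
  funext x; simp [acf]

theorem acf_symm' (a : V ≃ₗ[K] V) (al : V → ℝ) : acf a (acf a.symm al) = al := by
  funext x; simp [acf]

theorem ds_acf (a : V ≃ₗ[K] V) {al be : V → ℝ} (ha : SN F al) (hb : SN F be) :
    ds F (acf a al) (acf a be) = ds F al be := by
  obtain ⟨b, h1, h2⟩ := common F ha hb
  have h3 := ds_eq F h1 h2
  have h4 := ds_eq F (acf_spl F (a := a) h1) (acf_spl F (a := a) h2)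
  have e2 : ∀ (al : V → ℝ) i, acf a al ((b.map a) i) = al (b i) := fun al i => by simp [acf]
  simp only [e2] at h4
  rw [← h3] at h4
  rcases sq_eq_sq_iff_eq_or_eq_neg.1 h4 with h5 | h5
  · exact h5
  · have h6 := ds_nonneg F (acf a al) (acf a be)
    have h7 := ds_nonneg F al be
    linarith

theorem rd_acf (a : V ≃ₗ[K] V) {al be : V → ℝ} (ha : SN F al) (hb : SN F be) :
    rd F (acf a al) (acf a be) = rd F al be := by
  obtain ⟨b, h1, h2⟩ := common F ha hb
  have h3 := rd_eq F h1 h2
  have h4 := rd_eq F (acf_spl F (a := a) h1) (acf_spl F (a := a) h2)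
  have e2 : ∀ (al : V → ℝ) i, acf a al ((b.map a) i) = al (b i) := fun al i => by simp [acf]
  simp only [e2] at h4
  rw [h4, h3]

/-- the isometry of the space of norms given by a -/
def act (a : V ≃ₗ[K] V) : Nm F V ≃ᵢ Nm F V :=
  IsometryEquiv.mk' (fun p => ⟨acf a p.1, acf_sn F a p.2⟩)
    (fun p => ⟨acf a.symm p.1, acf_sn F a.symm p.2⟩)
    (fun p => Subtype.ext (acf_symm' a p.1))
    (Isometry.of_dist_eq fun p q => by
      rw [dist_nm, dist_nm]; exact ds_acf F a p.2 q.2)

theorem act_val (a : V ≃ₗ[K] V) (p : Nm F V) (x : V) : (act F a p).1 x = p.1 (a.symm x) := rfl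

theorem act_fun (a : V ≃ₗ[K] V) (p : Nm F V) : (act F a p).1 = acf a p.1 := rfl

theorem act_mul (a b : V ≃ₗ[K] V) (p : Nm F V) : act F (a * b) p = act F a (act F b p) :=
  Subtype.ext (acf_mul a b p.1)

theorem act_symm (a : V ≃ₗ[K] V) (p : Nm F V) : (act F a).symm p = act F a.symm p := rfl

/-- transport of the restriction: the norm (acf a al) restricted to a(E), read in E -/
theorem rs_acf (a : V ≃ₗ[K] V) (E : Submodule K V) (al : V → ℝ) (x : E) :
    rs (E.map (a : V →ₗ[K] V)) (acf a al) ⟨a x, Submodule.mem_map_of_mem x.2⟩ = rs E al x := by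
  simp [rs, acf]

theorem rd_rs_acf (a : V ≃ₗ[K] V) (E : Submodule K V) {al be : V → ℝ} (ha : SN F al)
    (hb : SN F be) : rd F (rs (E.map (a : V →ₗ[K] V)) (acf a al)) (rs (E.map (a : V →ₗ[K] V)) (acf a be)) =
      rd F (rs E al) (rs E be) := by
  obtain ⟨b, h1, h2⟩ := common F (rs_sn F E ha) (rs_sn F E hb)
  obtain ⟨e, he⟩ : ∃ e : E ≃ₗ[K] (E.map (a : V →ₗ[K] V)), ∀ x : E, ((e x : E.map (a : V →ₗ[K] V)) : V) = a x :=
    ⟨a.submoduleMap E, fun x => rfl⟩
  have hfr : Module.finrank K E = Module.finrank K (E.map (a : V →ₗ[K] V)) := LinearEquiv.finrank_eq e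
  have hval : ∀ (ga : V → ℝ) (x : E.map (a : V →ₗ[K] V)),
      rs (E.map (a : V →ₗ[K] V)) (acf a ga) x = rs E ga (e.symm x) := by
    intro ga x
    have h3 := he (e.symm x)
    rw [LinearEquiv.apply_symm_apply] at h3
    show ga (a.symm x) = ga (e.symm x)
    rw [h3, LinearEquiv.symm_apply_apply]
  obtain ⟨b', hb1, hb2⟩ : ∃ b' : Bs K (E.map (a : V →ₗ[K] V)), (∀ i, b' i = e (b ((finCongr hfr).symm i))) ∧
      ∀ x i, b'.repr x i = b.repr (e.symm x) ((finCongr hfr).symm i) := by
    refine ⟨(b.map e).reindex (finCongr hfr), fun i => ?_, fun x i => ?_⟩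
    · simp
    · simp
  have key : ∀ ga : V → ℝ, Spl F b (rs E ga) → Spl F b' (rs (E.map (a : V →ₗ[K] V)) (acf a ga)) := by
    intro ga hga x hx
    have hx' : e.symm x ≠ 0 := by
      intro h0
      exact hx (by simpa using h0)
    obtain ⟨h4, i, h5, h6⟩ := hga _ hx'
    refine ⟨fun j hj => ?_, finCongr hfr i, ?_, ?_⟩
    · rw [hb2] at hj
      rw [hval, hval, hb2, hb1, LinearEquiv.symm_apply_apply]
      exact h4 _ hj
    · rw [hb2, Equiv.symm_apply_apply]
      exact h5
    · rw [hval, hval, hb2, hb1, LinearEquiv.symm_apply_apply, Equiv.symm_apply_apply]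
      exact h6
  rw [rd_eq F (key al h1) (key be h2), rd_eq F h1 h2, ← Equiv.sum_comp (finCongr hfr)]
  apply Finset.sum_congr rfl
  intro i _
  rw [hval, hval, hb1, LinearEquiv.symm_apply_apply, Equiv.symm_apply_apply]

theorem Act_cpt_sum {N : ℕ} {E : Fin N → Submodule K V} (hE : DirectSum.IsInternal E) (x : V) :
    (∀ b, cpt E b x ∈ E b) ∧ ∑ b, cpt E b x = x := by
  constructor
  · intro b
    unfold cpt
    rw [dif_pos hE]
    exact Submodule.coe_mem _
  · have h1 : ∀ b, cpt E b x = ((((LinearEquiv.ofBijective (DirectSum.coeLinearMap E) hE).symm x :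
        DirectSum (Fin N) fun i => E i) b : E b) : V) := by
      intro b
      unfold cpt
      rw [dif_pos hE]
    simp only [h1]
    obtain ⟨z, hz⟩ : ∃ z, (LinearEquiv.ofBijective (DirectSum.coeLinearMap E) hE).symm x = z := ⟨_, rfl⟩
    rw [hz]
    have h2 : DirectSum.coeLinearMap E z = x := by
      rw [← hz]
      exact LinearEquiv.apply_symm_apply (LinearEquiv.ofBijective (DirectSum.coeLinearMap E) hE) x
    rw [← h2]
    conv_rhs => rw [← DirectSum.sum_univ_of z]
    rw [map_sum]
    apply Finset.sum_congr rfl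
    intro b _
    exact (DirectSum.coeLinearMap_lof E b _).symm

theorem Act_cpt_uniq {N : ℕ} {E : Fin N → Submodule K V} (hE : DirectSum.IsInternal E) (x : V)
    (y : Fin N → V) (hy : ∀ b, y b ∈ E b) (hs : ∑ b, y b = x) (b : Fin N) : cpt E b x = y b := by
  unfold cpt
  rw [dif_pos hE]
  have h1 : (LinearEquiv.ofBijective (DirectSum.coeLinearMap E) hE).symm x =
      ∑ b, DirectSum.lof K (Fin N) (fun i => E i) b ⟨y b, hy b⟩ := by
    rw [LinearEquiv.symm_apply_eq]
    show x = DirectSum.coeLinearMap E _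
    rw [map_sum, ← hs]
    apply Finset.sum_congr rfl
    intro b _
    exact (DirectSum.coeLinearMap_lof E b (⟨y b, hy b⟩ : E b)).symm
  rw [h1, DirectSum.sum_apply, Finset.sum_eq_single b]
  · rw [DirectSum.lof_apply]
  · intro c _ hc
    exact DirectSum.of_eq_of_ne _ _ _ (Ne.symm hc)
  · intro h
    exact absurd (Finset.mem_univ _) h

theorem Act_int_acf (a : V ≃ₗ[K] V) {N : ℕ} {E : Fin N → Submodule K V} (hE : DirectSum.IsInternal E) :
    DirectSum.IsInternal (fun b => (E b).map (a : V →ₗ[K] V)) := by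
  rw [DirectSum.isInternal_submodule_iff_iSupIndep_and_iSup_eq_top] at hE ⊢
  obtain ⟨h1, h2⟩ := hE
  constructor
  · exact h1.map_orderIso (Submodule.orderIsoMapComap a)
  · rw [← Submodule.map_iSup, h2, Submodule.map_top, LinearMap.range_eq_top]
    exact a.surjective

theorem cpt_acf (a : V ≃ₗ[K] V) {N : ℕ} {E : Fin N → Submodule K V} (hE : DirectSum.IsInternal E)
    (b : Fin N) (x : V) : cpt (fun b => (E b).map (a : V →ₗ[K] V)) b (a x) = a (cpt E b x) := by
  obtain ⟨h1, h2⟩ := Act_cpt_sum hE x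
  apply Act_cpt_uniq (Act_int_acf a hE) (a x) (fun b => a (cpt E b x))
  · intro c
    exact Submodule.mem_map_of_mem (h1 c)
  · rw [← map_sum, h2]

theorem int_acf (a : V ≃ₗ[K] V) {N : ℕ} {E : Fin N → Submodule K V} (hE : DirectSum.IsInternal E) :
    DirectSum.IsInternal (fun b => (E b).map (a : V →ₗ[K] V)) := Act_int_acf a hE

theorem spd_acf (a : V ≃ₗ[K] V) {N : ℕ} {E : Fin N → Submodule K V} (hE : DirectSum.IsInternal E)
    (al : V → ℝ) : SpD (fun b => (E b).map (a : V →ₗ[K] V)) (acf a al) ↔ SpD E al := by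
  have h0 : ∀ x : V, acf a al (a x) = al x := by
    intro x
    unfold acf
    rw [LinearEquiv.symm_apply_apply]
  have h1 : ∀ x : V, a x ≠ 0 ↔ x ≠ 0 := fun x => by simp
  constructor
  · intro h x hx
    have h2 := h (a x) ((h1 x).2 hx)
    simp only [cpt_acf a hE, h0, h1] at h2
    exact h2
  · intro h x hx
    obtain ⟨y, rfl⟩ := a.surjective x
    simp only [cpt_acf a hE, h0, h1]
    exact h y ((h1 y).1 hx)

theorem gmf_acf (a : V ≃ₗ[K] V) {al be : V → ℝ} (ha : SN F al) (hb : SN F be) (t : ℝ)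
    (h0 : 0 ≤ t) (h1 : t ≤ 1) : gmf F (acf a al) (acf a be) t = acf a (gmf F al be t) := by
  obtain ⟨p, hp⟩ : ∃ p : Nm F V, p = ⟨al, ha⟩ := ⟨_, rfl⟩
  obtain ⟨q, hq⟩ : ∃ q : Nm F V, q = ⟨be, hb⟩ := ⟨_, rfl⟩
  obtain ⟨b, g1, g2, g3, g4⟩ := gmf_ex F ha hb t
  have e0 := ds_eq F g1 g2
  have e1 : ds F al (gmf F al be t) ^ 2 = t ^ 2 * ds F al be ^ 2 := by
    rw [ds_eq F g1 g3, e0, Finset.mul_sum]
    apply Finset.sum_congr rfl
    intro i _
    rw [g4]
    ring
  have e2 : ds F be (gmf F al be t) ^ 2 = (1 - t) ^ 2 * ds F al be ^ 2 := by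
    rw [ds_eq F g2 g3, e0, Finset.mul_sum]
    apply Finset.sum_congr rfl
    intro i _
    rw [g4]
    ring
  have h2 := (npcN F (V := V)).cn (act F a p) (act F a q) (act F a (gmN F p q t)) t h0 h1
  rw [(act F a).dist_eq, (act F a).dist_eq, (act F a).dist_eq] at h2
  have h3 : dist p (gmN F p q t) ^ 2 = t ^ 2 * ds F al be ^ 2 := by
    rw [hp, hq]
    exact e1
  have h4 : dist q (gmN F p q t) ^ 2 = (1 - t) ^ 2 * ds F al be ^ 2 := by
    rw [hp, hq]
    exact e2
  have h5 : dist p q = ds F al be := by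
    rw [hp, hq]
    rfl
  rw [h3, h4, h5] at h2
  have h6 : dist (gmN F (act F a p) (act F a q) t) (act F a (gmN F p q t)) ^ 2 ≤ 0 := by
    refine h2.trans (le_of_eq ?_)
    ring
  have h7 : dist (gmN F (act F a p) (act F a q) t) (act F a (gmN F p q t)) = 0 := by
    have h8 := sq_nonneg (dist (gmN F (act F a p) (act F a q) t) (act F a (gmN F p q t)))
    exact pow_eq_zero_iff two_ne_zero |>.1 (le_antisymm h6 h8)
  have h9 : gmN F (act F a p) (act F a q) t = act F a (gmN F p q t) := eq_of_dist_eq_zero h7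
  have h10 := congrArg (fun m : Nm F V => m.1) h9
  rw [hp, hq] at h10
  exact h10

end

end H50NA
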