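import Mathlib

set_option autoImplicit false

/-!
# MP_b319aa_NA (finite places): common definitions

Part 1: nonpositively curved spaces, speeds, energy, local minimisers, subharmonic functions.
Part 2: splittable norms on a finite dimensional vector space over a discretely (or trivially) valued field.
Additive convention: v x = -log|x| (only for x <> 0), norms are functions al : V -> R, al (c x) = v c + al x,
al (x+y) >= min (al x) (al y) (only non zero vectors matter; al 0 = 0 is junk).
-/

namespace H50NA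

open MeasureTheory Set Filter Topology

noncomputable section

/-! ## Part 1 -/

/-- nonpositive curvature: gm p q t is the point dividing the geodesic from p to q -/
structure Npc (X : Type) [MetricSpace X] (gm : X → X → ℝ → X) : Prop where
  zero : ∀ p q, gm p q 0 = p
  one : ∀ p q, gm p q 1 = q
  cn : ∀ (p q z : X) (t : ℝ), 0 ≤ t → t ≤ 1 →
    dist (gm p q t) z ^ 2 ≤ (1 - t) * dist p z ^ 2 + t * dist q z ^ 2 - t * (1 - t) * dist p q ^ 2

section maps

variable {E X : Type} [NormedAddCommGroup E] [NormedSpace ℝ E] [MetricSpace X]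

/-- Lipschitz on compact subsets of S -/
def Lpo (f : E → X) (S : Set E) : Prop :=
  ∀ C ⊆ S, IsCompact C → ∃ L : ℝ, ∀ x ∈ C, ∀ y ∈ C, dist (f x) (f y) ≤ L * dist x y

/-- speed of f at x in direction t (limsup along 1/(n+1); for locally Lipschitz f it is a limit, for almost every x) -/
def sp (f : E → X) (t x : E) : ℝ :=
  Filter.limsup (fun n : ℕ => ((n : ℝ) + 1) * dist (f (x + (1 / ((n : ℝ) + 1)) • t)) (f x)) atTop

end maps

/-- standard energy over a subset of the plane -/
def en {X : Type} [MetricSpace X] (f : ℂ → X) (S : Set ℂ) : ℝ :=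
  ∫ x in S, (sp f 1 x ^ 2 + sp f Complex.I x ^ 2)

/-- local minimisers -/
structure LM {X : Type} [MetricSpace X] (f : ℂ → X) (O : Set ℂ) : Prop where
  opn : IsOpen O
  lip : Lpo f O
  min : ∀ C ⊆ O, IsCompact C → ∀ g : ℂ → X, Lpo g O → (∀ x ∈ O \ C, g x = f x) → en f C ≤ en g C

/-- continuous functions with nondecreasing ball averages (subharmonic) -/
structure SubH (F : ℂ → ℝ) (O : Set ℂ) : Prop where
  cont : ContinuousOn F O
  mono : ∀ (x : ℂ) (r R : ℝ), 0 < r → r ≤ R → Metric.closedBall x R ⊆ O →
    (⨍ y in Metric.ball x r, F y) ≤ ⨍ y in Metric.ball x R, F y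

/-! ## Part 2 -/

/-- discretely (or trivially) valued fields -/
structure VF (K : Type) [Field K] where
  v : K → ℝ
  w : ℝ
  wpos : 0 < w
  mul : ∀ x y : K, x ≠ 0 → y ≠ 0 → v (x * y) = v x + v y
  add : ∀ x y : K, x ≠ 0 → y ≠ 0 → x + y ≠ 0 → min (v x) (v y) ≤ v (x + y)
  dis : ∀ x : K, x ≠ 0 → ∃ n : ℤ, v x = n * w

section norms

variable {K : Type} [Field K] (F : VF K) {V : Type} [AddCommGroup V] [Module K V]

/-- finite residue field -/
def Rf : Prop := ∃ R : Finset K, ∀ x : K, x ≠ 0 → 0 ≤ F.v x → ∃ r ∈ R, x = r ∨ 0 < F.v (x - r)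

/-- al is split by the basis b -/
def Spl {ι : Type} (b : Module.Basis ι K V) (al : V → ℝ) : Prop :=
  ∀ x : V, x ≠ 0 → (∀ i, b.repr x i ≠ 0 → al x ≤ F.v (b.repr x i) + al (b i)) ∧
    ∃ i, b.repr x i ≠ 0 ∧ al x = F.v (b.repr x i) + al (b i)

/-- bases indexed by Fin (dim V) -/
abbrev Bs (K V : Type) [Field K] [AddCommGroup V] [Module K V] : Type :=
  Module.Basis (Fin (Module.finrank K V)) K V

/-- norms in the weak sense -/
structure Nrm (al : V → ℝ) : Prop where
  zero : al 0 = 0
  smul : ∀ (c : K) (x : V), c ≠ 0 → x ≠ 0 → al (c • x) = F.v c + al x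
  add : ∀ x y : V, x ≠ 0 → y ≠ 0 → x + y ≠ 0 → min (al x) (al y) ≤ al (x + y)

/-- splittable norms -/
def SN (al : V → ℝ) : Prop := al 0 = 0 ∧ ∃ b : Bs K V, Spl F b al

/-- the norm split by b with values c on the basis -/
def mkn {ι : Type} (b : Module.Basis ι K V) (c : ι → ℝ) : V → ℝ := fun x =>
  open Classical in
  if x = 0 then 0 else sInf ((fun i => F.v (b.repr x i) + c i) '' {i | b.repr x i ≠ 0})

open Classical in
/-- distance -/
def ds (al be : V → ℝ) : ℝ :=
  if h : ∃ b : Bs K V, Spl F b al ∧ Spl F b be then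
    Real.sqrt (∑ i, (be (h.choose i) - al (h.choose i)) ^ 2) else 0

open Classical in
/-- relative degree: deg be - deg al -/
def rd (al be : V → ℝ) : ℝ :=
  if h : ∃ b : Bs K V, Spl F b al ∧ Spl F b be then
    ∑ i, (be (h.choose i) - al (h.choose i)) else 0

open Classical in
/-- the point dividing the geodesic from al to be -/
def gmf (al be : V → ℝ) (t : ℝ) : V → ℝ :=
  if h : ∃ b : Bs K V, Spl F b al ∧ Spl F b be then
    mkn F h.choose (fun i => (1 - t) * al (h.choose i) + t * be (h.choose i)) else al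

/-- restriction to a subspace -/
def rs (E : Submodule K V) (al : V → ℝ) : E → ℝ := fun x => al x

/-- scalar translation -/
def trl (al : V → ℝ) (c : ℝ) : V → ℝ := fun x => open Classical in if x = 0 then 0 else al x + c

/-- component of x in E b -/
def cpt {N : ℕ} (E : Fin N → Submodule K V) (b : Fin N) (x : V) : V :=
  open Classical in
  if h : DirectSum.IsInternal E then
    (((LinearEquiv.ofBijective (DirectSum.coeLinearMap E) h).symm x : DirectSum (Fin N) fun i => E i) b : V)
  else 0

/-- al is split along the decomposition E -/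
def SpD {N : ℕ} (E : Fin N → Submodule K V) (al : V → ℝ) : Prop :=
  ∀ x : V, x ≠ 0 → (∀ b, cpt E b x ≠ 0 → al x ≤ al (cpt E b x)) ∧
    ∃ b, cpt E b x ≠ 0 ∧ al x = al (cpt E b x)

/-- the norm min_b al(x_b) -/
def osm {N : ℕ} (E : Fin N → Submodule K V) (al : V → ℝ) : V → ℝ := fun x =>
  open Classical in
  if x = 0 then 0 else sInf ((fun b => al (cpt E b x)) '' {b | cpt E b x ≠ 0})

/-- dimension of E b as a real number -/
def nn {N : ℕ} (E : Fin N → Submodule K V) (b : Fin N) : ℝ := (Module.finrank K (E b) : ℝ)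

/-- the set of splittable norms as a type -/
def Nm (V : Type) [AddCommGroup V] [Module K V] : Type := {al : V → ℝ // SN F al}

end norms

end

end H50NA
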