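import Pool.Agent.H31.NA.GJ
import Pool.Agent.H31.NA.GK

set_option autoImplicit false

/-!
# Block G, base interface: common bases, relative position (proved in helper31's rows)
-/

namespace H50NA

open MeasureTheory Set Filter Topology

noncomputable section

variable {K : Type} [Field K] (F : VF K) {V : Type} [AddCommGroup V] [Module K V] [Module.Finite K V]

theorem spl_nrm {b : Bs K V} {al : V → ℝ} (h : Spl F b al) (h0 : al 0 = 0) : Nrm F al :=
  H31NA.spl_nrm F h h0

theorem sn_nrm {al : V → ℝ} (h : SN F al) : Nrm F al := H31NA.sn_nrm F h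

theorem common {al be : V → ℝ} (ha : SN F al) (hb : SN F be) :
    ∃ b : Bs K V, Spl F b al ∧ Spl F b be := H31NA.common F ha hb

/-- the relative position does not depend on the common basis -/
theorem relpos {al be : V → ℝ} {b b' : Bs K V} (h1 : Spl F b al) (h2 : Spl F b be) (h3 : Spl F b' al)
    (h4 : Spl F b' be) : ∃ s : Equiv.Perm (Fin (Module.finrank K V)),
      ∀ i, be (b' i) - al (b' i) = be (b (s i)) - al (b (s i)) := H31NA.relpos_gen F h1 h2 h3 h4

theorem ds_eq {al be : V → ℝ} {b : Bs K V} (h1 : Spl F b al) (h2 : Spl F b be) :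
    ds F al be ^ 2 = ∑ i, (be (b i) - al (b i)) ^ 2 := H31NA.ds_gen F h1 h2

theorem rd_eq {al be : V → ℝ} {b : Bs K V} (h1 : Spl F b al) (h2 : Spl F b be) :
    rd F al be = ∑ i, (be (b i) - al (b i)) := H31NA.rd_gen F h1 h2

theorem ds_comm {al be : V → ℝ} (ha : SN F al) (hb : SN F be) : ds F al be = ds F be al :=
  H31NA.ds_comm F ha hb

/-- mkn F b c is split by b and has the prescribed values -/
theorem mkn_spl (b : Bs K V) (c : Fin (Module.finrank K V) → ℝ) :
    Spl F b (mkn F b c) ∧ (∀ i, mkn F b c (b i) = c i) ∧ mkn F b c 0 = 0 :=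
  ⟨H31NA.mkn_spl F b c, H31NA.mkn_bas F b c, H31NA.mkn_zero F b c⟩

theorem gm_sn {al be : V → ℝ} (ha : SN F al) (hb : SN F be) (t : ℝ) : SN F (gmf F al be t) :=
  H31NA.gm_sn F ha hb t

/-- the geodesic is computed in some common basis -/
theorem gmf_ex {al be : V → ℝ} (ha : SN F al) (hb : SN F be) (t : ℝ) :
    ∃ b : Bs K V, Spl F b al ∧ Spl F b be ∧ Spl F b (gmf F al be t) ∧
      ∀ i, gmf F al be t (b i) = (1 - t) * al (b i) + t * be (b i) := by
  have h : ∃ b : Bs K V, Spl F b al ∧ Spl F b be := common F ha hb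
  obtain ⟨b, h1, h2, h3⟩ := H31NA.gmf_eq_aux F h
  have h4 := mkn_spl F b (fun i => (1 - t) * al (b i) + t * be (b i))
  refine ⟨b, h1, h2, ?_, fun i => ?_⟩
  · rw [h3 t]; exact h4.1
  · rw [h3 t]; exact h4.2.1 i

end

end H50NA
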