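import Pool.Agent.H50.NA.Gv

set_option autoImplicit false

/-!
# Row G3 (Hadamard inequality for norms).  COMPLETE PROOFS.  n = Module.finrank K V.

had_ge.  (e.toMatrix g) i j = e.repr (g j) i (Module.Basis.toMatrix_apply).  If it is <> 0 then g j <> 0 and he (g j) gives ga (g j) <= v (e.repr (g j) i) + ga (e i).
   So v_det with A = e.toMatrix g, b j = ga (g j), a i = ga (e i).

det_ne.  e.toMatrix g * g.toMatrix e = 1 (Module.Basis.toMatrix_mul_toMatrix_flip), so det * det = 1.

had_eq (<=, i.e. Spl F g ga gives equality).  had_ge for (g, e) : sum ga (e i) - sum ga (g j) <= v (det (g.toMatrix e)) = - v (det (e.toMatrix g)) (v_inv, the two determinants are inverse to each other).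
   With had_ge for (e, g): equality.
had_eq (=>).  ga is Nrm (spl_nrm).  Suppose g does not split ga.  For x <> 0 put S = {j | g.repr x j <> 0} (nonempty since x <> 0) and let j0 in S minimise v (g.repr x j) + ga (g j), mn = the minimum.
   x = sum_{j in S} (g.repr x j) • g j, so by nrm_sum (or nrm_sum_ge): mn <= ga x [each term (g.repr x j) • g j, j in S, has ga = v(..) + ga (g j) >= mn].  If mn = ga x for every x <> 0 then g splits ga:
   ga x = mn <= v + ga (g j) for all j in S and equality for j0.  So there is x <> 0 with mn < ga x.  Put y = (g.repr x j0)⁻¹ • x: ga y = ga x - v (g.repr x j0) > mn - v (g.repr x j0) = ga (g j0),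
   and y = g j0 + (a combination of the g j, j <> j0).
   g' := Function.update g j0 y.  det (e.toMatrix g') = det (e.toMatrix g): with e.det (Module.Basis.det, e.det v = det (e.toMatrix v), an alternating map): y = sum_j c_j • g j, c_j = g.repr y j, c_{j0} = 1:
   e.det (update g j0 (sum c_j • g j)) = sum_j c_j * e.det (update g j0 (g j)) and for j <> j0 the family update g j0 (g j) has two equal entries (value 0), for j = j0 it is g (Function.update_eq_self).
   (MultilinearMap.map_update_sum, map_update_smul, AlternatingMap.map_eq_zero_of_eq.)  had_ge for the family g' : sum_j ga (g' j) - sum ga (e i) <= v det (e.toMatrix g) = sum_j ga (g j) - sum ga (e i).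
   But sum_j ga (g' j) = sum_j ga (g j) + (ga y - ga (g j0)) > sum_j ga (g j).  Contradiction.
-/

namespace H50NA

open MeasureTheory Set Filter Topology

noncomputable section

variable {K : Type} [Field K] (F : VF K) {V : Type} [AddCommGroup V] [Module K V] [Module.Finite K V]

theorem had_ge {ga : V → ℝ} {e : Bs K V} (he : Spl F e ga) (g : Fin (Module.finrank K V) → V)
    (hd : (e.toMatrix g).det ≠ 0) :
    ∑ j, ga (g j) - ∑ i, ga (e i) ≤ F.v (e.toMatrix g).det := by
  refine v_det F (e.toMatrix g) (fun i => ga (e i)) (fun j => ga (g j)) ?_ hd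
  intro i j hij
  rw [Module.Basis.toMatrix_apply] at hij ⊢
  have hg : g j ≠ 0 := by
    intro h
    rw [h] at hij
    simp at hij
  have := (he (g j) hg).1 i hij
  linarith

theorem det_ne (e g : Bs K V) : (e.toMatrix g).det ≠ 0 := by
  have h := congrArg Matrix.det (Module.Basis.toMatrix_mul_toMatrix_flip e g)
  rw [Matrix.det_mul, Matrix.det_one] at h
  intro h0
  rw [h0, zero_mul] at h
  exact zero_ne_one h

theorem had_eq {ga : V → ℝ} (h0 : ga 0 = 0) {e : Bs K V} (he : Spl F e ga) (g : Bs K V) :
    F.v (e.toMatrix g).det = ∑ j, ga (g j) - ∑ i, ga (e i) ↔ Spl F g ga := by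
  classical
  have hnrm : Nrm F ga := spl_nrm F he h0
  constructor
  · intro hv x hx
    -- the minimum
    have hne : ∃ j, g.repr x j ≠ 0 := by
      by_contra hcon
      push Not at hcon
      apply hx
      have h1 : g.repr x = 0 := Finsupp.ext hcon
      exact g.repr.map_eq_zero_iff.1 h1
    obtain ⟨j0, hj0, hmin⟩ : ∃ j0, g.repr x j0 ≠ 0 ∧ ∀ j, g.repr x j ≠ 0 →
        F.v (g.repr x j0) + ga (g j0) ≤ F.v (g.repr x j) + ga (g j) := by
      obtain ⟨j0, h1, h2⟩ := Finset.exists_min_image
        (Finset.univ.filter fun j => g.repr x j ≠ 0) (fun j => F.v (g.repr x j) + ga (g j))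
        (by
          obtain ⟨j, hj⟩ := hne
          exact ⟨j, by simp [hj]⟩)
      refine ⟨j0, (Finset.mem_filter.1 h1).2, fun j hj => h2 j (by simp [hj])⟩
    have hsum : ∑ j, g.repr x j • g j = x := g.sum_repr x
    have hge : F.v (g.repr x j0) + ga (g j0) ≤ ga x := by
      have h1 := nrm_sum_ge F hnrm Finset.univ (fun j => g.repr x j • g j)
        (F.v (g.repr x j0) + ga (g j0)) (by rw [hsum]; exact hx) (by
          intro j _ hj
          have hc : g.repr x j ≠ 0 := by
            intro h
            rw [h, zero_smul] at hj
            exact hj rfl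
          rw [hnrm.smul _ _ hc (g.ne_zero j)]
          exact hmin j hc)
      rw [hsum] at h1
      exact h1
    have hle : ga x ≤ F.v (g.repr x j0) + ga (g j0) := by
      by_contra hlt
      push Not at hlt
      obtain ⟨y, hy⟩ : ∃ y, y = (g.repr x j0)⁻¹ • x := ⟨_, rfl⟩
      have hgy : ga (g j0) < ga y := by
        rw [hy, hnrm.smul _ _ (inv_ne_zero hj0) hx, v_inv F _ hj0]
        linarith
      have hry : g.repr y j0 = 1 := by
        rw [hy, map_smul, Finsupp.smul_apply, smul_eq_mul, inv_mul_cancel₀ hj0]
      have hdet : (e.toMatrix (Function.update (⇑g) j0 y)).det = (e.toMatrix g).det := by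
        rw [← Module.Basis.det_apply, ← Module.Basis.det_apply]
        have h1 : e.det (Function.update (⇑g) j0 y) =
            e.det.toMultilinearMap.toLinearMap (⇑g) j0 y := rfl
        have h2 : ∀ j, e.det.toMultilinearMap.toLinearMap (⇑g) j0 (g j) =
            if j = j0 then e.det g else 0 := by
          intro j
          change e.det (Function.update (⇑g) j0 (g j)) = _
          split_ifs with hj
          · rw [hj, Function.update_eq_self]
          · exact e.det.map_update_self (⇑g) (Ne.symm hj)
        rw [h1]
        conv_lhs => rw [← g.sum_repr y]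
        rw [map_sum]
        have h3 : ∀ j, e.det.toMultilinearMap.toLinearMap (⇑g) j0 (g.repr y j • g j) =
            if j = j0 then e.det g else 0 := by
          intro j
          rw [map_smul, h2]
          split_ifs with hj
          · rw [hj, hry, one_smul]
          · rw [smul_zero]
        rw [Finset.sum_congr rfl fun j _ => h3 j, Finset.sum_ite_eq' Finset.univ j0]
        simp
      have h5 := had_ge F he (Function.update (⇑g) j0 y) (by rw [hdet]; exact det_ne e g)
      rw [hdet, hv] at h5
      have h6 : ∑ j, ga (g j) < ∑ j, ga (Function.update (⇑g) j0 y j) := by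
        refine Finset.sum_lt_sum (fun j _ => ?_) ⟨j0, Finset.mem_univ _, ?_⟩
        · by_cases hj : j = j0
          · rw [hj, Function.update_self]
            exact hgy.le
          · rw [Function.update_of_ne hj]
        · rw [Function.update_self]
          exact hgy
      linarith
    have heq := le_antisymm hle hge
    exact ⟨fun i hi => heq.le.trans (hmin i hi), j0, hj0, heq⟩
  · intro hg
    have h1 := had_ge F he g (det_ne e g)
    have h2 := had_ge F hg e (det_ne g e)
    have h3 : (g.toMatrix e).det = ((e.toMatrix g).det)⁻¹ := by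
      have h := congrArg Matrix.det (Module.Basis.toMatrix_mul_toMatrix_flip e g)
      rw [Matrix.det_mul, Matrix.det_one] at h
      exact eq_inv_of_mul_eq_one_right h
    rw [h3, v_inv F _ (det_ne e g)] at h2
    linarith

end

end H50NA
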