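import Pool.Agent.H50.NA.Gv

set_option autoImplicit false

/-!
# Row G5 (Gauss elimination with pivoting).  COMPLETE PROOF.  n = Module.finrank K V, f, h bases, a : Fin n → ℝ weights.

Induction on k <= n of the statement P k: there are s : Fin n → Fin n, g : Fin n → V such that for all p with (p : ℕ) < k:
   (1) h.repr (g p) q = 0 for q > p;  (2) f.repr (g p) (s p) = 1;  (3) f.repr (g p) (s q) = 0 for q < p;  (4) f.repr (g p) i ≠ 0 → a (s p) <= v (f.repr (g p) i) + a i.
P 0: trivial.  Step k -> k+1, k < n; write k for ⟨k, _⟩ : Fin n.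
   Inner induction on j <= k: there is x : V with  h.repr x k = 1,  h.repr x q = 0 for q > k,  f.repr x (s q) = 0 for q < j.
      j = 0: x = h k.  j -> j+1 (j < k): x' := x - (f.repr x (s j)) • g j.  By (1) for g j: h.repr (g j) k = 0 and h.repr (g j) q = 0 for q > k.  By (3), (2) for p = j: f.repr (g j) (s q) = 0 for q < j, and = 1 for q = j.
      So f.repr x' (s q) = 0 for q < j and f.repr x' (s j) = 0.
   Take x for j = k.  x ≠ 0 because h.repr x k = 1.  The set {i | f.repr x i ≠ 0} is finite and nonempty: let i0 minimise v (f.repr x i) + a i on it (Finset.exists_min_image).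
   New g := update g k ((f.repr x i0)⁻¹ • x), s := update s k i0.  For p < k nothing changes ((3) involves only s q, q < p < k).  For p = k: (1) clear; (2) (f.repr x i0)⁻¹ * f.repr x i0 = 1;
   (3) f.repr x (s q) = 0 for q < k; (4) v ((f.repr x i0)⁻¹ * f.repr x i) = v (f.repr x i) - v (f.repr x i0) (F.mul, v_inv) and minimality.
P n gives s, g for all p.  s is injective: if s p = s q, q < p, then 1 = f.repr (g p) (s p) = f.repr (g p) (s q) = 0.  So s is a permutation (Finite.injective_iff_bijective, Equiv.ofBijective).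
   g is linearly independent (Fintype.linearIndependent_iff): let sum_p c_p • g p = 0 and suppose some c_p ≠ 0; take the SMALLEST such p; the coordinate s p of the sum: for q > p, f.repr (g q) (s p) = 0 by (3);
   for q < p, c_q = 0; for q = p it is c_p.  So c_p = 0, contradiction.  Basis: basisOfLinearIndependentOfCardEqFinrank (index type Fin n, card = finrank; n = 0 is harmless: use
   `basisOfLinearIndependentOfCardEqFinrank` needs Nonempty: for n = 0 take g = h and s = 1, all statements vacuous).
-/

namespace H50NA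

open MeasureTheory Set Filter Topology

noncomputable section

variable {K : Type} [Field K] (F : VF K) {V : Type} [AddCommGroup V] [Module K V] [Module.Finite K V]

omit [Module.Finite K V] in
theorem G5_inner {n : ℕ} (f h : Module.Basis (Fin n) K V) (k : Fin n) (s : Fin n → Fin n)
    (g : Fin n → V) (H1 : ∀ p q, p < k → p < q → h.repr (g p) q = 0)
    (H2 : ∀ p, p < k → f.repr (g p) (s p) = 1)
    (H3 : ∀ p q, p < k → q < p → f.repr (g p) (s q) = 0) (j : ℕ) :
    j ≤ (k : ℕ) → ∃ x : V, h.repr x k = 1 ∧ (∀ q, k < q → h.repr x q = 0) ∧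
      ∀ q : Fin n, (q : ℕ) < j → f.repr x (s q) = 0 := by
  induction j with
  | zero =>
    intro _
    refine ⟨h k, ?_, ?_, fun q hq => absurd hq (Nat.not_lt_zero _)⟩
    · rw [Module.Basis.repr_self, Finsupp.single_eq_same]
    · intro q hq
      rw [Module.Basis.repr_self, Finsupp.single_eq_of_ne hq.ne']
  | succ j ih =>
    intro hj
    obtain ⟨x, h1, h2, h3⟩ := ih (by omega)
    obtain ⟨jf, hjf⟩ : ∃ jf : Fin n, (jf : ℕ) = j := ⟨⟨j, by have := k.2; omega⟩, rfl⟩
    have hjk : jf < k := by
      rw [Fin.lt_def]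
      omega
    obtain ⟨c, hc⟩ : ∃ c, c = f.repr x (s jf) := ⟨_, rfl⟩
    refine ⟨x - c • g jf, ?_, ?_, ?_⟩
    · rw [map_sub, map_smul, Finsupp.sub_apply, Finsupp.smul_apply, h1, H1 jf k hjk hjk, smul_zero,
        sub_zero]
    · intro q hq
      rw [map_sub, map_smul, Finsupp.sub_apply, Finsupp.smul_apply, h2 q hq,
        H1 jf q hjk (hjk.trans hq), smul_zero, sub_zero]
    · intro q hq
      rw [map_sub, map_smul, Finsupp.sub_apply, Finsupp.smul_apply]
      by_cases hqj : q = jf
      · rw [hqj, H2 jf hjk, ← hc, smul_eq_mul, mul_one, sub_self]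
      · have hne : (q : ℕ) ≠ j := fun e => hqj (Fin.ext (by rw [hjf]; exact e))
        have hq' : (q : ℕ) < j := by omega
        have hq'' : q < jf := by
          rw [Fin.lt_def]
          omega
        rw [h3 q hq', H3 jf q hjk hq'', smul_zero, sub_zero]

omit [Module.Finite K V] in
theorem G5_outer {n : ℕ} (f h : Module.Basis (Fin n) K V) (a : Fin n → ℝ) (k : ℕ) : k ≤ n →
    ∃ (s : Fin n → Fin n) (g : Fin n → V),
      (∀ p q : Fin n, (p : ℕ) < k → p < q → h.repr (g p) q = 0) ∧
      (∀ p : Fin n, (p : ℕ) < k → f.repr (g p) (s p) = 1) ∧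
      (∀ p q : Fin n, (p : ℕ) < k → q < p → f.repr (g p) (s q) = 0) ∧
      ∀ p i : Fin n, (p : ℕ) < k → f.repr (g p) i ≠ 0 →
        a (s p) ≤ F.v (f.repr (g p) i) + a i := by
  classical
  induction k with
  | zero =>
    intro _
    exact ⟨id, fun _ => 0, fun _ _ hp => absurd hp (Nat.not_lt_zero _),
      fun _ hp => absurd hp (Nat.not_lt_zero _), fun _ _ hp => absurd hp (Nat.not_lt_zero _),
      fun _ _ hp => absurd hp (Nat.not_lt_zero _)⟩
  | succ k ih =>
    intro hk
    obtain ⟨s, g, H1, H2, H3, H4⟩ := ih (by omega)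
    obtain ⟨kf, hkf⟩ : ∃ kf : Fin n, (kf : ℕ) = k := ⟨⟨k, hk⟩, rfl⟩
    have hlt : ∀ p : Fin n, p < kf → (p : ℕ) < k := by
      intro p hp
      rw [Fin.lt_def, hkf] at hp
      exact hp
    obtain ⟨x, h1, h2, h3⟩ := G5_inner f h kf s g (fun p q hp => H1 p q (hlt p hp))
      (fun p hp => H2 p (hlt p hp)) (fun p q hp => H3 p q (hlt p hp)) k (by omega)
    have hx : ∃ i, f.repr x i ≠ 0 := by
      by_contra hcon
      push Not at hcon
      have hx0 : f.repr x = 0 := Finsupp.ext hcon
      rw [LinearEquiv.map_eq_zero_iff] at hx0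
      rw [hx0, map_zero, Finsupp.zero_apply] at h1
      exact zero_ne_one h1
    obtain ⟨i1, hi1⟩ := hx
    obtain ⟨i0, hi0, hmin⟩ := (Finset.univ.filter fun i => f.repr x i ≠ 0).exists_min_image
      (fun i => F.v (f.repr x i) + a i) ⟨i1, Finset.mem_filter.2 ⟨Finset.mem_univ _, hi1⟩⟩
    have hi0' : f.repr x i0 ≠ 0 := (Finset.mem_filter.1 hi0).2
    obtain ⟨c, hc⟩ : ∃ c, c = f.repr x i0 := ⟨_, rfl⟩
    rw [← hc] at hi0'
    have hupg : ∀ p, p ≠ kf → Function.update g kf (c⁻¹ • x) p = g p := fun p hp =>
      Function.update_of_ne hp _ _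
    have hups : ∀ p, p ≠ kf → Function.update s kf i0 p = s p := fun p hp =>
      Function.update_of_ne hp _ _
    have hcase : ∀ p : Fin n, (p : ℕ) < k + 1 → p = kf ∨ (p ≠ kf ∧ (p : ℕ) < k) := by
      intro p hp
      by_cases h : p = kf
      · exact Or.inl h
      · right
        refine ⟨h, ?_⟩
        have : (p : ℕ) ≠ k := fun e => h (Fin.ext (by rw [hkf]; exact e))
        omega
    refine ⟨Function.update s kf i0, Function.update g kf (c⁻¹ • x), ?_, ?_, ?_, ?_⟩
    · intro p q hp hpq
      rcases hcase p hp with rfl | ⟨hne, hp'⟩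
      · rw [Function.update_self, map_smul, Finsupp.smul_apply, h2 q hpq, smul_zero]
      · rw [hupg p hne]
        exact H1 p q hp' hpq
    · intro p hp
      rcases hcase p hp with rfl | ⟨hne, hp'⟩
      · rw [Function.update_self, Function.update_self, map_smul, Finsupp.smul_apply, ← hc,
          smul_eq_mul, inv_mul_cancel₀ hi0']
      · rw [hupg p hne, hups p hne]
        exact H2 p hp'
    · intro p q hp hqp
      rcases hcase p hp with rfl | ⟨hne, hp'⟩
      · rw [Function.update_self, hups q hqp.ne, map_smul, Finsupp.smul_apply, h3 q (hlt q hqp),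
          smul_zero]
      · have hq : q ≠ kf := by
          intro e
          rw [e, Fin.lt_def, hkf] at hqp
          omega
        rw [hupg p hne, hups q hq]
        exact H3 p q hp' hqp
    · intro p i hp hi
      rcases hcase p hp with rfl | ⟨hne, hp'⟩
      · rw [Function.update_self] at hi ⊢
        rw [Function.update_self]
        rw [map_smul, Finsupp.smul_apply, smul_eq_mul] at hi ⊢
        have hi' : f.repr x i ≠ 0 := right_ne_zero_of_mul hi
        have h5 := hmin i (Finset.mem_filter.2 ⟨Finset.mem_univ _, hi'⟩)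
        rw [F.mul _ _ (inv_ne_zero hi0') hi', v_inv F c hi0', hc]
        linarith
      · rw [hupg p hne] at hi ⊢
        rw [hups p hne]
        exact H4 p i hp' hi

theorem ech (f h : Bs K V) (a : Fin (Module.finrank K V) → ℝ) :
    ∃ (s : Equiv.Perm (Fin (Module.finrank K V))) (g : Bs K V),
      (∀ p q, p < q → h.repr (g p) q = 0) ∧ (∀ p, f.repr (g p) (s p) = 1) ∧
      (∀ p q, q < p → f.repr (g p) (s q) = 0) ∧
      ∀ p i, f.repr (g p) i ≠ 0 → a (s p) ≤ F.v (f.repr (g p) i) + a i := by
  classical
  obtain ⟨s, g, H1, H2, H3, H4⟩ := G5_outer F f h a (Module.finrank K V) le_rfl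
  have hs : Function.Injective s := by
    have key : ∀ p q, q < p → s p ≠ s q := by
      intro p q hqp e
      have h1 := H2 p p.2
      rw [e, H3 p q p.2 hqp] at h1
      exact zero_ne_one h1
    intro p q hpq
    rcases lt_trichotomy p q with hlt | heq | hgt
    · exact absurd hpq.symm (key q p hlt)
    · exact heq
    · exact absurd hpq (key p q hgt)
  have hli : LinearIndependent K g := by
    rw [Fintype.linearIndependent_iff]
    intro c hc p
    induction p using WellFoundedLT.induction with
    | ind p ih =>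
      have h1 : f.repr (∑ q, c q • g q) (s p) = 0 := by
        rw [hc, map_zero, Finsupp.zero_apply]
      rw [map_sum, Finsupp.finsetSum_apply, Finset.sum_eq_single p] at h1
      · rw [map_smul, Finsupp.smul_apply, H2 p p.2, smul_eq_mul, mul_one] at h1
        exact h1
      · intro q _ hqp
        rw [map_smul, Finsupp.smul_apply]
        rcases lt_or_gt_of_ne hqp with hlt | hgt
        · rw [ih q hlt, zero_smul]
        · rw [H3 q p q.2 hgt, smul_zero]
      · intro hp
        exact absurd (Finset.mem_univ p) hp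
  have hsp := hli.span_eq_top_of_card_eq_finrank' (Fintype.card_fin _)
  refine ⟨Equiv.ofBijective s ((Finite.injective_iff_bijective).1 hs),
    Module.Basis.mk hli hsp.ge, ?_, ?_, ?_, ?_⟩
  · intro p q hpq
    rw [Module.Basis.mk_apply]
    exact H1 p q p.2 hpq
  · intro p
    rw [Module.Basis.mk_apply]
    exact H2 p p.2
  · intro p q hqp
    rw [Module.Basis.mk_apply]
    exact H3 p q p.2 hqp
  · intro p i hi
    rw [Module.Basis.mk_apply] at hi ⊢
    exact H4 p i p.2 hi

end

end H50NA
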