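import Pool.Agent.H50.NA.G3
import Pool.Agent.H50.NA.G5

set_option autoImplicit false

/-!
# Row G6a (adapted basis).  COMPLETE PROOF.  n = Module.finrank K V.

uni_det.  If f.repr (g p) (s p) = 1 and f.repr (g p) (s q) = 0 for q < p then v (det (f.toMatrix g)) = 0: the matrix U q p = f.repr (g p) (s q) = (f.toMatrix g).submatrix s id is zero for q < p (row index smaller than
   column index), i.e. lower triangular, with diagonal 1: det U = 1 (Matrix.det_of_lowerTriangular: needs BlockTriangular toDual; M i j = 0 for i < j).  det ((f.toMatrix g).submatrix s id) = sign s * det (f.toMatrix g)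
   (Matrix.det_permute).  So det (f.toMatrix g) = ±1 and v = 0 (v_one, v_neg_one).

flagb.  common (hm, hg): basis h0 splitting m0 and ga.  mu i = ga (h0 i) - m0 (h0 i).  Let sg = Tuple.sort (fun i => - mu i): (fun i => - mu (sg i)) is monotone, so p -> mu (sg p) is antitone.
   h := h0.reindex sg.symm, h p = h0 (sg p); Spl F h m0, Spl F h ga (reindexing: Module.Basis.reindex_apply, Module.Basis.repr_reindex_apply).  Put mu' p = ga (h p) - m0 (h p), antitone.
   ech F f h (fun i => m0 (f i)): s, g with (1)-(4).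
   (i) m0 (g p) = m0 (f (s p)): Spl F f m0 at g p ≠ 0: m0 (g p) <= v 1 + m0 (f (s p)) and m0 (g p) = v (f.repr (g p) i) + m0 (f i) for some i with f.repr (g p) i ≠ 0, >= m0 (f (s p)) by (4).
   (ii) g splits m0: had_eq (e := f): v det (f.toMatrix g) = 0 (uni_det) = sum m0 (g p) - sum m0 (f i) (by (i) and Equiv.sum_comp s).
   (iii) m0 (g p) + mu' p <= ga (g p): Spl F h ga at g p: some q with h.repr (g p) q ≠ 0 and ga (g p) = v (h.repr (g p) q) + ga (h q); by (1) q <= p; Spl F h m0: m0 (g p) <= v (h.repr (g p) q) + m0 (h q).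
        So ga (g p) >= m0 (g p) + mu' q >= m0 (g p) + mu' p.
   (iv) g splits ga: had_eq (e := h, for m0, g splits m0 by (ii)): v det (h.toMatrix g) = sum m0 (g) - sum m0 (h).  had_ge (e := h, ga): sum ga (g) - sum ga (h) <= v det (h.toMatrix g).
        (iii) summed: sum ga (g) >= sum m0 (g) + sum ga (h) - sum m0 (h).  So equality in had_ge, and had_eq (e := h, for ga) gives Spl F g ga.
-/

namespace H50NA

open MeasureTheory Set Filter Topology

noncomputable section

variable {K : Type} [Field K] (F : VF K) {V : Type} [AddCommGroup V] [Module K V] [Module.Finite K V]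

omit [Module.Finite K V] in
private lemma G6a_reindex {b : Bs K V} {al : V → ℝ} (h : Spl F b al)
    (s : Equiv.Perm (Fin (Module.finrank K V))) : Spl F (b.reindex s) al := by
  intro x hx
  obtain ⟨h1, i, h2, h3⟩ := h x hx
  refine ⟨fun j hj => ?_, s i, ?_, ?_⟩
  · rw [Module.Basis.repr_reindex_apply] at hj ⊢
    rw [Module.Basis.reindex_apply]
    exact h1 _ hj
  · rw [Module.Basis.repr_reindex_apply, Equiv.symm_apply_apply]
    exact h2
  · rw [Module.Basis.repr_reindex_apply, Module.Basis.reindex_apply, Equiv.symm_apply_apply]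
    exact h3

theorem uni_det {f g : Bs K V} {s : Equiv.Perm (Fin (Module.finrank K V))}
    (h1 : ∀ p, f.repr (g p) (s p) = 1) (h0 : ∀ p q, q < p → f.repr (g p) (s q) = 0) :
    F.v (f.toMatrix g).det = 0 := by
  have hU : ((f.toMatrix g).submatrix s id).det = 1 := by
    rw [Matrix.det_of_isLowerTriangular]
    · refine Finset.prod_eq_one fun p _ => ?_
      rw [Matrix.submatrix_apply, Module.Basis.toMatrix_apply]
      exact h1 p
    · intro i j hij
      rw [Matrix.submatrix_apply, Module.Basis.toMatrix_apply]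
      exact h0 j i (OrderDual.toDual_lt_toDual.1 hij)
  rw [Matrix.det_permute] at hU
  rcases Int.units_eq_one_or (Equiv.Perm.sign s) with hs | hs
  · rw [hs] at hU
    have h2 : (f.toMatrix g).det = 1 := by simpa using hU
    rw [h2, v_one]
  · rw [hs] at hU
    have h3 : -(f.toMatrix g).det = 1 := by simpa using hU
    have h2 : (f.toMatrix g).det = -1 := by rw [← h3, neg_neg]
    rw [h2, v_neg_one]

theorem flagb {m0 ga : V → ℝ} (hm : SN F m0) (hg : SN F ga) {f : Bs K V} (hf : Spl F f m0) :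
    ∃ (s : Equiv.Perm (Fin (Module.finrank K V))) (g : Bs K V), Spl F g ga ∧ Spl F g m0 ∧
      (∀ p, m0 (g p) = m0 (f (s p))) ∧ (∀ p, f.repr (g p) (s p) = 1) ∧
      ∀ p q, q < p → f.repr (g p) (s q) = 0 := by
  obtain ⟨h0, a1, a2⟩ := common F hm hg
  obtain ⟨mu, hmu⟩ : ∃ mu : Fin (Module.finrank K V) → ℝ,
    mu = fun i => -(ga (h0 i) - m0 (h0 i)) := ⟨_, rfl⟩
  obtain ⟨sg, hsg⟩ : ∃ sg : Equiv.Perm (Fin (Module.finrank K V)), sg = Tuple.sort mu := ⟨_, rfl⟩
  have mono : Monotone (mu ∘ sg) := by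
    rw [hsg]
    exact Tuple.monotone_sort mu
  obtain ⟨h, hh⟩ : ∃ h : Bs K V, h = h0.reindex sg.symm := ⟨_, rfl⟩
  have hp : ∀ p, h p = h0 (sg p) := fun p => by
    rw [hh, Module.Basis.reindex_apply, Equiv.symm_symm]
  have b1 : Spl F h m0 := by
    rw [hh]
    exact G6a_reindex F a1 _
  have b2 : Spl F h ga := by
    rw [hh]
    exact G6a_reindex F a2 _
  have anti : ∀ q p, q ≤ p → ga (h p) - m0 (h p) ≤ ga (h q) - m0 (h q) := by
    intro q p hqp
    have h1 := mono hqp
    rw [Function.comp_apply, Function.comp_apply, hmu] at h1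
    simp only at h1
    rw [hp, hp]
    linarith
  obtain ⟨s, g, c1, c2, c3, c4⟩ := ech F f h (fun i => m0 (f i))
  have gne : ∀ p, g p ≠ 0 := fun p => g.ne_zero p
  have i1 : ∀ p, m0 (g p) = m0 (f (s p)) := by
    intro p
    obtain ⟨d1, i, d2, d3⟩ := hf (g p) (gne p)
    refine le_antisymm ?_ ?_
    · have h1 := d1 (s p) (by rw [c2]; exact one_ne_zero)
      rw [c2, v_one, zero_add] at h1
      exact h1
    · rw [d3]
      exact c4 p i d2
  have i2 : Spl F g m0 := by
    refine (had_eq F hm.1 hf g).1 ?_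
    rw [uni_det F c2 c3]
    have h1 : ∑ j, m0 (g j) = ∑ i, m0 (f i) := by
      rw [Finset.sum_congr rfl fun p _ => i1 p]
      exact Equiv.sum_comp s (fun i => m0 (f i))
    rw [h1, sub_self]
  have i3 : ∀ p, m0 (g p) + (ga (h p) - m0 (h p)) ≤ ga (g p) := by
    intro p
    obtain ⟨-, q, e2, e3⟩ := b2 (g p) (gne p)
    have hq : q ≤ p := by
      by_contra hlt
      exact e2 (c1 p q (not_le.1 hlt))
    have h1 := (b1 (g p) (gne p)).1 q e2
    have h2 := anti q p hq
    linarith
  have i4 : Spl F g ga := by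
    refine (had_eq F hg.1 b2 g).1 ?_
    have h1 := (had_eq F hm.1 b1 g).2 i2
    have h2 := had_ge F b2 g (det_ne h g)
    have h3 : ∑ p, (m0 (g p) + (ga (h p) - m0 (h p))) ≤ ∑ p, ga (g p) :=
      Finset.sum_le_sum fun p _ => i3 p
    rw [Finset.sum_add_distrib, Finset.sum_sub_distrib] at h3
    refine le_antisymm ?_ h2
    rw [h1]
    linarith
  exact ⟨s, g, i4, i2, i1, c2, c3⟩

end

end H50NA
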