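import Pool.Agent.H50.NA.G3

set_option autoImplicit false

/-!
# Row G6b (majorisation for subsets).  COMPLETE PROOF.

I : Finset (Fin n), index type ↥I.  N q j := f.repr (e j) (s q), M j p := e.repr (g p) j, U q p := f.repr (g p) (s q) (q, p ∈ I, j : Fin n).
 (a) U q p = sum_j N q j * M j p: g p = sum_j M j p • e j (Module.Basis.sum_repr), apply the linear map f.repr and evaluate at s q.
 (b) det (U restricted to I x I) = 1: U q p = 0 for q < p, diagonal 1: Matrix.det_of_isLowerTriangular (order on ↥I induced by Fin n).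
 (c) Expansion: det U = sum_{k : ↥I → Fin n} (∏_{p} M (k p) p) * det (fun q p => N q (k p)).  Transpose: det U = det Uᵀ = Matrix.detRowAlternating (fun p q => sum_j M j p * N q j)
     = detRow (fun p => sum_j (M j p • fun q => N q j)); MultilinearMap.map_sum, then MultilinearMap.map_smul_univ; transpose back.
 (d) v_sum (the sum is 1 ≠ 0): some k with T = (∏ M (k p) p) * det (N q (k p)) ≠ 0 and v T <= v 1 = 0.  So M (k p) p ≠ 0 for all p ∈ I and det (N q (k p)) ≠ 0; k is injective (two equal columns would give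
     determinant 0, Matrix.det_zero_of_column_eq).  v T = sum_p v (M (k p) p) + v (det ..) (F.mul, v_prod).
 (e) v (M (k p) p) >= ga (g p) - ga (e (k p)) since e splits ga and e.repr (g p) (k p) ≠ 0.
     v (det (N q (k p))) >= sum_{p ∈ I} al (e (k p)) - sum_{q ∈ I} al (f (s q)) by v_det with b p = al (e (k p)), a q = al (f (s q)): if N q (k p) = f.repr (e (k p)) (s q) ≠ 0 then al (e (k p)) <= v (..) + al (f (s q)).
 (f) add: sum_I (ga (g p) - ga (e (k p))) + sum_I al (e (k p)) - sum_I al (f (s p)) <= 0.  Extend k to Fin n by any value outside I (fun p => if h : p ∈ I then k ⟨p, h⟩ else p); sums over ↥I: Finset.sum_coe_sort / sum_attach.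

maj_tot: had_eq for (e, g, ga): v det (e.toMatrix g) = sum ga (g) - sum ga (e); for (f, e, al): v det (f.toMatrix e) = sum al (e) - sum al (f); f.toMatrix e * e.toMatrix g = f.toMatrix g
 (Module.Basis.toMatrix_mul_toMatrix), whose determinant is ±1: as in row G6a (uni_det; reprove or pass: it is the hypothesis hdet here).  F.mul: 0 = sum ga (g) - sum ga (e) + sum al (e) - sum al (f), and
 sum al (f (s p)) = sum al (f p) (Equiv.sum_comp).
-/

namespace H50NA

open MeasureTheory Set Filter Topology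

noncomputable section

variable {K : Type} [Field K] (F : VF K) {V : Type} [AddCommGroup V] [Module K V] [Module.Finite K V]

theorem G6b_det {R m n : Type} [CommRing R] [Fintype m] [DecidableEq m] [Fintype n] [DecidableEq n]
    (N : Matrix m n R) (M : Matrix n m R) :
    (N * M).det = ∑ k : m → n, (∏ p, M (k p) p) * (Matrix.of fun q p => N q (k p)).det := by
  simp only [Matrix.det_apply', Matrix.mul_apply, Finset.mul_sum, Matrix.of_apply]
  rw [Finset.sum_comm]
  refine Finset.sum_congr rfl fun σ _ => ?_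
  rw [Finset.prod_univ_sum, Fintype.piFinset_univ, Finset.mul_sum]
  refine Finset.sum_congr rfl fun k _ => ?_
  rw [Finset.prod_mul_distrib]
  ring

theorem maj_sub {ga al : V → ℝ} {e f g : Bs K V} {s : Equiv.Perm (Fin (Module.finrank K V))}
    (h1 : Spl F e ga) (h3 : Spl F f al)
    (hu : ∀ p, f.repr (g p) (s p) = 1) (hz : ∀ p q, q < p → f.repr (g p) (s q) = 0)
    (I : Finset (Fin (Module.finrank K V))) :
    ∃ k : Fin (Module.finrank K V) → Fin (Module.finrank K V), Set.InjOn k I ∧
      ∑ p ∈ I, (ga (g p) - al (f (s p))) ≤ ∑ p ∈ I, (ga (e (k p)) - al (e (k p))) := by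
  classical
  obtain ⟨N, hN⟩ : ∃ N : Matrix ↥I (Fin (Module.finrank K V)) K,
    N = Matrix.of fun (q : ↥I) j => f.repr (e j) (s q) := ⟨_, rfl⟩
  obtain ⟨M, hM⟩ : ∃ M : Matrix (Fin (Module.finrank K V)) ↥I K,
    M = Matrix.of fun j (p : ↥I) => e.repr (g p) j := ⟨_, rfl⟩
  have hU : ∀ q p : ↥I, (N * M) q p = f.repr (g p) (s q) := by
    intro q p
    have e1 := congrArg (fun x => f.repr x (s q)) (e.sum_repr (g p))
    simp only [map_sum, map_smul, Finsupp.coe_finsetSum, Finset.sum_apply, Finsupp.smul_apply,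
      smul_eq_mul] at e1
    rw [← e1, Matrix.mul_apply, hN, hM]
    refine Finset.sum_congr rfl fun j _ => ?_
    rw [Matrix.of_apply, Matrix.of_apply, mul_comm]
  have hdet : (N * M).det = 1 := by
    rw [Matrix.det_of_isLowerTriangular]
    · apply Finset.prod_eq_one
      intro p _
      rw [hU, hu]
    · intro q p hqp
      rw [hU]
      exact hz p q (OrderDual.toDual_lt_toDual.1 hqp)
  rw [G6b_det] at hdet
  obtain ⟨k, -, hk0, hk1⟩ := v_sum F Finset.univ
    (fun k : ↥I → Fin (Module.finrank K V) => (∏ p, M (k p) p) * (Matrix.of fun q p => N q (k p)).det)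
    (by rw [hdet]; exact one_ne_zero)
  rw [hdet, v_one F] at hk1
  have hMk : ∏ p, M (k p) p ≠ 0 := left_ne_zero_of_mul hk0
  have hNk : (Matrix.of fun q p => N q (k p)).det ≠ 0 := right_ne_zero_of_mul hk0
  rw [Finset.prod_ne_zero_iff] at hMk
  have hinj : Function.Injective k := by
    intro p p' hpp
    by_contra hne
    apply hNk
    apply Matrix.det_zero_of_column_eq hne
    intro q
    rw [Matrix.of_apply, Matrix.of_apply, hpp]
  rw [F.mul _ _ (left_ne_zero_of_mul hk0) hNk, v_prod F Finset.univ _ hMk] at hk1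
  have hge1 : ∀ p : ↥I, ga (g p) - ga (e (k p)) ≤ F.v (M (k p) p) := by
    intro p
    have h5 := hMk p (Finset.mem_univ p)
    rw [hM, Matrix.of_apply] at h5 ⊢
    have h6 := (h1 (g p) (g.ne_zero p)).1 (k p) h5
    linarith
  have hge2 : ∑ p : ↥I, al (e (k p)) - ∑ q : ↥I, al (f (s q)) ≤
      F.v (Matrix.of fun q p => N q (k p)).det := by
    apply v_det F _ (fun q : ↥I => al (f (s q))) (fun p : ↥I => al (e (k p))) _ hNk
    intro q p hqp
    rw [Matrix.of_apply, hN, Matrix.of_apply] at hqp ⊢
    have h6 := (h3 (e (k p)) (e.ne_zero _)).1 (s q) hqp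
    linarith
  have hsum := Finset.sum_le_sum fun p (_ : p ∈ (Finset.univ : Finset ↥I)) => hge1 p
  rw [Finset.sum_sub_distrib] at hsum
  refine ⟨fun p => if h : p ∈ I then k ⟨p, h⟩ else p, ?_, ?_⟩
  · intro p hp p' hp' hpp
    have hp1 : p ∈ I := hp
    have hp1' : p' ∈ I := hp'
    simp only [dif_pos hp1, dif_pos hp1'] at hpp
    exact congrArg Subtype.val (hinj hpp)
  · have e1 : ∑ p ∈ I, (ga (g p) - al (f (s p))) = ∑ p : ↥I, (ga (g p) - al (f (s p))) :=
      (Finset.sum_coe_sort I fun p => ga (g p) - al (f (s p))).symm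
    have e2 : ∑ p ∈ I, (ga (e (if h : p ∈ I then k ⟨p, h⟩ else p)) -
        al (e (if h : p ∈ I then k ⟨p, h⟩ else p))) = ∑ p : ↥I, (ga (e (k p)) - al (e (k p))) := by
      rw [← Finset.sum_coe_sort I fun p => ga (e (if h : p ∈ I then k ⟨p, h⟩ else p)) -
        al (e (if h : p ∈ I then k ⟨p, h⟩ else p))]
      refine Finset.sum_congr rfl fun p _ => ?_
      rw [dif_pos p.2]
    simp only
    rw [e1, e2, Finset.sum_sub_distrib, Finset.sum_sub_distrib]
    linarith

theorem maj_tot {ga al : V → ℝ} (hg0 : ga 0 = 0) (ha0 : al 0 = 0) {e f g : Bs K V}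
    {s : Equiv.Perm (Fin (Module.finrank K V))} (h1 : Spl F e ga) (h2 : Spl F e al) (h3 : Spl F f al)
    (h4 : Spl F g ga) (hdet : F.v (f.toMatrix g).det = 0) :
    ∑ p, (ga (g p) - al (f (s p))) = ∑ p, (ga (e p) - al (e p)) := by
  have e1 := (had_eq F hg0 h1 g).2 h4
  have e2 := (had_eq F ha0 h3 e).2 h2
  have e3 : (f.toMatrix g).det = (f.toMatrix e).det * (e.toMatrix g).det := by
    rw [← Matrix.det_mul, Module.Basis.toMatrix_mul_toMatrix]
  rw [e3, F.mul _ _ (det_ne f e) (det_ne e g), e1, e2] at hdet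
  rw [Finset.sum_sub_distrib, Finset.sum_sub_distrib, Equiv.sum_comp s fun p => al (f p)]
  linarith

end

end H50NA
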