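import Mathlib

set_option autoImplicit false

/-!
# Row G7 (Karamata's inequality for squares, no sorting).  COMPLETE PROOF.

(a) For every real t: sum_i max (x i - t) 0 <= sum_i max (lam i - t) 0.  Let I = {i | t < x i}; sum_i max (x i - t) 0 = sum_{i in I} (x i - t) = sum_I x - t card I <= sum_I lam (k i) - t card I
    = sum_{i in I} (lam (k i) - t) <= sum_{i in I} max (lam (k i) - t) 0 = sum_{j in k(I)} max (lam j - t) 0 (k injective on I: Finset.sum_image) <= sum_j max (lam j - t) 0.
(b) Let M > 0 with |x i| <= M, |lam i| <= M.  For |y| <= M: ∫ t in (-M)..M, max (y - t) 0 = (y + M)^2 / 2 (split at y: on [-M, y] the integrand is y - t, on [y, M] it is 0; FTC or integral_comp).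
(c) Integrate (a) over [-M, M] (all functions continuous; intervalIntegral.integral_mono_on, integral_finsetSum): sum (x i + M)^2 <= sum (lam i + M)^2.  Expand: sum x^2 + 2 M sum x + n M^2 <= same for lam;
    with sum x = sum lam: done.
-/

namespace H50NA

theorem kar {n : ℕ} (x lam : Fin n → ℝ) (hs : ∑ i, x i = ∑ i, lam i)
    (h : ∀ I : Finset (Fin n), ∃ k : Fin n → Fin n, Set.InjOn k I ∧
      ∑ p ∈ I, x p ≤ ∑ p ∈ I, lam (k p)) : ∑ i, x i ^ 2 ≤ ∑ i, lam i ^ 2 := by
  classical
  have hA : ∀ t : ℝ, ∑ i, max (x i - t) 0 ≤ ∑ i, max (lam i - t) 0 := by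
    intro t
    obtain ⟨k, hk, hle⟩ := h (Finset.univ.filter (fun i => t < x i))
    have h1 : ∑ i, max (x i - t) 0 = ∑ i ∈ Finset.univ.filter (fun i => t < x i), (x i - t) := by
      rw [Finset.sum_filter]
      refine Finset.sum_congr rfl fun i _ => ?_
      by_cases hi : t < x i
      · rw [if_pos hi, max_eq_left (by linarith)]
      · rw [if_neg hi, max_eq_right (by linarith)]
    have h2 : ∑ i ∈ Finset.univ.filter (fun i => t < x i), (x i - t)
        ≤ ∑ i ∈ Finset.univ.filter (fun i => t < x i), (lam (k i) - t) := by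
      rw [Finset.sum_sub_distrib, Finset.sum_sub_distrib]
      linarith
    have h3 : ∑ i ∈ Finset.univ.filter (fun i => t < x i), (lam (k i) - t)
        ≤ ∑ i ∈ Finset.univ.filter (fun i => t < x i), max (lam (k i) - t) 0 :=
      Finset.sum_le_sum fun i _ => le_max_left _ _
    have h4 : ∑ i ∈ Finset.univ.filter (fun i => t < x i), max (lam (k i) - t) 0
        = ∑ j ∈ (Finset.univ.filter (fun i => t < x i)).image k, max (lam j - t) 0 := by
      rw [Finset.sum_image]
      intro a ha b hb hab
      exact hk ha hb hab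
    have h5 : ∑ j ∈ (Finset.univ.filter (fun i => t < x i)).image k, max (lam j - t) 0
        ≤ ∑ j, max (lam j - t) 0 :=
      Finset.sum_le_sum_of_subset_of_nonneg (Finset.subset_univ _)
        fun i _ _ => le_max_right _ _
    linarith
  have hB : ∀ M y : ℝ, |y| ≤ M → ∫ t in (-M)..M, max (y - t) 0 = (y + M) ^ 2 / 2 := by
    intro M y hy
    have hy1 : -M ≤ y := by linarith [neg_abs_le y]
    have hy2 : y ≤ M := le_trans (le_abs_self y) hy
    have hc : Continuous fun t : ℝ => max (y - t) 0 := by fun_prop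
    rw [← intervalIntegral.integral_add_adjacent_intervals (hc.intervalIntegrable (-M) y)
      (hc.intervalIntegrable y M)]
    have e1 : ∫ t in (-M)..y, max (y - t) 0 = ∫ t in (-M)..y, (y - t) := by
      refine intervalIntegral.integral_congr ?_
      intro t ht
      rw [Set.uIcc_of_le hy1] at ht
      simp only
      exact max_eq_left (by linarith [ht.2])
    have e2 : ∫ t in y..M, max (y - t) 0 = ∫ t in y..M, (0 : ℝ) := by
      refine intervalIntegral.integral_congr ?_
      intro t ht
      rw [Set.uIcc_of_le hy2] at ht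
      simp only
      exact max_eq_right (by linarith [ht.1])
    rw [e1, e2, intervalIntegral.integral_sub (by simp) (by simp), integral_id]
    simp
    ring
  obtain ⟨M, hMx, hMl⟩ : ∃ M : ℝ, (∀ i, |x i| ≤ M) ∧ (∀ i, |lam i| ≤ M) := by
    refine ⟨∑ i, |x i| + ∑ i, |lam i|, fun i => ?_, fun i => ?_⟩
    · have h1 : |x i| ≤ ∑ i, |x i| :=
        Finset.single_le_sum (f := fun i => |x i|) (fun j _ => abs_nonneg _) (Finset.mem_univ i)
      have h2 : 0 ≤ ∑ i, |lam i| := Finset.sum_nonneg fun j _ => abs_nonneg _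
      linarith
    · have h1 : |lam i| ≤ ∑ i, |lam i| :=
        Finset.single_le_sum (f := fun i => |lam i|) (fun j _ => abs_nonneg _) (Finset.mem_univ i)
      have h2 : 0 ≤ ∑ i, |x i| := Finset.sum_nonneg fun j _ => abs_nonneg _
      linarith
  rcases Nat.eq_zero_or_pos n with hn | hn
  · subst hn
    simp
  have hM0 : 0 ≤ M := le_trans (abs_nonneg _) (hMx ⟨0, hn⟩)
  have hI : ∫ t in (-M)..M, ∑ i, max (x i - t) 0 ≤ ∫ t in (-M)..M, ∑ i, max (lam i - t) 0 := by
    refine intervalIntegral.integral_mono_on (by linarith) ?_ ?_ fun t _ => hA t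
    · exact Continuous.intervalIntegrable (by fun_prop) _ _
    · exact Continuous.intervalIntegrable (by fun_prop) _ _
  rw [intervalIntegral.integral_finsetSum
      (fun i _ => Continuous.intervalIntegrable (by fun_prop) _ _),
    intervalIntegral.integral_finsetSum
      (fun i _ => Continuous.intervalIntegrable (by fun_prop) _ _)] at hI
  have hX : ∑ i, ∫ t in (-M)..M, max (x i - t) 0 = ∑ i, (x i + M) ^ 2 / 2 :=
    Finset.sum_congr rfl fun i _ => hB M (x i) (hMx i)
  have hL : ∑ i, ∫ t in (-M)..M, max (lam i - t) 0 = ∑ i, (lam i + M) ^ 2 / 2 :=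
    Finset.sum_congr rfl fun i _ => hB M (lam i) (hMl i)
  rw [hX, hL] at hI
  have ex : ∀ z : Fin n → ℝ, ∑ i, (z i + M) ^ 2 / 2
      = (∑ i, z i ^ 2) / 2 + M * ∑ i, z i + (n : ℝ) * (M ^ 2 / 2) := by
    intro z
    have : ∀ i, (z i + M) ^ 2 / 2 = z i ^ 2 / 2 + M * z i + M ^ 2 / 2 := by
      intro i
      ring
    simp_rw [this]
    rw [Finset.sum_add_distrib, Finset.sum_add_distrib, ← Finset.sum_div, ← Finset.mul_sum]
    simp
  rw [ex, ex, hs] at hI
  linarith

end H50NA
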