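import Pool.Agent.H50.NA.G6a
import Pool.Agent.H50.NA.G6b
import Pool.Agent.H50.NA.G7

/-!
# Row G8 (majorisation theorem, triangle inequality, CN inequality).  COMPLETE PROOFS.  n = Module.finrank K V.

maj.  flagb F hm hg hf: s, g.  c i := ga (g (s.symm i)).
  (1) ds_eq (basis g splits m0 and ga): ds m0 ga ^2 = sum_p (ga (g p) - m0 (g p))^2 = sum_p (ga (g p) - m0 (f (s p)))^2 = sum_i (c i - m0 (f i))^2 (Equiv.sum_comp s of the function i -> (ga (g (s.symm i)) - m0 (f i))^2).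
  (2) al with Spl F f al: common F al ga: basis e.  x p := ga (g p) - al (f (s p)), lam j := ga (e j) - al (e j).  maj_sub gives the hypothesis of kar, maj_tot (hdet by uni_det) the equality of the sums.
      kar: sum x^2 <= sum lam^2 = ds al ga ^2 (ds_eq, basis e), and sum_p x p^2 = sum_i (c i - al (f i))^2 as in (1).

cn8 (= ds_cn).  gmf_ex: basis f splitting al, be, q = gmf al be t, with q (f i) = (1-t) al (f i) + t be (f i).  maj for m0 = q (gm_sn, SN), target ga: c.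
   ds q ga ^2 = sum (c - (1-t) al - t be)^2 = (1-t) sum (c - al)^2 + t sum (c - be)^2 - t (1-t) sum (be - al)^2  (termwise identity, ring)
   <= (1-t) ds al ga ^2 + t ds be ga ^2 - t(1-t) ds al be ^2 (maj (2) for al and be; ds_eq for the last term).
tri8 (= ds_tri).  f := common basis of al, ga; maj with m0 = al, target be: c with sum (c - al f)^2 = ds al be ^2 and sum (c - ga f)^2 <= ds ga be ^2 = ds be ga ^2 (ds_comm).
   ds al ga = sqrt (sum (ga f - al f)^2) (ds_eq, ds >= 0) <= sqrt (sum (c - al f)^2) + sqrt (sum (ga f - c)^2): triangle inequality in EuclideanSpace ℝ (Fin n).  ds >= 0: by definition (Real.sqrt or 0).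
-/

set_option autoImplicit false
set_option linter.unusedSectionVars false

namespace H50NA

open MeasureTheory Set Filter Topology

noncomputable section

theorem G8_mink {n : ℕ} (a b c : Fin n → ℝ) :
    Real.sqrt (∑ i, (c i - a i) ^ 2) ≤ Real.sqrt (∑ i, (b i - a i) ^ 2) + Real.sqrt (∑ i, (b i - c i) ^ 2) := by
  have e : ∀ x y : Fin n → ℝ, dist (WithLp.toLp 2 x : EuclideanSpace ℝ (Fin n)) (WithLp.toLp 2 y) =
      Real.sqrt (∑ i, (y i - x i) ^ 2) := by
    intro x y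
    rw [EuclideanSpace.dist_eq]
    congr 1
    refine Finset.sum_congr rfl fun i _ => ?_
    rw [Real.dist_eq, sq_abs]
    show (x i - y i) ^ 2 = _
    ring
  have h := dist_triangle (WithLp.toLp 2 a : EuclideanSpace ℝ (Fin n)) (WithLp.toLp 2 b) (WithLp.toLp 2 c)
  rw [dist_comm (WithLp.toLp 2 b : EuclideanSpace ℝ (Fin n)) (WithLp.toLp 2 c), e, e, e] at h
  exact h

variable {K : Type} [Field K] (F : VF K) {V : Type} [AddCommGroup V] [Module K V] [Module.Finite K V]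

theorem G8_nn (al be : V → ℝ) : 0 ≤ ds F al be := by
  unfold ds
  split_ifs
  · exact Real.sqrt_nonneg _
  · exact le_rfl

theorem maj {m0 ga : V → ℝ} (hm : SN F m0) (hg : SN F ga) {f : Bs K V} (hf : Spl F f m0) :
    ∃ c : Fin (Module.finrank K V) → ℝ, ∑ i, (c i - m0 (f i)) ^ 2 = ds F m0 ga ^ 2 ∧
      ∀ al : V → ℝ, SN F al → Spl F f al → ∑ i, (c i - al (f i)) ^ 2 ≤ ds F al ga ^ 2 := by
  obtain ⟨s, g, hga, hgm, h1, h2, h3⟩ := flagb F hm hg hf
  have e : ∀ al : V → ℝ, ∑ i, (ga (g (s.symm i)) - al (f i)) ^ 2 = ∑ p, (ga (g p) - al (f (s p))) ^ 2 := by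
    intro al
    rw [← Equiv.sum_comp s]
    refine Finset.sum_congr rfl fun p _ => ?_
    rw [Equiv.symm_apply_apply]
  refine ⟨fun i => ga (g (s.symm i)), ?_, ?_⟩
  · show ∑ i, (ga (g (s.symm i)) - m0 (f i)) ^ 2 = _
    rw [e, ds_eq F hgm hga]
    exact Finset.sum_congr rfl fun p _ => by rw [h1]
  · intro al ha hal
    show ∑ i, (ga (g (s.symm i)) - al (f i)) ^ 2 ≤ _
    rw [e]
    obtain ⟨b, hb1, hb2⟩ := common F ha hg
    rw [ds_eq F hb1 hb2]
    refine kar _ (fun j => ga (b j) - al (b j)) ?_ ?_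
    · exact maj_tot F hg.1 ha.1 hb2 hb1 hal hga (uni_det F h2 h3)
    · intro I
      exact maj_sub F hb2 hal h2 h3 I

theorem tri8 {al be ga : V → ℝ} (ha : SN F al) (hb : SN F be) (hg : SN F ga) :
    ds F al ga ≤ ds F al be + ds F be ga := by
  obtain ⟨f, hfa, hfg⟩ := common F ha hg
  obtain ⟨c, hc1, hc2⟩ := maj F ha hb hfa
  have e1 := hc2 ga hg hfg
  rw [ds_comm F hg hb] at e1
  have e2 := ds_eq F hfa hfg
  have h := G8_mink (fun i => al (f i)) c (fun i => ga (f i))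
  rw [← e2, hc1, Real.sqrt_sq (G8_nn F _ _), Real.sqrt_sq (G8_nn F _ _)] at h
  have h2 : Real.sqrt (∑ i, (c i - ga (f i)) ^ 2) ≤ ds F be ga := by
    rw [← Real.sqrt_sq (G8_nn F be ga)]
    exact Real.sqrt_le_sqrt e1
  linarith

theorem cn8 {al be ga : V → ℝ} (ha : SN F al) (hb : SN F be) (hg : SN F ga) {t : ℝ} (h0 : 0 ≤ t)
    (h1 : t ≤ 1) : ds F (gmf F al be t) ga ^ 2 ≤
      (1 - t) * ds F al ga ^ 2 + t * ds F be ga ^ 2 - t * (1 - t) * ds F al be ^ 2 := by
  obtain ⟨f, hfa, hfb, hfq, hv⟩ := gmf_ex F ha hb t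
  obtain ⟨c, hc1, hc2⟩ := maj F (gm_sn F ha hb t) hg hfq
  rw [← hc1]
  have e1 := hc2 al ha hfa
  have e2 := hc2 be hb hfb
  rw [ds_eq F hfa hfb]
  have e3 : ∑ i, (c i - gmf F al be t (f i)) ^ 2 = (1 - t) * ∑ i, (c i - al (f i)) ^ 2 +
      t * ∑ i, (c i - be (f i)) ^ 2 - t * (1 - t) * ∑ i, (be (f i) - al (f i)) ^ 2 := by
    rw [Finset.mul_sum, Finset.mul_sum, Finset.mul_sum, ← Finset.sum_add_distrib, ← Finset.sum_sub_distrib]
    refine Finset.sum_congr rfl fun i _ => ?_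
    rw [hv]
    ring
  rw [e3]
  have h2 := mul_le_mul_of_nonneg_left e1 (sub_nonneg.2 h1)
  have h3 := mul_le_mul_of_nonneg_left e2 h0
  linarith

end

end H50NA
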