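import Pool.Agent.H50.NA.Met
import Pool.Agent.H31.NA.GQ
import Pool.Agent.H31.NA.GU
import Pool.Agent.H31.NA.GW
import Pool.Agent.H31.NA.GXb

set_option autoImplicit false

/-!
# Interface of block G: statements used by blocks B, L, S (proved in the rows H31/NA)
-/

namespace H50NA

open MeasureTheory Set Filter Topology

noncomputable section

variable {K : Type} [Field K] (F : VF K) {V : Type} [AddCommGroup V] [Module K V] [Module.Finite K V]

/-! ### elementary facts -/

theorem rd_add {al be ga : V → ℝ} (ha : SN F al) (hb : SN F be) (hg : SN F ga) :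
    rd F al ga = rd F al be + rd F be ga := by
  obtain ⟨b, h1, h2⟩ := common F ha hb
  obtain ⟨b', h3, h4⟩ := common F hb hg
  obtain ⟨b'', h5, h6⟩ := common F ha hg
  rw [rd_eq F h1 h2, rd_eq F h3 h4, rd_eq F h5 h6]
  have e1 := (had_eq F hb.1 h2 b').2 h3
  have e2 := (had_eq F ha.1 h1 b'').2 h5
  have e3 := (had_eq F hg.1 h4 b'').2 h6
  have e4 : F.v (b.toMatrix b'').det = F.v (b.toMatrix b').det + F.v (b'.toMatrix b'').det := by
    rw [← F.mul _ _ (det_ne b b') (det_ne b' b''), ← Matrix.det_mul,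
      Module.Basis.toMatrix_mul_toMatrix]
  rw [e1, e2, e3] at e4
  simp only [Finset.sum_sub_distrib]
  linarith

/-- restriction to a subspace -/
theorem rs_sn (E : Submodule K V) {al : V → ℝ} (ha : SN F al) : SN F (rs E al) := H31NA.rs_sn F E ha

theorem trl_sn {al : V → ℝ} (ha : SN F al) (c : ℝ) : SN F (trl al c) := H31NA.trl_sn F ha c

/-- comparison of the distance with the sup norm -/
theorem abs_le_ds {al be : V → ℝ} (ha : SN F al) (hb : SN F be) (x : V) :
    |be x - al x| ≤ ds F al be := H31NA.abs_le_ds F ha hb x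

theorem ds_le_sup {al be : V → ℝ} (ha : SN F al) (hb : SN F be) {c : ℝ} (hc : 0 ≤ c)
    (h : ∀ x, |be x - al x| ≤ c) : ds F al be ≤ Real.sqrt (Module.finrank K V) * c := H31NA.ds_le_sup F ha hb hc h

theorem rd_le_sup {al be : V → ℝ} (ha : SN F al) (hb : SN F be) {c : ℝ}
    (h : ∀ x, x ≠ 0 → |be x - al x| ≤ c) : |rd F al be| ≤ Module.finrank K V * c := H31NA.rd_le_sup F ha hb h

/-- scalar translations -/
theorem ds_trl {al be : V → ℝ} (ha : SN F al) (hb : SN F be) (c c' : ℝ) :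
    ds F (trl al c) (trl be c') ^ 2 =
      ds F al be ^ 2 + 2 * (c' - c) * rd F al be + Module.finrank K V * (c' - c) ^ 2 := H31NA.ds_trl F ha hb c c'

theorem rd_trl {al be : V → ℝ} (ha : SN F al) (hb : SN F be) (c c' : ℝ) :
    rd F (trl al c) (trl be c') = rd F al be + Module.finrank K V * (c' - c) := H31NA.rd_trl F ha hb c c'

theorem gmf_trl {al be : V → ℝ} (ha : SN F al) (hb : SN F be) (c c' t : ℝ) :
    gmf F (trl al c) (trl be c') t = trl (gmf F al be t) ((1 - t) * c + t * c') := H31NA.gmf_trl F ha hb c c' t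

/-! ### decompositions -/

variable {N : ℕ} {E : Fin N → Submodule K V}

theorem osm_sn (hE : DirectSum.IsInternal E) {al : V → ℝ} (ha : SN F al) : SN F (osm E al) := H31NA.osm_sn F hE ha

theorem osm_spd (hE : DirectSum.IsInternal E) {al : V → ℝ} (ha : SN F al) :
    SpD E (osm E al) ∧ (∀ b, rs (E b) (osm E al) = rs (E b) al) ∧ ∀ x, osm E al x ≤ al x :=
  ⟨H31NA.osm_spd hE ha.1, H31NA.osm_rs hE ha.1, H31NA.osm_le F hE (sn_nrm F ha)⟩

theorem spd_iff (hE : DirectSum.IsInternal E) {al : V → ℝ} (ha : SN F al) :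
    SpD E al ↔ osm E al = al := H31NA.spd_iff hE ha.1

/-- the defect g(al) = rd (osm E al) al is nonnegative, bounds the distance, and vanishes iff al is split along E -/
theorem def_nonneg (hE : DirectSum.IsInternal E) {al : V → ℝ} (ha : SN F al) :
    0 ≤ rd F (osm E al) al ∧ ds F (osm E al) al ≤ rd F (osm E al) al ∧
      (rd F (osm E al) al = 0 ↔ SpD E al) := H31NA.def_nonneg F hE ha

theorem rd_osm (hE : DirectSum.IsInternal E) {al be : V → ℝ} (ha : SN F al) (hb : SN F be) :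
    rd F (osm E al) (osm E be) = ∑ b, rd F (rs (E b) al) (rs (E b) be) := H31NA.rd_osm F hE ha hb

theorem ds_osm (hE : DirectSum.IsInternal E) {al be : V → ℝ} (ha : SN F al) (hb : SN F be) :
    ds F (osm E al) (osm E be) ^ 2 = ∑ b, ds F (rs (E b) al) (rs (E b) be) ^ 2 := H31NA.ds_osm F hE ha hb

/-- geodesics between norms split along E -/
theorem gmf_spd (hE : DirectSum.IsInternal E) {al be : V → ℝ} (ha : SN F al) (hb : SN F be)
    (h1 : SpD E al) (h2 : SpD E be) (t : ℝ) (h0 : 0 ≤ t) (h1' : t ≤ 1) : SpD E (gmf F al be t) ∧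
      ∀ b, rs (E b) (gmf F al be t) = gmf F (rs (E b) al) (rs (E b) be) t := H31NA.gmf_spd F hE ha hb h1 h2 t h0 h1'

/-- if al is not split along E, two values on different components agree modulo w Z -/
theorem spec (hE : DirectSum.IsInternal E) {al : V → ℝ} (ha : SN F al) (h : ¬ SpD E al) :
    ∃ b b' : Fin N, b ≠ b' ∧ ∃ x ∈ E b, ∃ y ∈ E b', x ≠ 0 ∧ y ≠ 0 ∧ ∃ n : ℤ, al x - al y = n * F.w := H31NA.spec F hE ha h

/-- values of a split norm -/
theorem spl_val {b : Bs K V} {al : V → ℝ} (h : Spl F b al) {x : V} (hx : x ≠ 0) :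
    ∃ i, ∃ n : ℤ, al x = al (b i) + n * F.w := H31NA.spl_val F h hx

/-- the horofunction of a subspace (row Bus) -/
theorem bus (W : Submodule K V) {om : V → ℝ} (ho : SN F om) :
    ∃ q : ℝ → V → ℝ, (∀ R, SN F (q R)) ∧ (∀ R, ds F om (q R) ^ 2 = Module.finrank K W * R ^ 2) ∧
      ∀ al : V → ℝ, SN F al → Tendsto (fun R : ℝ =>
        (ds F al (q R) ^ 2 - Module.finrank K W * R ^ 2) / (2 * R)) atTop
        (𝓝 (rd F (rs W al) (rs W om))) := H31NA.bus F W ho

/-! ### local structure -/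

/-- r is a radius for q: a quarter of the distance of different values -/
def Rad (q : V → ℝ) (r : ℝ) : Prop :=
  0 < r ∧ ∀ x y : V, x ≠ 0 → y ≠ 0 → q x < q y → q x + 4 * r ≤ q y

theorem rad_ex {q : V → ℝ} (hq : SN F q) : ∃ r, Rad q r := H31NA.rad_ex F hq

/-- a basis splitting a norm near q splits q, and the difference is a function of the leading terms -/
theorem near_spl {q al : V → ℝ} {r : ℝ} (hr : Rad q r) (hq : SN F q) (ha : al 0 = 0) {b : Bs K V}
    (hb : Spl F b al) (hn : ∀ x, |al x - q x| < r) : Spl F b q := H31NA.near_spl F hr (sn_nrm F hq) hb fun x _ => hn x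

/-- y is the leading part class: functions q + s h -/
def Tan (q h : V → ℝ) : Prop :=
  h 0 = 0 ∧ ∃ s : ℝ, 0 < s ∧ SN F (fun x => q x + s * h x)

theorem tan_scale {q h : V → ℝ} {r s : ℝ} (hr : Rad q r) (hq : SN F q) (hs : 0 < s)
    (h0 : h 0 = 0) (h1 : SN F (fun x => q x + s * h x)) (hn : ∀ x, |s * h x| < r) (s' : ℝ)
    (h2 : 0 ≤ s') (h3 : s' ≤ s) : SN F (fun x => q x + s' * h x) := H31NA.tan_scale F hr hq hs h0 h1 hn s' h2 h3

/-- finiteness of the set of bases needed near q -/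
theorem fin_bases (hR : Rf F) {q : V → ℝ} {r : ℝ} (hr : Rad q r) (hq : SN F q) :
    ∃ B : Finset (Bs K V), ∀ al be : V → ℝ, SN F al → SN F be → (∀ x, |al x - q x| < r) →
      (∀ x, |be x - q x| < r) → ∃ b ∈ B, Spl F b q ∧ Spl F b al ∧ Spl F b be := by
  obtain ⟨B, hB⟩ := H31NA.fin_bases F hR hr hq
  exact ⟨B, fun al be ha hb h1 h2 => hB al be ha hb (fun x _ => h1 x) (fun x _ => h2 x)⟩

end

end H50NA
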