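import Pool.Agent.H50.NA.G0

set_option autoImplicit false

/-!
# Row Gv (valuation basics).  COMPLETE PROOFS.

* v_one: F.mul 1 1.  v_neg_one: v ((-1) * (-1)) = v 1 = 0 = 2 v (-1).  v_neg: -x = (-1) * x.  v_inv: v (x * x⁻¹) = v 1 = 0.
* v_prod: Finset.induction (h for insert), v_one for the empty product.
* v_sum: Finset.induction on s.  s = insert a t: sum = f a + sum_t.  If f a = 0 the sum is sum_t: induction.  If sum_t = 0 the sum is f a.  Otherwise both nonzero, F.add: min (v (f a)) (v sum_t) <= v (sum),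
  case split on the min, induction hypothesis for t.
* v_det: det A = sum over permutations s of sign s * prod_i A (s i) i (Matrix.det_apply').  v_sum: some s with term T <> 0 and v T <= v (det A).  T <> 0, so all A (s i) i <> 0;
  v T = v(sign) + sum_i v (A (s i) i) = sum_i v (A (s i) i) >= sum_i (b i - a (s i)) = sum b - sum a (Equiv.sum_comp).  v of the sign (±1 cast) is 0: v_one, v_neg_one (Int.units_eq_one_or).
* nrm_neg: x = 0 trivial; else al ((-1) • x) = v (-1) + al x.   nrm_sum: same induction as v_sum with h.add.   nrm_sum_ge: immediate from nrm_sum.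
* nrm_strict: x + y = 0 would give y = -x, al y = al x.  al (x+y) >= min = al x.  Conversely x = (x+y) + (-y): al x >= min (al (x+y)) (al y); as al x < al y the min is al (x+y).
* spl_min: (b.repr x i ≠ 0 for some i.)  finite nonempty set, min attained.  From Spl: al x = min, so al x = v + al (b i) for the minimising i.
-/

namespace H50NA

open MeasureTheory Set Filter Topology

noncomputable section

variable {K : Type} [Field K] (F : VF K) {V : Type} [AddCommGroup V] [Module K V]

theorem v_one : F.v 1 = 0 := by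
  have h := F.mul 1 1 one_ne_zero one_ne_zero
  rw [one_mul] at h
  linarith

theorem v_neg_one : F.v (-1) = 0 := by
  have h := F.mul (-1) (-1) (neg_ne_zero.2 one_ne_zero) (neg_ne_zero.2 one_ne_zero)
  rw [neg_one_mul, neg_neg, v_one F] at h
  linarith

theorem v_neg (x : K) (hx : x ≠ 0) : F.v (-x) = F.v x := by
  rw [← neg_one_mul, F.mul _ _ (neg_ne_zero.2 one_ne_zero) hx, v_neg_one F, zero_add]

theorem v_inv (x : K) (hx : x ≠ 0) : F.v x⁻¹ = - F.v x := by
  have h := F.mul x x⁻¹ hx (inv_ne_zero hx)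
  rw [mul_inv_cancel₀ hx, v_one F] at h
  linarith

theorem v_prod {ι : Type} (s : Finset ι) (f : ι → K) (h : ∀ i ∈ s, f i ≠ 0) :
    F.v (∏ i ∈ s, f i) = ∑ i ∈ s, F.v (f i) := by
  classical
  induction s using Finset.induction_on with
  | empty => rw [Finset.prod_empty, Finset.sum_empty, v_one F]
  | insert a t ha ih =>
    rw [Finset.prod_insert ha, Finset.sum_insert ha, F.mul _ _ (h a (Finset.mem_insert_self a t))
      (Finset.prod_ne_zero_iff.2 fun i hi => h i (Finset.mem_insert_of_mem hi)),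
      ih fun i hi => h i (Finset.mem_insert_of_mem hi)]

theorem v_sum {ι : Type} (s : Finset ι) (f : ι → K) (h : ∑ i ∈ s, f i ≠ 0) :
    ∃ i ∈ s, f i ≠ 0 ∧ F.v (f i) ≤ F.v (∑ i ∈ s, f i) := by
  classical
  induction s using Finset.induction_on with
  | empty => exact absurd Finset.sum_empty h
  | insert a t ha ih =>
    rw [Finset.sum_insert ha] at h ⊢
    by_cases h1 : f a = 0
    · rw [h1, zero_add] at h ⊢
      obtain ⟨i, hi, h2, h3⟩ := ih h
      exact ⟨i, Finset.mem_insert_of_mem hi, h2, h3⟩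
    · by_cases h2 : ∑ i ∈ t, f i = 0
      · rw [h2, add_zero]
        exact ⟨a, Finset.mem_insert_self a t, h1, le_refl _⟩
      · have h3 := F.add _ _ h1 h2 h
        rcases min_choice (F.v (f a)) (F.v (∑ i ∈ t, f i)) with h4 | h4
        · rw [h4] at h3
          exact ⟨a, Finset.mem_insert_self a t, h1, h3⟩
        · rw [h4] at h3
          obtain ⟨i, hi, h5, h6⟩ := ih h2
          exact ⟨i, Finset.mem_insert_of_mem hi, h5, h6.trans h3⟩

theorem v_det {n : Type} [Fintype n] [DecidableEq n] (A : Matrix n n K) (a b : n → ℝ)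
    (h : ∀ i j, A i j ≠ 0 → b j - a i ≤ F.v (A i j)) (hd : A.det ≠ 0) :
    ∑ j, b j - ∑ i, a i ≤ F.v A.det := by
  rw [Matrix.det_apply'] at hd ⊢
  obtain ⟨s, -, h1, h2⟩ := v_sum F _ _ hd
  refine le_trans ?_ h2
  have h3 : ∏ i, A (s i) i ≠ 0 := right_ne_zero_of_mul h1
  have h4 : ∀ i ∈ Finset.univ, A (s i) i ≠ 0 := Finset.prod_ne_zero_iff.1 h3
  have h5 : F.v (((Equiv.Perm.sign s : ℤˣ) : ℤ) : K) = 0 := by
    rcases Int.units_eq_one_or (Equiv.Perm.sign s) with h6 | h6
    · rw [h6]
      push_cast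
      exact v_one F
    · rw [h6]
      push_cast
      exact v_neg_one F
  rw [F.mul _ _ (left_ne_zero_of_mul h1) h3, h5, zero_add, v_prod F _ _ h4]
  have h7 : ∑ i, a (s i) = ∑ i, a i := Equiv.sum_comp s a
  rw [← h7, ← Finset.sum_sub_distrib]
  exact Finset.sum_le_sum fun i hi => h _ _ (h4 i hi)

theorem nrm_neg {al : V → ℝ} (ha : Nrm F al) (x : V) : al (-x) = al x := by
  by_cases hx : x = 0
  · rw [hx, neg_zero]
  · rw [← neg_one_smul K x, ha.smul _ _ (neg_ne_zero.2 one_ne_zero) hx, v_neg_one F, zero_add]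

theorem nrm_sum {al : V → ℝ} (ha : Nrm F al) {ι : Type} (s : Finset ι) (x : ι → V)
    (h : ∑ i ∈ s, x i ≠ 0) : ∃ i ∈ s, x i ≠ 0 ∧ al (x i) ≤ al (∑ i ∈ s, x i) := by
  classical
  induction s using Finset.induction_on with
  | empty => exact absurd Finset.sum_empty h
  | insert a t hat ih =>
    rw [Finset.sum_insert hat] at h ⊢
    by_cases h1 : x a = 0
    · rw [h1, zero_add] at h ⊢
      obtain ⟨i, hi, h2, h3⟩ := ih h
      exact ⟨i, Finset.mem_insert_of_mem hi, h2, h3⟩
    · by_cases h2 : ∑ i ∈ t, x i = 0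
      · rw [h2, add_zero]
        exact ⟨a, Finset.mem_insert_self a t, h1, le_refl _⟩
      · have h3 := ha.add _ _ h1 h2 h
        rcases min_choice (al (x a)) (al (∑ i ∈ t, x i)) with h4 | h4
        · rw [h4] at h3
          exact ⟨a, Finset.mem_insert_self a t, h1, h3⟩
        · rw [h4] at h3
          obtain ⟨i, hi, h5, h6⟩ := ih h2
          exact ⟨i, Finset.mem_insert_of_mem hi, h5, h6.trans h3⟩

theorem nrm_sum_ge {al : V → ℝ} (ha : Nrm F al) {ι : Type} (s : Finset ι) (x : ι → V) (c : ℝ)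
    (h : ∑ i ∈ s, x i ≠ 0) (hc : ∀ i ∈ s, x i ≠ 0 → c ≤ al (x i)) : c ≤ al (∑ i ∈ s, x i) := by
  obtain ⟨i, hi, h1, h2⟩ := nrm_sum F ha s x h
  exact (hc i hi h1).trans h2

theorem nrm_strict {al : V → ℝ} (ha : Nrm F al) {x y : V} (hx : x ≠ 0) (hy : y ≠ 0)
    (h : al x < al y) : x + y ≠ 0 ∧ al (x + y) = al x := by
  have h0 : x + y ≠ 0 := by
    intro h1
    have h2 : y = -x := by rw [eq_neg_iff_add_eq_zero, add_comm]; exact h1
    rw [h2, nrm_neg F ha] at h
    exact lt_irrefl _ h
  refine ⟨h0, le_antisymm ?_ ?_⟩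
  · have h3 : (x + y) + (-y) = x := by rw [add_neg_cancel_right]
    have h4 := ha.add (x + y) (-y) h0 (neg_ne_zero.2 hy) (by rw [h3]; exact hx)
    rw [h3, nrm_neg F ha] at h4
    rcases min_choice (al (x + y)) (al y) with h5 | h5
    · rw [h5] at h4
      exact h4
    · rw [h5] at h4
      exact absurd (lt_of_lt_of_le h h4) (lt_irrefl _)
  · have h4 := ha.add x y hx hy h0
    rwa [min_eq_left h.le] at h4

end

end H50NA
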