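import Pool.Agent.H50.NA.GI

set_option autoImplicit false

/-!
# The metric space of splittable norms
-/

namespace H50NA

open MeasureTheory Set Filter Topology

noncomputable section

variable {K : Type} [Field K] (F : VF K) {V : Type} [AddCommGroup V] [Module K V] [Module.Finite K V]

theorem ds_nonneg (al be : V → ℝ) : 0 ≤ ds F al be := by
  unfold ds
  split_ifs
  · exact Real.sqrt_nonneg _
  · exact le_rfl

theorem ds_self {al : V → ℝ} (ha : SN F al) : ds F al al = 0 := by
  obtain ⟨b, hb⟩ := ha.2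
  have h := ds_eq F hb hb
  simp only [sub_self, ne_eq, OfNat.ofNat_ne_zero, not_false_eq_true, zero_pow,
    Finset.sum_const_zero] at h
  exact pow_eq_zero_iff (two_ne_zero) |>.1 h

theorem ds_zero {al be : V → ℝ} (ha : SN F al) (hb : SN F be) (h : ds F al be = 0) : al = be := by
  funext x
  have h1 := abs_le_ds F ha hb x
  rw [h] at h1
  have h2 := abs_nonpos_iff.1 h1
  linarith

instance : MetricSpace (Nm F V) where
  dist a b := ds F a.1 b.1
  dist_self a := ds_self F a.2
  dist_comm a b := ds_comm F a.2 b.2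
  dist_triangle a b c := ds_tri F a.2 b.2 c.2
  eq_of_dist_eq_zero {a b} h := Subtype.ext (ds_zero F a.2 b.2 h)

theorem dist_nm (a b : Nm F V) : dist a b = ds F a.1 b.1 := rfl

/-- geodesics in the space of norms -/
def gmN (a b : Nm F V) (t : ℝ) : Nm F V := ⟨gmf F a.1 b.1 t, gm_sn F a.2 b.2 t⟩

theorem spl_ext {al be : V → ℝ} {b : Bs K V} (h1 : Spl F b al) (h2 : Spl F b be) (ha : al 0 = 0)
    (hb : be 0 = 0) (h : ∀ i, al (b i) = be (b i)) : al = be := by
  have h3 := ds_eq F h1 h2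
  have h4 : ∑ i, (be (b i) - al (b i)) ^ 2 = 0 :=
    Finset.sum_eq_zero fun i _ => by rw [h i]; ring
  rw [h4] at h3
  exact ds_zero F ⟨ha, b, h1⟩ ⟨hb, b, h2⟩ (pow_eq_zero_iff (two_ne_zero) |>.1 h3)

theorem gmf_zero {al be : V → ℝ} (ha : SN F al) (hb : SN F be) : gmf F al be 0 = al := by
  obtain ⟨b, h1, _, h3, h4⟩ := gmf_ex F ha hb 0
  refine spl_ext F h3 h1 (gm_sn F ha hb 0).1 ha.1 fun i => ?_
  rw [h4]; ring

theorem gmf_one {al be : V → ℝ} (ha : SN F al) (hb : SN F be) : gmf F al be 1 = be := by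
  obtain ⟨b, _, h2, h3, h4⟩ := gmf_ex F ha hb 1
  refine spl_ext F h3 h2 (gm_sn F ha hb 1).1 hb.1 fun i => ?_
  rw [h4]; ring

theorem npcN : Npc (Nm F V) (gmN F) where
  zero p q := Subtype.ext (gmf_zero F p.2 q.2)
  one p q := Subtype.ext (gmf_one F p.2 q.2)
  cn p q z t h0 h1 := by
    have := ds_cn F p.2 q.2 z.2 h0 h1
    exact this

end

end H50NA
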