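import Pool.Agent.H50.NA.Defs

/-!
# Row L1: ball averages of bounded and of Lipschitz functions; subharmonic mean value inequality

avg_lip: let d = dist x y. If d >= s: both averages are at most M in absolute value (average over a ball of positive finite volume of a function bounded by M), so the
 difference is at most 2M <= 4 M d/s. If d < s: the difference is (1/|B|) (int_{ball x s \ ball y s} f - int_{ball y s \ ball x s} f), both balls have the same volume
 pi s^2 (Complex.volume_ball) and the symmetric difference is contained in ball x (s+d) \ ball x (s-d), of volume pi((s+d)^2-(s-d)^2) = 4 pi s d. So |difference| <= M 4 pi s d/(pi s^2).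
avg_lip': the average over ball y s is the average over ball x s of z -> f(z + (y-x)) (translation invariance of volume), so the difference is the average of differences.
sub_mean: F SubH on O, closedBall x R in O: for 0 < r <= R avg_{ball x r} F <= avg_{ball x R} F and avg_{ball x r} F -> F x as r -> 0 (continuity of F at x: for eps take r with |F z - F x| <= eps on ball x r).
-/

set_option autoImplicit false

namespace H50NA

open MeasureTheory Set Filter Topology Metric

private lemma vol_eq (x : ℂ) {s : ℝ} (hs : 0 ≤ s) : volume.real (ball x s) = Real.pi * s ^ 2 := by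
  rw [Measure.real, Complex.volume_ball, ENNReal.toReal_mul, ENNReal.toReal_pow,
    ENNReal.toReal_ofReal hs, mul_comm]
  rfl

private lemma vol_lt (x : ℂ) (s : ℝ) : volume (ball x s) < ⊤ := measure_ball_lt_top

private lemma diff_vol {x y : ℂ} {s : ℝ} (hd : dist x y ≤ s) :
    volume.real (ball x s \ ball y s) ≤ 2 * Real.pi * s * dist x y := by
  have hd0 : 0 ≤ dist x y := dist_nonneg
  have hs : 0 ≤ s := hd0.trans hd
  have hsub : ball x s \ ball y s ⊆ ball x s \ ball x (s - dist x y) := by
    rintro z ⟨h1, h2⟩
    refine ⟨h1, fun h3 => h2 ?_⟩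
    rw [mem_ball] at h3 ⊢
    have := dist_triangle z x y
    linarith
  have h1 : volume.real (ball x s \ ball y s) ≤ volume.real (ball x s \ ball x (s - dist x y)) :=
    measureReal_mono hsub ((measure_mono sdiff_subset).trans_lt (vol_lt x s)).ne
  have h2 : volume.real (ball x s \ ball x (s - dist x y)) =
      volume.real (ball x s) - volume.real (ball x (s - dist x y)) :=
    measureReal_sdiff (ball_subset_ball (by linarith)) measurableSet_ball (vol_lt _ _).ne
  rw [h2, vol_eq x hs, vol_eq x (by linarith)] at h1
  refine h1.trans ?_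
  nlinarith [Real.pi_pos, sq_nonneg (dist x y), mul_nonneg Real.pi_pos.le (sq_nonneg (dist x y))]

theorem avg_lip {f : ℂ → ℝ} {M s : ℝ} (hs : 0 < s) {x y : ℂ}
    (hf : IntegrableOn f (ball x s ∪ ball y s))
    (hM : ∀ z ∈ ball x s ∪ ball y s, |f z| ≤ M) :
    |(⨍ z in ball x s, f z) - ⨍ z in ball y s, f z| ≤ 4 * M * dist x y / s := by
  have hM0 : 0 ≤ M := (abs_nonneg _).trans (hM x (Or.inl (mem_ball_self hs)))
  have hV : 0 < Real.pi * s ^ 2 := mul_pos Real.pi_pos (pow_pos hs 2)
  have hd0 : 0 ≤ dist x y := dist_nonneg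
  rw [setAverage_eq, setAverage_eq, vol_eq x hs.le, vol_eq y hs.le, smul_eq_mul, smul_eq_mul,
    ← mul_sub, abs_mul, abs_of_pos (inv_pos.2 hV)]
  have hfx : IntegrableOn f (ball x s) := hf.mono_set subset_union_left
  have hfy : IntegrableOn f (ball y s) := hf.mono_set subset_union_right
  rcases le_or_gt (dist x y) s with hd | hd
  · have h1 := integral_inter_add_sdiff (measurableSet_ball (x := y) (ε := s)) hfx
    have h2 := integral_inter_add_sdiff (measurableSet_ball (x := x) (ε := s)) hfy
    have h3 : |∫ z in ball x s \ ball y s, f z| ≤ M * volume.real (ball x s \ ball y s) := by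
      rw [← Real.norm_eq_abs]
      exact norm_setIntegral_le_of_norm_le_const ((measure_mono sdiff_subset).trans_lt (vol_lt x s))
        (fun z hz => hM z (Or.inl hz.1))
    have h4 : |∫ z in ball y s \ ball x s, f z| ≤ M * volume.real (ball y s \ ball x s) := by
      rw [← Real.norm_eq_abs]
      exact norm_setIntegral_le_of_norm_le_const ((measure_mono sdiff_subset).trans_lt (vol_lt y s))
        (fun z hz => hM z (Or.inr hz.1))
    have h5 := diff_vol hd
    have h6 : volume.real (ball y s \ ball x s) ≤ 2 * Real.pi * s * dist x y := by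
      rw [dist_comm x y]
      exact diff_vol (by rw [dist_comm]; exact hd)
    have h7 : |(∫ z in ball x s, f z) - ∫ z in ball y s, f z| ≤ M * (4 * Real.pi * s * dist x y) := by
      rw [← h1, ← h2, inter_comm (ball y s) (ball x s), add_sub_add_left_eq_sub]
      refine (abs_sub _ _).trans ?_
      have h8 := mul_le_mul_of_nonneg_left h5 hM0
      have h9 := mul_le_mul_of_nonneg_left h6 hM0
      linarith
    calc (Real.pi * s ^ 2)⁻¹ * |(∫ z in ball x s, f z) - ∫ z in ball y s, f z|
        ≤ (Real.pi * s ^ 2)⁻¹ * (M * (4 * Real.pi * s * dist x y)) :=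
          mul_le_mul_of_nonneg_left h7 (inv_pos.2 hV).le
      _ = 4 * M * dist x y / s := by
          have := Real.pi_ne_zero
          field_simp
  · have h3 : |∫ z in ball x s, f z| ≤ M * volume.real (ball x s) := by
      rw [← Real.norm_eq_abs]
      exact norm_setIntegral_le_of_norm_le_const (vol_lt x s) (fun z hz => hM z (Or.inl hz))
    have h4 : |∫ z in ball y s, f z| ≤ M * volume.real (ball y s) := by
      rw [← Real.norm_eq_abs]
      exact norm_setIntegral_le_of_norm_le_const (vol_lt y s) (fun z hz => hM z (Or.inr hz))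
    rw [vol_eq x hs.le] at h3
    rw [vol_eq y hs.le] at h4
    have h7 : |(∫ z in ball x s, f z) - ∫ z in ball y s, f z| ≤ 2 * M * (Real.pi * s ^ 2) := by
      refine (abs_sub _ _).trans ?_
      linarith
    calc (Real.pi * s ^ 2)⁻¹ * |(∫ z in ball x s, f z) - ∫ z in ball y s, f z|
        ≤ (Real.pi * s ^ 2)⁻¹ * (2 * M * (Real.pi * s ^ 2)) :=
          mul_le_mul_of_nonneg_left h7 (inv_pos.2 hV).le
      _ = 2 * M := by
          have := Real.pi_ne_zero
          field_simp
      _ ≤ 4 * M * dist x y / s := by
          rw [le_div_iff₀ hs]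
          nlinarith

theorem avg_lip' {f : ℂ → ℝ} {L s : ℝ} (hs : 0 < s) {x y : ℂ}
    (hf : IntegrableOn f (ball x s ∪ ball y s))
    (hL : ∀ z ∈ ball x s, |f (z + (y - x)) - f z| ≤ L * dist x y) :
    |(⨍ z in ball x s, f z) - ⨍ z in ball y s, f z| ≤ L * dist x y := by
  have hV : 0 < Real.pi * s ^ 2 := mul_pos Real.pi_pos (pow_pos hs 2)
  have hfx : IntegrableOn f (ball x s) := hf.mono_set subset_union_left
  have hfy : IntegrableOn f (ball y s) := hf.mono_set subset_union_right
  have hmp : MeasurePreserving (fun z : ℂ => z + (y - x)) volume volume :=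
    measurePreserving_add_right volume (y - x)
  have hme : MeasurableEmbedding (fun z : ℂ => z + (y - x)) := measurableEmbedding_addRight (y - x)
  have hpre : (fun z : ℂ => z + (y - x)) ⁻¹' ball y s = ball x s := by
    ext z
    rw [mem_preimage, mem_ball, mem_ball, dist_eq_norm, dist_eq_norm]
    have : z + (y - x) - y = z - x := by ring
    rw [this]
  have h1 : ∫ z in ball x s, f (z + (y - x)) = ∫ z in ball y s, f z := by
    rw [← hpre]
    exact hmp.setIntegral_preimage_emb hme f (ball y s)
  have h2 : IntegrableOn (fun z => f (z + (y - x))) (ball x s) := by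
    rw [← hpre]
    exact (hmp.integrableOn_comp_preimage hme).2 hfy
  rw [setAverage_eq, setAverage_eq, vol_eq x hs.le, vol_eq y hs.le, smul_eq_mul, smul_eq_mul,
    ← mul_sub, abs_mul, abs_of_pos (inv_pos.2 hV), ← h1, ← integral_sub hfx h2]
  have h3 : |∫ z in ball x s, (f z - f (z + (y - x)))| ≤ L * dist x y * volume.real (ball x s) := by
    rw [← Real.norm_eq_abs]
    refine norm_setIntegral_le_of_norm_le_const (vol_lt x s) (fun z hz => ?_)
    rw [Real.norm_eq_abs, abs_sub_comm]
    exact hL z hz
  rw [vol_eq x hs.le] at h3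
  calc (Real.pi * s ^ 2)⁻¹ * |∫ z in ball x s, (f z - f (z + (y - x)))|
      ≤ (Real.pi * s ^ 2)⁻¹ * (L * dist x y * (Real.pi * s ^ 2)) :=
        mul_le_mul_of_nonneg_left h3 (inv_pos.2 hV).le
    _ = L * dist x y := by
        have := Real.pi_ne_zero
        field_simp

theorem sub_mean {F : ℂ → ℝ} {O : Set ℂ} (h : SubH F O) {x : ℂ} {R : ℝ} (hR : 0 < R)
    (hx : closedBall x R ⊆ O) : F x ≤ ⨍ y in ball x R, F y := by
  refine le_of_forall_pos_le_add fun ε hε => ?_
  have hcx : ContinuousWithinAt F O x := h.cont x (hx (mem_closedBall_self hR.le))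
  obtain ⟨δ, hδ, hδF⟩ := Metric.continuousWithinAt_iff.1 hcx ε hε
  obtain ⟨r, hr, hrR, hrδ⟩ : ∃ r : ℝ, 0 < r ∧ r ≤ R ∧ r ≤ δ :=
    ⟨min R δ, lt_min hR hδ, min_le_left _ _, min_le_right _ _⟩
  have hsub : closedBall x r ⊆ O := (closedBall_subset_closedBall hrR).trans hx
  have hi : IntegrableOn F (ball x r) :=
    ((h.cont.mono hsub).integrableOn_compact (isCompact_closedBall x r)).mono_set
      ball_subset_closedBall
  have hV : 0 < volume.real (ball x r) := by
    rw [vol_eq x hr.le]
    exact mul_pos Real.pi_pos (pow_pos hr 2)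
  have h1 : F x - ε ≤ ⨍ y in ball x r, F y := by
    rw [setAverage_eq, smul_eq_mul]
    have h2 : ∫ _y in ball x r, (F x - ε) ≤ ∫ y in ball x r, F y := by
      refine setIntegral_mono_on (integrableOn_const (vol_lt x r).ne) hi measurableSet_ball ?_
      intro y hy
      have h3 := hδF (hsub (ball_subset_closedBall hy)) (lt_of_lt_of_le hy hrδ)
      rw [Real.dist_eq] at h3
      have := (abs_lt.1 h3).1
      linarith
    rw [setIntegral_const, smul_eq_mul] at h2
    calc F x - ε = (volume.real (ball x r))⁻¹ * (volume.real (ball x r) * (F x - ε)) := by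
          field_simp
      _ ≤ _ := mul_le_mul_of_nonneg_left h2 (inv_pos.2 hV).le
  have h4 := h.mono x r R hr hrR hx
  linarith

end H50NA
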