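import Pool.Agent.H50.NA.L1

set_option autoImplicit false

/-!
# Row L2: the iteration of the main lemma (real analysis)

Notation: s_j = r 2^{-j-4}, r_0 = r, r_{j+1} = r_j - 2 s_j, so r_j = r (3/4 + 2^{-j-2}) (r_0 = r; r_j - 2 s_j = r(3/4 + 2^{-j-2} - 2^{-j-3})), G_j = 4^{-j} e r. k_j(b,z) := average of h b over ball z s_j.
If |z - x0| < r_j - s_j then closedBall z s_j is contained in ball x0 r_j, contained in ball x0 r.
CLAIM (by induction on j): (A_j) g <= G_j on ball x0 r_j.   (B_j) |k_j(b,z) - k_j(b,z')| <= La_j |z - z'| for z, z' in ball x0 (r_j - s_j), La_0 = 64 e, La_{j+1} = La_j + 128 2^{-j} e;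
 so La_j <= 320 e for all j.
(1) from (A_j): for z in ball x0 (r_j - s_j): 0 <= h b z - k_j(b,z) <= G_j. Proof: sub_mean for -h b: h b z >= k_j(b,z). sub_mean for h b + g: h b z <= h b z + g z <= average of (h b + g) over ball z s_j
 = k_j(b,z) + average of g <= k_j(b,z) + G_j. (integrability: continuous on the closed ball inside ball x0 r, SubH.cont; averages are additive.)
(B_0): avg_lip with M = e r, s = s_0 = r/16: constant 4 e r/(r/16) = 64 e.
(B_{j+1}) from (A_j), (B_j): for z, z' in ball x0 (r_{j+1} - s_{j+1}): both balls of radius s_{j+1} are in ball x0 r_{j+1} = ball x0 (r_j - 2 s_j), contained in ball x0 (r_j - s_j), where k_j is defined, continuous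
 ((B_j)) and |h b - k_j| <= G_j (1). k_{j+1} = average of k_j + average of (h b - k_j): first term: avg_lip' with L = La_j (z + (z'-z) is in the ball around z'), second: avg_lip with M = G_j:
 4 G_j/s_{j+1} = 4 4^{-j} e r/(r 2^{-j-5}) = 128 2^{-j} e.
 Sum: 64 + 128 (1 + 1/2 + ...) = 64 + 256 = 320.
(A_{j+1}) from (A_j), (B_j): let x in ball x0 r_{j+1}, G := G_j, R := 3 G_j/d <= 3 4^{-j} e r/(100 e) = 0.03 4^{-j} r < s_j = 0.0625 2^{-j} r. So closedBall x R is in ball x0 (r_{j+1} + s_j) = ball x0 (r_j - s_j). For z in ball x R and each b: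
 |h b z - h b x| <= |k_j(b,z) - k_j(b,x)| + G_j (by (1) both differences h - k_j lie in [0,G_j]) <= 320 e |z-x| + G_j. So th applies: volume {z in ball x R | 0 < g z} <= volume(ball x R)/4. sub_mean for g:
 g x <= average of g over ball x R <= (1/vol) int_{g>0} g <= (1/vol) (vol/4) G_j = G_{j+1} (0 <= g <= G_j on ball x R, which is in ball x0 r_j).
Conclusion: z in ball x0 (3/4 r) is in every ball x0 r_j, 0 <= g z <= 4^{-j} e r for all j.
-/

namespace H50NA

open MeasureTheory Set Filter Topology Metric

private lemma L2_vol_pos {x : ℂ} {s : ℝ} (hs : 0 < s) : 0 < volume.real (ball x s) :=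
  ENNReal.toReal_pos (measure_ball_pos volume x hs).ne' measure_ball_lt_top.ne

private lemma L2_int {f : ℂ → ℝ} {O : Set ℂ} (hf : ContinuousOn f O) {x : ℂ} {s : ℝ}
    (h : closedBall x s ⊆ O) : IntegrableOn f (ball x s) :=
  ((hf.mono h).integrableOn_compact (isCompact_closedBall x s)).mono_set ball_subset_closedBall

private lemma L2_avg_le {f : ℂ → ℝ} {M s : ℝ} (hs : 0 < s) {x : ℂ}
    (hf : IntegrableOn f (ball x s)) (h : ∀ z ∈ ball x s, f z ≤ M) :
    ⨍ z in ball x s, f z ≤ M := by
  have hv := L2_vol_pos (x := x) hs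
  rw [setAverage_eq, smul_eq_mul]
  have h1 : ∫ z in ball x s, f z ≤ ∫ z in ball x s, M := by
    refine setIntegral_mono_on hf ?_ measurableSet_ball h
    exact integrableOn_const measure_ball_lt_top.ne
  rw [setIntegral_const, smul_eq_mul] at h1
  calc (volume.real (ball x s))⁻¹ * ∫ z in ball x s, f z
      ≤ (volume.real (ball x s))⁻¹ * (volume.real (ball x s) * M) :=
        mul_le_mul_of_nonneg_left h1 (inv_nonneg.2 hv.le)
    _ = M := by rw [← mul_assoc, inv_mul_cancel₀ hv.ne', one_mul]

private lemma L2_avg_add {f g : ℂ → ℝ} {s : ℝ} {x : ℂ} (hf : IntegrableOn f (ball x s))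
    (hg : IntegrableOn g (ball x s)) :
    ⨍ z in ball x s, (f z + g z) = (⨍ z in ball x s, f z) + ⨍ z in ball x s, g z := by
  rw [setAverage_eq, setAverage_eq, setAverage_eq, integral_add hf hg, smul_add]

private lemma L2_avg_neg {f : ℂ → ℝ} {s : ℝ} {x : ℂ} :
    ⨍ z in ball x s, (- f z) = - ⨍ z in ball x s, f z := by
  rw [setAverage_eq, setAverage_eq, integral_neg, smul_neg]

/-- the mean value bound on the part of the ball where the function is positive -/
private lemma L2_quarter {g : ℂ → ℝ} {O : Set ℂ} (hg : SubH g O) {x : ℂ} {R G : ℝ} (hR : 0 < R)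
    (hG : 0 < G) (hx : closedBall x R ⊆ O)
    (g1 : ∀ z ∈ ball x R, g z ≤ G)
    (hvol : volume.real {z | z ∈ ball x R ∧ 0 < g z} ≤ volume.real (ball x R) / 4) :
    g x ≤ G / 4 := by
  have hv := L2_vol_pos (x := x) hR
  have hcont : ContinuousOn g (ball x R) := hg.cont.mono (ball_subset_closedBall.trans hx)
  have hopen : IsOpen {z | z ∈ ball x R ∧ 0 < g z} :=
    hcont.isOpen_inter_preimage isOpen_ball isOpen_Ioi
  have hsub : {z | z ∈ ball x R ∧ 0 < g z} ⊆ ball x R := fun z hz => hz.1
  have hgi : IntegrableOn g (ball x R) := L2_int hg.cont hx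
  have hind : IntegrableOn ({z | z ∈ ball x R ∧ 0 < g z}.indicator (fun _ => G)) (ball x R) := by
    apply IntegrableOn.indicator _ hopen.measurableSet
    exact integrableOn_const measure_ball_lt_top.ne
  have h1 : ∫ z in ball x R, g z ≤
      ∫ z in ball x R, {z | z ∈ ball x R ∧ 0 < g z}.indicator (fun _ => G) z := by
    refine setIntegral_mono_on hgi hind measurableSet_ball fun z hz => ?_
    by_cases h : 0 < g z
    · rw [Set.indicator_of_mem (show z ∈ {z | z ∈ ball x R ∧ 0 < g z} from ⟨hz, h⟩)]
      exact g1 z hz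
    · rw [Set.indicator_of_notMem (fun h' => h h'.2)]
      exact not_lt.1 h
  rw [setIntegral_indicator hopen.measurableSet, Set.inter_eq_right.2 hsub, setIntegral_const,
    smul_eq_mul] at h1
  have h2 := sub_mean hg hR hx
  rw [setAverage_eq, smul_eq_mul] at h2
  have h3 : (volume.real (ball x R))⁻¹ * ∫ z in ball x R, g z ≤
      (volume.real (ball x R))⁻¹ * (volume.real (ball x R) / 4 * G) :=
    mul_le_mul_of_nonneg_left (h1.trans (mul_le_mul_of_nonneg_right hvol hG.le))
      (inv_nonneg.2 hv.le)
  refine h2.trans (h3.trans (le_of_eq ?_))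
  field_simp

theorem iter {N : ℕ} {h : Fin N → ℂ → ℝ} {g : ℂ → ℝ} {x0 : ℂ} {r e d : ℝ} (hr : 0 < r) (he : 0 < e)
    (hed : 100 * e ≤ d) (h1 : ∀ b, SubH (fun z => - h b z) (ball x0 r))
    (h2 : ∀ b, SubH (fun z => h b z + g z) (ball x0 r)) (hg : SubH g (ball x0 r))
    (g0 : ∀ z ∈ ball x0 r, 0 ≤ g z) (g1 : ∀ z ∈ ball x0 r, g z ≤ e * r)
    (hb : ∀ b, ∀ z ∈ ball x0 r, |h b z| ≤ e * r)
    (th : ∀ (x : ℂ) (G R : ℝ), 0 < G → R = 3 * G / d → ball x R ⊆ ball x0 r →
      (∀ z ∈ ball x R, g z ≤ G) →
      (∀ b, ∀ z ∈ ball x R, |h b z - h b x| ≤ 320 * e * dist z x + G) →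
      volume.real {z | z ∈ ball x R ∧ 0 < g z} ≤ volume.real (ball x R) / 4) :
    ∀ z ∈ ball x0 (3 / 4 * r), g z = 0 := by
  have hd : 0 < d := by linarith
  have hcont : ∀ b, ContinuousOn (h b) (ball x0 r) := by
    intro b
    have h3 := (h1 b).cont.neg
    refine h3.congr fun z _ => ?_
    simp
  -- the data
  obtain ⟨sj, hsj⟩ : ∃ sj : ℕ → ℝ, ∀ j, sj j = r / 2 ^ (j + 4) := ⟨_, fun _ => rfl⟩
  obtain ⟨rj, hrj⟩ : ∃ rj : ℕ → ℝ, ∀ j, rj j = r * (3 / 4 + 1 / 2 ^ (j + 2)) := ⟨_, fun _ => rfl⟩
  obtain ⟨Gj, hGj⟩ : ∃ Gj : ℕ → ℝ, ∀ j, Gj j = e * r / 4 ^ j := ⟨_, fun _ => rfl⟩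
  obtain ⟨La, hLa⟩ : ∃ La : ℕ → ℝ, ∀ j, La j = 320 * e - 256 * e / 2 ^ j := ⟨_, fun _ => rfl⟩
  obtain ⟨k, hk⟩ : ∃ k : ℕ → Fin N → ℂ → ℝ, ∀ j b z, k j b z = ⨍ y in ball z (sj j), h b y :=
    ⟨_, fun _ _ _ => rfl⟩
  have hs0 : ∀ j, 0 < sj j := fun j => by rw [hsj]; positivity
  have hG0 : ∀ j, 0 < Gj j := fun j => by rw [hGj]; positivity
  have hrs : ∀ j, rj (j + 1) = rj j - 2 * sj j := by
    intro j
    rw [hrj, hrj, hsj]
    field_simp
    ring
  have hrr : ∀ j, rj j ≤ r := by
    intro j
    rw [hrj]
    have h3 : (1 : ℝ) / 2 ^ (j + 2) ≤ 1 / 4 := by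
      rw [pow_add]
      apply one_div_le_one_div_of_le (by norm_num)
      have : (1 : ℝ) ≤ 2 ^ j := one_le_pow₀ (by norm_num)
      linarith
    nlinarith
  have hr34 : ∀ j, 3 / 4 * r ≤ rj j := by
    intro j
    rw [hrj]
    have h3 : (0 : ℝ) ≤ 1 / 2 ^ (j + 2) := by positivity
    nlinarith
  have hshalf : ∀ j, sj (j + 1) = sj j / 2 := by
    intro j
    rw [hsj, hsj]
    field_simp
    ring
  have hLa0 : ∀ j, La j ≤ 320 * e := by
    intro j
    rw [hLa]
    have : 0 ≤ 256 * e / 2 ^ j := by positivity
    linarith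
  -- inclusions
  have hball : ∀ j, ball x0 (rj j) ⊆ ball x0 r := fun j => ball_subset_ball (hrr j)
  have hcb : ∀ j z, z ∈ ball x0 (rj j - sj j) → closedBall z (sj j) ⊆ ball x0 (rj j) := by
    intro j z hz w hw
    rw [mem_ball] at hz ⊢
    rw [mem_closedBall] at hw
    calc dist w x0 ≤ dist w z + dist z x0 := dist_triangle _ _ _
      _ < sj j + (rj j - sj j) := add_lt_add_of_le_of_lt hw hz
      _ = rj j := by ring
  -- (1)
  have step1 : ∀ j, (∀ z ∈ ball x0 (rj j), g z ≤ Gj j) → ∀ b, ∀ z ∈ ball x0 (rj j - sj j),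
      0 ≤ h b z - k j b z ∧ h b z - k j b z ≤ Gj j := by
    intro j hA b z hz
    have hc := hcb j z hz
    have hc' : closedBall z (sj j) ⊆ ball x0 r := hc.trans (hball j)
    have hzz : z ∈ ball x0 r := hc' (mem_closedBall_self (hs0 j).le)
    have hi := L2_int (hcont b) hc'
    have hgi := L2_int hg.cont hc'
    constructor
    · have h3 := sub_mean (h1 b) (hs0 j) hc'
      rw [L2_avg_neg, ← hk] at h3
      linarith
    · have h3 := sub_mean (h2 b) (hs0 j) hc'
      rw [L2_avg_add hi hgi, ← hk] at h3
      have h4 := L2_avg_le (hs0 j) hgi (M := Gj j)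
        (fun w hw => hA w (hc (ball_subset_closedBall hw)))
      have h5 := g0 z hzz
      linarith
  -- the induction
  have main : ∀ j, (∀ z ∈ ball x0 (rj j), g z ≤ Gj j) ∧
      ∀ b, ∀ z ∈ ball x0 (rj j - sj j), ∀ z' ∈ ball x0 (rj j - sj j),
        |k j b z - k j b z'| ≤ La j * dist z z' := by
    intro j
    induction j with
    | zero =>
      constructor
      · intro z hz
        rw [hGj, pow_zero, div_one]
        exact g1 z (hball 0 hz)
      · intro b z hz z' hz'
        have hc := (hcb 0 z hz).trans (hball 0)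
        have hc' := (hcb 0 z' hz').trans (hball 0)
        have h3 := avg_lip (f := h b) (M := e * r) (hs0 0) (x := z) (y := z')
          ((L2_int (hcont b) hc).union (L2_int (hcont b) hc')) (by
            rintro w (hw | hw)
            · exact hb b w (hc (ball_subset_closedBall hw))
            · exact hb b w (hc' (ball_subset_closedBall hw)))
        rw [hk, hk]
        refine h3.trans (le_of_eq ?_)
        rw [hsj, hLa]
        field_simp
        ring
    | succ j ih =>
      obtain ⟨hA, hB⟩ := ih
      have h4j : Gj (j + 1) = Gj j / 4 := by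
        rw [hGj, hGj, pow_succ]
        field_simp
      have hsub : ball x0 (rj (j + 1)) ⊆ ball x0 (rj j - sj j) := by
        apply ball_subset_ball
        rw [hrs]
        have := hs0 j
        linarith
      have hkc : ∀ b, ContinuousOn (k j b) (ball x0 (rj j - sj j)) := by
        intro b
        rw [Metric.continuousOn_iff]
        intro z hz ε hε
        have hL1 : 0 < |La j| + 1 := by positivity
        refine ⟨ε / (|La j| + 1), by positivity, fun w hw hwz => ?_⟩
        rw [Real.dist_eq]
        refine (hB b w hw z hz).trans_lt ?_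
        calc La j * dist w z ≤ (|La j| + 1) * dist w z := by
              apply mul_le_mul_of_nonneg_right _ dist_nonneg
              have := le_abs_self (La j)
              linarith
          _ < (|La j| + 1) * (ε / (|La j| + 1)) := by
              exact mul_lt_mul_of_pos_left hwz hL1
          _ = ε := by field_simp
      constructor
      · -- (A)
        intro x hx
        rw [h4j]
        have hR : 0 < 3 * Gj j / d := by
          have := hG0 j
          positivity
        have hRs : 3 * Gj j / d < sj j := by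
          rw [div_lt_iff₀ hd]
          have h5 : (2 : ℝ) ^ j ≤ 4 ^ j := pow_le_pow_left₀ (by norm_num) (by norm_num) j
          have h6 : (0 : ℝ) < 2 ^ j := by positivity
          have h7 : (0 : ℝ) < 4 ^ j := by positivity
          have h8 : 3 * Gj j < sj j * (100 * e) := by
            rw [hGj, hsj, pow_add]
            rw [← mul_div_assoc, div_mul_eq_mul_div, div_lt_div_iff₀ h7 (by positivity)]
            have h9 : 0 < e * r := by positivity
            nlinarith [mul_le_mul_of_nonneg_left h5 h9.le, mul_pos h9 h7]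
          have h10 : sj j * (100 * e) ≤ sj j * d := mul_le_mul_of_nonneg_left hed (hs0 j).le
          linarith
        have hin : closedBall x (3 * Gj j / d) ⊆ ball x0 (rj j - sj j) := by
          intro w hw
          rw [mem_ball] at hx ⊢
          rw [mem_closedBall] at hw
          have h5 := hrs j
          calc dist w x0 ≤ dist w x + dist x x0 := dist_triangle _ _ _
            _ < sj j + rj (j + 1) := add_lt_add (hw.trans_lt hRs) hx
            _ = rj j - sj j := by rw [h5]; ring
        have hin2 : ball x0 (rj j - sj j) ⊆ ball x0 (rj j) :=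
          ball_subset_ball (by have := hs0 j; linarith)
        have hin3 : closedBall x (3 * Gj j / d) ⊆ ball x0 r := (hin.trans hin2).trans (hball j)
        have hgG : ∀ z ∈ ball x (3 * Gj j / d), g z ≤ Gj j := fun z hz =>
          hA z (hin2 (hin (ball_subset_closedBall hz)))
        refine L2_quarter hg hR (hG0 j) hin3 hgG ?_
        refine th x (Gj j) _ (hG0 j) rfl (ball_subset_closedBall.trans hin3) hgG ?_
        intro b z hz
        have hz' := hin (ball_subset_closedBall hz)
        have hx' := hin (mem_closedBall_self hR.le)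
        obtain ⟨a1, a2⟩ := step1 j hA b z hz'
        obtain ⟨a3, a4⟩ := step1 j hA b x hx'
        have a5 := hB b z hz' x hx'
        have a6 : La j * dist z x ≤ 320 * e * dist z x :=
          mul_le_mul_of_nonneg_right (hLa0 j) dist_nonneg
        rw [abs_le] at a5 ⊢
        constructor <;> linarith [a5.1, a5.2]
      · -- (B)
        intro b z hz z' hz'
        have hs1 := hs0 (j + 1)
        have hc := (hcb (j + 1) z hz).trans hsub
        have hc' := (hcb (j + 1) z' hz').trans hsub
        have hin2 : ball x0 (rj j - sj j) ⊆ ball x0 (rj j) :=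
          ball_subset_ball (by have := hs0 j; linarith)
        have hq := (hc.trans hin2).trans (hball j)
        have hq' := (hc'.trans hin2).trans (hball j)
        have i1 := L2_int (hkc b) hc
        have i1' := L2_int (hkc b) hc'
        have i2 : IntegrableOn (fun y => h b y - k j b y) (ball z (sj (j + 1))) :=
          (L2_int (hcont b) hq).sub i1
        have i2' : IntegrableOn (fun y => h b y - k j b y) (ball z' (sj (j + 1))) :=
          (L2_int (hcont b) hq').sub i1'
        have e1 : k (j + 1) b z = (⨍ y in ball z (sj (j + 1)), k j b y) +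
            ⨍ y in ball z (sj (j + 1)), (h b y - k j b y) := by
          rw [hk, ← L2_avg_add i1 i2]
          simp only [add_sub_cancel]
        have e2 : k (j + 1) b z' = (⨍ y in ball z' (sj (j + 1)), k j b y) +
            ⨍ y in ball z' (sj (j + 1)), (h b y - k j b y) := by
          rw [hk, ← L2_avg_add i1' i2']
          simp only [add_sub_cancel]
        have l1 := avg_lip' (f := k j b) (L := La j) hs1 (x := z) (y := z') (i1.union i1') (by
          intro w hw
          have hw1 : w + (z' - z) ∈ ball z' (sj (j + 1)) := by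
            rw [mem_ball, dist_eq_norm] at hw ⊢
            have : w + (z' - z) - z' = w - z := by ring
            rw [this]
            exact hw
          have h5 := hB b _ (hc' (ball_subset_closedBall hw1)) _ (hc (ball_subset_closedBall hw))
          have h6 : dist (w + (z' - z)) w = dist z z' := by
            rw [dist_eq_norm, dist_comm z z', dist_eq_norm]
            congr 1
            ring
          rwa [h6] at h5)
        have l2 := avg_lip (f := fun y => h b y - k j b y) (M := Gj j) hs1 (x := z) (y := z')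
          (i2.union i2') (by
            rintro w (hw | hw)
            · obtain ⟨a1, a2⟩ := step1 j hA b w (hc (ball_subset_closedBall hw))
              rw [abs_of_nonneg a1]
              exact a2
            · obtain ⟨a1, a2⟩ := step1 j hA b w (hc' (ball_subset_closedBall hw))
              rw [abs_of_nonneg a1]
              exact a2)
        have e3 : 4 * Gj j * dist z z' / sj (j + 1) = 128 * e / 2 ^ j * dist z z' := by
          rw [hGj, hsj]
          have h5 : (4 : ℝ) ^ j = 2 ^ j * 2 ^ j := by
            rw [← mul_pow]; norm_num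
          rw [h5]
          field_simp
          ring
        have e4 : La (j + 1) = La j + 128 * e / 2 ^ j := by
          rw [hLa, hLa, pow_succ]
          field_simp
          ring
        rw [e3] at l2
        rw [e1, e2, e4, add_mul]
        rw [abs_le] at l1 l2 ⊢
        constructor <;> linarith [l1.1, l1.2, l2.1, l2.2]
  intro z hz
  have hz0 : 0 ≤ g z := g0 z (hball 0 (ball_subset_ball (hr34 0) hz))
  refine le_antisymm ?_ hz0
  have hlim : Tendsto (fun j : ℕ => e * r / 4 ^ j) atTop (𝓝 0) := by
    have h3 : Tendsto (fun j : ℕ => e * r * (1 / 4 : ℝ) ^ j) atTop (𝓝 (e * r * 0)) :=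
      (tendsto_pow_atTop_nhds_zero_of_lt_one (by norm_num) (by norm_num)).const_mul _
    rw [mul_zero] at h3
    refine h3.congr fun j => ?_
    rw [one_div, inv_pow, div_eq_mul_inv]
  refine ge_of_tendsto' hlim fun j => ?_
  have h3 := (main j).1 z (ball_subset_ball (hr34 j) hz)
  rwa [hGj] at h3

end H50NA
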