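import Pool.Agent.H50.NA.Defs

set_option autoImplicit false

/-!
# Row L3: two elementary estimates

pos_alg: Q := sum n_b c_b^2, n_b = card. sum_{b,i}(lam - c_b)^2 = sum lam^2 - 2 sum_b c_b (sum_i lam_{b,i}) + Q = (sum lam^2 - Q) - 2 sum_b c_b th_b, th_b := sum_i lam_{b,i} - n_b c_b, |th_b| <= (320 e + d) Z.
 sum lam^2 <= (sqrt(Q + e^2 Z^2) + 2 d Z)^2 = Q + e^2Z^2 + 4 d Z sqrt(Q + e^2Z^2) + 4 d^2 Z^2, and sqrt(Q + e^2 Z^2) <= sqrt(m A^2 Z^2 + Z^2) <= (m A + 1) Z (m >= 1 or Q = 0: if m = 0 everything is 0; m A^2 + 1 <= (mA+1)^2 for m >= 1). With e, d <= 1: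
 sum lam^2 - Q <= (e + 4 d (m A + 1) + 4 d) Z^2; 2 sum |c_b||th_b| <= 2 N A Z (320 e + d) Z <= 2 m A (320 e + d) Z^2 (N <= m because every n_b >= 1). Total <= (10 + 1000 m (A+1))(e + d) Z^2.
strip: with w = z - x the set is contained, after a rotation, in a rectangle: write a = |a| u, |u| = 1, conj(u) w = p + i q (isometry of C, measure preserving): |w| < R gives |q| < R, and |a| p in [c - t, c + t]: p in an interval of length 2t/|a|.
 So the set is contained in the preimage, under the linear isometry w -> conj(u) w, of {p + i q : p in that interval, q in (-R,R)}, volume (2t/|a|)(2R) (Complex.measurableEquivRealProd / Complex.volume_preserving_equiv_real_prod).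
-/

namespace H50NA

open MeasureTheory Set Filter Topology Metric

theorem pos_alg {N m : ℕ} (n : Fin N → ℕ) (hn : ∀ b, 1 ≤ n b) (hm : ∑ b, n b ≤ m)
    (lam : (b : Fin N) → Fin (n b) → ℝ) (c : Fin N → ℝ) {A Z e d : ℝ} (hA : 0 ≤ A) (hZ : 0 ≤ Z)
    (he : 0 ≤ e) (he1 : e ≤ 1) (hd : 0 ≤ d) (hd1 : d ≤ 1) (hc : ∀ b, |c b| ≤ A * Z)
    (h1 : ∑ b, ∑ i, lam b i ^ 2 ≤
      (Real.sqrt (∑ b, (n b : ℝ) * c b ^ 2 + e ^ 2 * Z ^ 2) + 2 * d * Z) ^ 2)
    (h2 : ∀ b, |∑ i, lam b i - n b * c b| ≤ (320 * e + d) * Z) :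
    ∑ b, ∑ i, (lam b i - c b) ^ 2 ≤ (10 + 1000 * m * (A + 1)) * (e + d) * Z ^ 2 := by
  obtain ⟨Q, hQ⟩ : ∃ Q : ℝ, Q = ∑ b, (n b : ℝ) * c b ^ 2 := ⟨_, rfl⟩
  obtain ⟨L, hL⟩ : ∃ L : ℝ, L = ∑ b, ∑ i, lam b i ^ 2 := ⟨_, rfl⟩
  obtain ⟨M, hM⟩ : ∃ M : ℝ, M = (m : ℝ) := ⟨_, rfl⟩
  have hM0 : 0 ≤ M := by rw [hM]; positivity
  have hMM : M ≤ M ^ 2 := by
    rw [hM]
    have : m ≤ m ^ 2 := Nat.le_self_pow (by norm_num) m
    exact_mod_cast this
  have hnm : ∑ b, (n b : ℝ) ≤ M := by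
    rw [hM]
    exact_mod_cast hm
  have hNm : (N : ℝ) ≤ M := by
    refine le_trans ?_ hnm
    calc (N : ℝ) = ∑ _b : Fin N, (1 : ℝ) := by simp
      _ ≤ ∑ b, (n b : ℝ) := Finset.sum_le_sum fun b _ => by exact_mod_cast hn b
  -- the identity
  have hid : ∑ b, ∑ i, (lam b i - c b) ^ 2 =
      (L - Q) - 2 * ∑ b, c b * (∑ i, lam b i - n b * c b) := by
    have h3 : ∀ b, ∑ i, (lam b i - c b) ^ 2 =
        ∑ i, lam b i ^ 2 - 2 * (c b * ∑ i, lam b i) + (n b : ℝ) * c b ^ 2 := by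
      intro b
      have h4 : ∀ i, (lam b i - c b) ^ 2 = lam b i ^ 2 - 2 * (c b * lam b i) + c b ^ 2 := by
        intro i
        ring
      simp only [h4, Finset.sum_add_distrib, Finset.sum_sub_distrib, ← Finset.mul_sum]
      simp
    have h5 : ∀ b, c b * (∑ i, lam b i - n b * c b) =
        c b * ∑ i, lam b i - (n b : ℝ) * c b ^ 2 := by
      intro b
      ring
    simp only [h3, h5, Finset.sum_add_distrib, Finset.sum_sub_distrib, ← Finset.mul_sum]
    rw [hL, hQ]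
    ring
  -- the bound of Q
  have hQ0 : 0 ≤ Q := by
    rw [hQ]
    positivity
  have hQM : Q ≤ M * (A ^ 2 * Z ^ 2) := by
    rw [hQ]
    calc ∑ b, (n b : ℝ) * c b ^ 2 ≤ ∑ b, (n b : ℝ) * (A ^ 2 * Z ^ 2) := by
          apply Finset.sum_le_sum
          intro b _
          apply mul_le_mul_of_nonneg_left _ (by positivity)
          have h3 := hc b
          have h4 : c b ^ 2 = |c b| ^ 2 := (sq_abs _).symm
          rw [h4, ← mul_pow]
          exact pow_le_pow_left₀ (abs_nonneg _) h3 2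
      _ = (∑ b, (n b : ℝ)) * (A ^ 2 * Z ^ 2) := by rw [Finset.sum_mul]
      _ ≤ M * (A ^ 2 * Z ^ 2) := mul_le_mul_of_nonneg_right hnm (by positivity)
  have he2 : e ^ 2 ≤ e := by nlinarith
  have hd2 : d ^ 2 ≤ d := by nlinarith
  have hsq : Real.sqrt (Q + e ^ 2 * Z ^ 2) ≤ (M * A + 1) * Z := by
    apply Real.sqrt_le_iff.mpr
    refine ⟨by positivity, ?_⟩
    have h3 : M * A ^ 2 ≤ M ^ 2 * A ^ 2 := mul_le_mul_of_nonneg_right hMM (by positivity)
    have h4 : e ^ 2 ≤ 1 := by nlinarith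
    have h5 : 0 ≤ M * A := by positivity
    calc Q + e ^ 2 * Z ^ 2 ≤ M * (A ^ 2 * Z ^ 2) + e ^ 2 * Z ^ 2 := by linarith
      _ = (M * A ^ 2 + e ^ 2) * Z ^ 2 := by ring
      _ ≤ ((M * A + 1) ^ 2) * Z ^ 2 := by
        apply mul_le_mul_of_nonneg_right _ (by positivity)
        nlinarith
      _ = ((M * A + 1) * Z) ^ 2 := by ring
  have hs0 : 0 ≤ Real.sqrt (Q + e ^ 2 * Z ^ 2) := Real.sqrt_nonneg _
  have hss : Real.sqrt (Q + e ^ 2 * Z ^ 2) ^ 2 = Q + e ^ 2 * Z ^ 2 := Real.sq_sqrt (by positivity)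
  have hLQ : L - Q ≤ (e + 4 * d * (M * A + 1) + 4 * d) * Z ^ 2 := by
    rw [← hL, ← hQ] at h1
    have h3 : (Real.sqrt (Q + e ^ 2 * Z ^ 2) + 2 * d * Z) ^ 2 = Q + e ^ 2 * Z ^ 2 +
        4 * d * Z * Real.sqrt (Q + e ^ 2 * Z ^ 2) + 4 * d ^ 2 * Z ^ 2 := by
      have : (Real.sqrt (Q + e ^ 2 * Z ^ 2) + 2 * d * Z) ^ 2 =
          Real.sqrt (Q + e ^ 2 * Z ^ 2) ^ 2 + 4 * d * Z * Real.sqrt (Q + e ^ 2 * Z ^ 2) +
            4 * d ^ 2 * Z ^ 2 := by ring
      rw [this, hss]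
    rw [h3] at h1
    have h4 : 4 * d * Z * Real.sqrt (Q + e ^ 2 * Z ^ 2) ≤ 4 * d * Z * ((M * A + 1) * Z) :=
      mul_le_mul_of_nonneg_left hsq (by positivity)
    have h5 : e ^ 2 * Z ^ 2 ≤ e * Z ^ 2 := mul_le_mul_of_nonneg_right he2 (by positivity)
    have h6 : 4 * d ^ 2 * Z ^ 2 ≤ 4 * d * Z ^ 2 :=
      mul_le_mul_of_nonneg_right (by linarith) (by positivity)
    have h7 : (e + 4 * d * (M * A + 1) + 4 * d) * Z ^ 2 =
        e * Z ^ 2 + 4 * d * Z * ((M * A + 1) * Z) + 4 * d * Z ^ 2 := by ring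
    rw [h7]
    linarith
  have hth : -(∑ b, c b * (∑ i, lam b i - n b * c b)) ≤ M * (A * Z * ((320 * e + d) * Z)) := by
    have h3 : |∑ b, c b * (∑ i, lam b i - n b * c b)| ≤ N * (A * Z * ((320 * e + d) * Z)) := by
      calc |∑ b, c b * (∑ i, lam b i - n b * c b)| ≤ ∑ b, |c b * (∑ i, lam b i - n b * c b)| :=
            Finset.abs_sum_le_sum_abs _ _
        _ ≤ ∑ _b : Fin N, A * Z * ((320 * e + d) * Z) := by
            apply Finset.sum_le_sum
            intro b _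
            rw [abs_mul]
            exact mul_le_mul (hc b) (h2 b) (abs_nonneg _) (by positivity)
        _ = N * (A * Z * ((320 * e + d) * Z)) := by simp
    have h4 : (N : ℝ) * (A * Z * ((320 * e + d) * Z)) ≤ M * (A * Z * ((320 * e + d) * Z)) :=
      mul_le_mul_of_nonneg_right hNm (by positivity)
    have h5 := neg_abs_le (∑ b, c b * (∑ i, lam b i - n b * c b))
    linarith
  rw [hid, ← hM]
  have h6 : (L - Q) - 2 * ∑ b, c b * (∑ i, lam b i - n b * c b) ≤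
      (e + 4 * d * (M * A + 1) + 4 * d) * Z ^ 2 + 2 * (M * (A * Z * ((320 * e + d) * Z))) := by
    linarith
  refine h6.trans ?_
  have h7 : (e + 4 * d * (M * A + 1) + 4 * d) * Z ^ 2 + 2 * (M * (A * Z * ((320 * e + d) * Z))) =
      (e + 4 * d * (M * A + 1) + 4 * d + 2 * (M * A) * (320 * e + d)) * Z ^ 2 := by ring
  rw [h7]
  apply mul_le_mul_of_nonneg_right _ (by positivity)
  have h8 : 0 ≤ M * A * e := by positivity
  have h9 : 0 ≤ M * A * d := by positivity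
  have h10 : 0 ≤ M * e := by positivity
  have h11 : 0 ≤ M * d := by positivity
  nlinarith

theorem strip {a : ℂ} (ha : a ≠ 0) {c t R : ℝ} (ht : 0 ≤ t) (hR : 0 ≤ R) (x : ℂ) :
    volume.real {z : ℂ | z ∈ ball x R ∧ |a.re * (z - x).re + a.im * (z - x).im - c| ≤ t} ≤
      4 * R * t / ‖a‖ := by
  have ha0 : 0 < ‖a‖ := norm_pos_iff.mpr ha
  have hac : (‖a‖ : ℂ) ≠ 0 := by exact_mod_cast ha0.ne'
  obtain ⟨u, hu⟩ : ∃ u : Circle, (u : ℂ) = (starRingEnd ℂ) a / ‖a‖ := by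
    refine ⟨⟨(starRingEnd ℂ) a / ‖a‖, ?_⟩, rfl⟩
    rw [← SetLike.mem_coe, Submonoid.coe_unitSphere, mem_sphere_zero_iff_norm, norm_div,
      RCLike.norm_conj, Complex.norm_real, norm_norm]
    exact div_self ha0.ne'
  have hmp : MeasurePreserving (fun z : ℂ => rotation u (z - x)) volume volume :=
    (rotation u).measurePreserving.comp (measurePreserving_sub_right volume x)
  obtain ⟨rect, hrect⟩ : ∃ rect : Set (ℝ × ℝ), rect =
      Icc ((c - t) / ‖a‖) ((c + t) / ‖a‖) ×ˢ Icc (-R) R := ⟨_, rfl⟩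
  have hmp2 : MeasurePreserving (fun z : ℂ => Complex.measurableEquivRealProd (rotation u (z - x)))
      volume volume := Complex.volume_preserving_equiv_real_prod.comp hmp
  have hrm : MeasurableSet rect := by
    rw [hrect]
    exact measurableSet_Icc.prod measurableSet_Icc
  have hsub : {z : ℂ | z ∈ ball x R ∧ |a.re * (z - x).re + a.im * (z - x).im - c| ≤ t} ⊆
      (fun z : ℂ => Complex.measurableEquivRealProd (rotation u (z - x))) ⁻¹' rect := by
    rintro z ⟨hz, hz2⟩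
    rw [mem_preimage, hrect]
    have h1 : (rotation u (z - x) : ℂ) = (starRingEnd ℂ) a / ‖a‖ * (z - x) := by
      rw [rotation_apply, hu]
    have h2 : ((starRingEnd ℂ) a / ‖a‖ * (z - x)).re =
        (a.re * (z - x).re + a.im * (z - x).im) / ‖a‖ := by
      rw [div_mul_eq_mul_div, Complex.div_ofReal_re, Complex.mul_re, Complex.conj_re, Complex.conj_im]
      ring
    have h3 : |((rotation u (z - x) : ℂ)).im| ≤ R := by
      refine (Complex.abs_im_le_norm _).trans ?_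
      rw [LinearIsometryEquiv.norm_map]
      rw [mem_ball, dist_eq_norm] at hz
      exact hz.le
    have h4 : Complex.measurableEquivRealProd (rotation u (z - x)) =
        ((rotation u (z - x) : ℂ).re, (rotation u (z - x) : ℂ).im) := rfl
    rw [h4, mem_prod]
    constructor
    · change (rotation u (z - x) : ℂ).re ∈ Icc ((c - t) / ‖a‖) ((c + t) / ‖a‖)
      rw [h1, h2]
      rw [abs_le] at hz2
      constructor
      · exact div_le_div_of_nonneg_right (by linarith) ha0.le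
      · exact div_le_div_of_nonneg_right (by linarith) ha0.le
    · exact abs_le.mp h3
  have hvol : volume rect = ENNReal.ofReal ((c + t) / ‖a‖ - (c - t) / ‖a‖) * ENNReal.ofReal (R - -R) := by
    rw [hrect, Measure.volume_eq_prod, Measure.prod_prod, Real.volume_Icc, Real.volume_Icc]
  have hpre : volume ((fun z : ℂ => Complex.measurableEquivRealProd (rotation u (z - x))) ⁻¹' rect) =
      volume rect := hmp2.measure_preimage hrm.nullMeasurableSet
  have hfin : volume ((fun z : ℂ => Complex.measurableEquivRealProd (rotation u (z - x))) ⁻¹' rect) ≠ ⊤ := by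
    rw [hpre, hvol]
    exact ENNReal.mul_ne_top ENNReal.ofReal_ne_top ENNReal.ofReal_ne_top
  refine (measureReal_mono hsub hfin).trans ?_
  unfold Measure.real
  rw [hpre, hvol, ENNReal.toReal_mul]
  have h5 : (c + t) / ‖a‖ - (c - t) / ‖a‖ = 2 * t / ‖a‖ := by
    rw [← sub_div]
    congr 1
    ring
  have h6 : 0 ≤ 2 * t / ‖a‖ := by positivity
  rw [h5, ENNReal.toReal_ofReal h6, ENNReal.toReal_ofReal (by linarith)]
  apply le_of_eq
  ring

end H50NA
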