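import Pool.Agent.H50.NA.GI
import Pool.Agent.H50.NA.L3

set_option autoImplicit false

/-!
# Row L4: the thin set estimate

Fix E, a. n_b := finrank (E b) >= 1, m := finrank V, sum n_b = m (internal direct sum), A := max |a_b| + 1, gam := min_{b <> b'} |a_b - a_b'| > 0 (if N <= 1 then every norm is split along E and the set is empty: spec, so nothing to prove).
Constants: C0 := 10 + 1000 m (A+1); choose d in (0,1] with 64 m^4 sqrt(2 C0 d)/(pi gam) <= 1/100 (any small d), and R0 with (2A + 2) R0 <= F.w/8.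
Let G, R = 3G/d <= R0, e with 100 e <= d, u, x be as in the statement, rho := G/d = R/3.
(1) let y in ball x R, |y - x| >= rho, z := y - x, Z := |z|. G = d rho <= d Z. osm E (u x) =: al, osm E (u y) =: be. ds al be <= ds (u x)(u y) + 2G (ds_tri, def_nonneg for x and y: ds(osm, .) <= defect <= G) <= sqrt(Q + e^2Z^2) + 2 d Z,
 Q = sum n_b c_b^2, c_b := a_b.re z.re + a_b.im z.im, |c_b| <= A Z. ds_osm, ds_eq: (ds al be)^2 = sum_b sum_i lam_{b,i}^2, where for each b a common basis v_b of rs (E b)(u x), rs (E b)(u y) is fixed (common) and lam_{b,i} = u y (v_b i) - u x (v_b i).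
 sum_i lam_{b,i} = rd (rs ..)(rs ..) (rd_eq), so |sum_i lam - n_b c_b| <= 320 e Z + G <= (320 e + d) Z. pos_alg: |lam_{b,i} - c_b| <= sqrt(C0 (e+d)) Z <= del2 Z, del2 := sqrt(2 C0 d).
(2) suppose u y is not split along E: spec: b <> b', x1 in E b, x2 in E b' non zero, u y x1 - u y x2 = n w. By spl_val for rs (E b)(u y) (split by v_b): u y x1 = u y (v_b i) + n1 w, same for x2. So u x (v_b i) + lam_{b,i} - u x (v_b' i') - lam_{b',i'} = n' w and
 |(c_b - c_b') - (n' w - u x (v_b i) + u x (v_b' i'))| <= 2 del2 Z <= 2 del2 R. Let S_b be a set of representatives modulo w Z of {u x v : v in E b \ 0}, at most n_b elements (fix one splitting basis f_b of rs (E b)(u x): S_b = {u x (f_b j)}; every value u x (v_b i) is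
 u x (f_b j) + n w by spl_val). So |c_b - c_b' - c| <= 2 del2 R with c = s' - s + n'' w, s in S_b, s' in S_b'. Also |c| <= |c_b - c_b'| + 2 del2 R <= 2 A R + 2R <= w/8 (del2 <= 1): for given s, s' at most one such c (two different ones differ by >= w).
 Hence y lies in one of at most N^2 m^2 <= m^4 strips {|<a_b - a_b', y - x> - c| <= 2 del2 R} intersected with ball x R: strip with t = 2 del2 R: volume <= 4 R 2 del2 R/gam = 8 del2 R^2/gam.
(3) total: volume {not split} <= pi rho^2 + m^4 8 del2 R^2/gam = pi R^2/9 + .. <= pi R^2/4 = volume(ball x R)/4 since 8 m^4 del2/gam <= pi/100.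
-/

namespace H50NA

open MeasureTheory Set Filter Topology Metric

variable {K : Type} [Field K] (F : VF K) {V : Type} [AddCommGroup V] [Module K V] [Module.Finite K V]

theorem L4_ds_nonneg {V : Type} [AddCommGroup V] [Module K V] (al be : V → ℝ) : 0 ≤ ds F al be := by
  unfold ds
  split_ifs
  · exact Real.sqrt_nonneg _
  · exact le_rfl

theorem L4_inner_bd (a z : ℂ) : |a.re * z.re + a.im * z.im| ≤ ‖a‖ * ‖z‖ := by
  have h : a.re * z.re + a.im * z.im = (a * (starRingEnd ℂ) z).re := by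
    simp [Complex.mul_re]
  rw [h]
  refine (Complex.abs_re_le_norm _).trans ?_
  rw [norm_mul, RCLike.norm_conj]

/-- pointwise estimate (1) -/
theorem L4_lam {N : ℕ} {E : Fin N → Submodule K V} (hE : DirectSum.IsInternal E)
    (hne : ∀ b, 1 ≤ Module.finrank K (E b))
    (hsum : ∑ b, Module.finrank K (E b) ≤ Module.finrank K V)
    {a : Fin N → ℂ} {A : ℝ} (hA0 : 0 ≤ A) (hA : ∀ b, ‖a b‖ ≤ A) {al be : V → ℝ} (hal : SN F al)
    (hbe : SN F be) {z : ℂ} {e d G : ℝ} (he : 0 < e) (hed : 100 * e ≤ d) (hd : d ≤ 1)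
    (hG : G ≤ d * ‖z‖) (h1 : rd F (osm E al) al ≤ G) (h2 : rd F (osm E be) be ≤ G)
    (h3 : ds F al be ^ 2 ≤
      ∑ b, nn E b * ((a b).re * z.re + (a b).im * z.im) ^ 2 + e ^ 2 * ‖z‖ ^ 2)
    (h4 : ∀ b, |rd F (rs (E b) al) (rs (E b) be) - nn E b * ((a b).re * z.re + (a b).im * z.im)| ≤
      320 * e * ‖z‖ + G)
    (v : ∀ b, Bs K (E b)) (hv1 : ∀ b, Spl F (v b) (rs (E b) al))
    (hv2 : ∀ b, Spl F (v b) (rs (E b) be)) :
    ∀ b i, |(be (v b i) - al (v b i)) - ((a b).re * z.re + (a b).im * z.im)| ≤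
      Real.sqrt (2 * (10 + 1000 * Module.finrank K V * (A + 1)) * d) * ‖z‖ := by
  have hZ := norm_nonneg z
  have hd0 : 0 < d := by linarith
  have he1 : e ≤ 1 := by linarith
  have hc : ∀ b, |(a b).re * z.re + (a b).im * z.im| ≤ A * ‖z‖ := fun b =>
    (L4_inner_bd (a b) z).trans (mul_le_mul_of_nonneg_right (hA b) hZ)
  have hosa := osm_sn F hE hal
  have hosb := osm_sn F hE hbe
  have hds : ds F (osm E al) (osm E be) ≤
      Real.sqrt (∑ b, nn E b * ((a b).re * z.re + (a b).im * z.im) ^ 2 + e ^ 2 * ‖z‖ ^ 2)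
        + 2 * d * ‖z‖ := by
    have t1 := ds_tri F hosa hal hosb
    have t2 := ds_tri F hal hbe hosb
    have t3 := (def_nonneg F hE hal).2.1
    have t4 := (def_nonneg F hE hbe).2.1
    have t5 := ds_comm F hbe hosb
    have t6 : ds F al be ≤
        Real.sqrt (∑ b, nn E b * ((a b).re * z.re + (a b).im * z.im) ^ 2 + e ^ 2 * ‖z‖ ^ 2) :=
      Real.le_sqrt_of_sq_le h3
    linarith
  have hp1 : ∑ b, ∑ i, (be (v b i) - al (v b i)) ^ 2 ≤
      (Real.sqrt (∑ b, (Module.finrank K (E b) : ℝ) * ((a b).re * z.re + (a b).im * z.im) ^ 2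
        + e ^ 2 * ‖z‖ ^ 2) + 2 * d * ‖z‖) ^ 2 := by
    have q1 : ∑ b, ∑ i, (be (v b i) - al (v b i)) ^ 2 = ds F (osm E al) (osm E be) ^ 2 := by
      rw [ds_osm F hE hal hbe]
      refine Finset.sum_congr rfl fun b _ => ?_
      rw [ds_eq F (hv1 b) (hv2 b)]
      rfl
    rw [q1]
    exact pow_le_pow_left₀ (L4_ds_nonneg F _ _) hds 2
  have hp2 : ∀ b, |∑ i, (be (v b i) - al (v b i)) -
      (Module.finrank K (E b) : ℝ) * ((a b).re * z.re + (a b).im * z.im)| ≤
        (320 * e + d) * ‖z‖ := by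
    intro b
    have q1 : ∑ i, (be (v b i) - al (v b i)) = rd F (rs (E b) al) (rs (E b) be) := by
      rw [rd_eq F (hv1 b) (hv2 b)]
      rfl
    rw [q1]
    refine (h4 b).trans ?_
    linarith
  have hpos := pos_alg (m := Module.finrank K V) (fun b => Module.finrank K (E b)) hne hsum
    (fun b i => be (v b i) - al (v b i)) (fun b => (a b).re * z.re + (a b).im * z.im) hA0 hZ
    he.le he1 hd0.le hd hc hp1 hp2
  intro b i
  have hterm : ((be (v b i) - al (v b i)) - ((a b).re * z.re + (a b).im * z.im)) ^ 2 ≤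
      ∑ b, ∑ i, ((be (v b i) - al (v b i)) - ((a b).re * z.re + (a b).im * z.im)) ^ 2 := by
    have r1 : ((be (v b i) - al (v b i)) - ((a b).re * z.re + (a b).im * z.im)) ^ 2 ≤
        ∑ i, ((be (v b i) - al (v b i)) - ((a b).re * z.re + (a b).im * z.im)) ^ 2 :=
      Finset.single_le_sum (f := fun i => ((be (v b i) - al (v b i)) -
        ((a b).re * z.re + (a b).im * z.im)) ^ 2) (fun _ _ => sq_nonneg _) (Finset.mem_univ i)
    have r2 : ∑ i, ((be (v b i) - al (v b i)) - ((a b).re * z.re + (a b).im * z.im)) ^ 2 ≤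
        ∑ b, ∑ i, ((be (v b i) - al (v b i)) - ((a b).re * z.re + (a b).im * z.im)) ^ 2 :=
      Finset.single_le_sum (f := fun b => ∑ i, ((be (v b i) - al (v b i)) -
        ((a b).re * z.re + (a b).im * z.im)) ^ 2)
        (fun _ _ => Finset.sum_nonneg fun _ _ => sq_nonneg _) (Finset.mem_univ b)
    exact r1.trans r2
  have hC0 : (0 : ℝ) ≤ 10 + 1000 * Module.finrank K V * (A + 1) := by positivity
  have hfin : ((be (v b i) - al (v b i)) - ((a b).re * z.re + (a b).im * z.im)) ^ 2 ≤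
      2 * (10 + 1000 * Module.finrank K V * (A + 1)) * d * ‖z‖ ^ 2 := by
    refine hterm.trans (hpos.trans ?_)
    have hed2 : e + d ≤ 2 * d := by linarith
    have := mul_le_mul_of_nonneg_left hed2 hC0
    have h5 := mul_le_mul_of_nonneg_right this (sq_nonneg ‖z‖)
    linarith
  have hs := Real.abs_le_sqrt hfin
  rw [Real.sqrt_mul (by positivity), Real.sqrt_sq hZ] at hs
  exact hs

theorem thin {N : ℕ} {E : Fin N → Submodule K V} (hE : DirectSum.IsInternal E) (hne : ∀ b, E b ≠ ⊥)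
    {a : Fin N → ℂ} (ha : Function.Injective a) :
    ∃ d : ℝ, 0 < d ∧ d ≤ 1 ∧ ∃ R0 : ℝ, 0 < R0 ∧ ∀ (u : ℂ → V → ℝ) (x : ℂ) (G R e : ℝ), 0 < G →
      R = 3 * G / d → R ≤ R0 → 0 < e → 100 * e ≤ d → (∀ y ∈ ball x R, SN F (u y)) →
      (∀ y ∈ ball x R, rd F (osm E (u y)) (u y) ≤ G) →
      (∀ y ∈ ball x R, ds F (u x) (u y) ^ 2 ≤
        ∑ b, nn E b * ((a b).re * (y - x).re + (a b).im * (y - x).im) ^ 2 + e ^ 2 * dist x y ^ 2) →
      (∀ b, ∀ y ∈ ball x R, |rd F (rs (E b) (u x)) (rs (E b) (u y)) -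
        nn E b * ((a b).re * (y - x).re + (a b).im * (y - x).im)| ≤ 320 * e * dist y x + G) →
      volume.real {y | y ∈ ball x R ∧ ¬ SpD E (u y)} ≤ volume.real (ball x R) / 4 := by
  classical
  have hn1 : ∀ b, 1 ≤ Module.finrank K (E b) := fun b => Submodule.one_le_finrank_iff.2 (hne b)
  have hsum : ∑ b, Module.finrank K (E b) = Module.finrank K V := by
    have e1 := (LinearEquiv.ofBijective (DirectSum.coeLinearMap E) hE).finrank_eq
    rw [← e1, Module.finrank_directSum]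
  obtain ⟨gam, hg0, hg⟩ : ∃ gam : ℝ, 0 < gam ∧ ∀ b b', b ≠ b' → gam ≤ ‖a b - a b'‖ := by
    have hS : 0 ≤ ∑ p : Fin N × Fin N, ‖a p.1 - a p.2‖⁻¹ :=
      Finset.sum_nonneg fun p _ => inv_nonneg.2 (norm_nonneg _)
    refine ⟨(1 + ∑ p : Fin N × Fin N, ‖a p.1 - a p.2‖⁻¹)⁻¹, by positivity, ?_⟩
    intro b b' hbb
    have hpos : 0 < ‖a b - a b'‖ := norm_pos_iff.2 (sub_ne_zero.2 fun h => hbb (ha h))
    rw [inv_le_comm₀ (by linarith) hpos]
    have : ‖a b - a b'‖⁻¹ ≤ ∑ p : Fin N × Fin N, ‖a p.1 - a p.2‖⁻¹ :=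
      Finset.single_le_sum (f := fun p : Fin N × Fin N => ‖a p.1 - a p.2‖⁻¹)
        (fun p _ => inv_nonneg.2 (norm_nonneg _)) (Finset.mem_univ (b, b'))
    linarith
  obtain ⟨A, hA0, hA⟩ : ∃ A : ℝ, 0 ≤ A ∧ ∀ b, ‖a b‖ ≤ A :=
    ⟨∑ b, ‖a b‖, Finset.sum_nonneg fun _ _ => norm_nonneg _, fun b =>
      Finset.single_le_sum (f := fun b => ‖a b‖) (fun _ _ => norm_nonneg _) (Finset.mem_univ b)⟩
  obtain ⟨C0, hC0⟩ : ∃ C0 : ℝ, C0 = 10 + 1000 * Module.finrank K V * (A + 1) := ⟨_, rfl⟩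
  have hC0p : 0 < C0 := by rw [hC0]; positivity
  obtain ⟨M, hM⟩ : ∃ M : ℝ, M = (Module.finrank K V : ℝ) ^ 2 := ⟨_, rfl⟩
  have hM0 : 0 ≤ M := by rw [hM]; positivity
  obtain ⟨q, hq⟩ : ∃ q : ℝ, q = gam / (32 * (M + 1)) := ⟨_, rfl⟩
  have hq0 : 0 < q := by rw [hq]; positivity
  have hw := F.wpos
  refine ⟨min 1 (q ^ 2 / (2 * C0)), lt_min one_pos (by positivity), min_le_left _ _,
    F.w / (8 * (2 * A + 2 * q + 1)), by positivity, ?_⟩
  obtain ⟨d, hd⟩ : ∃ d : ℝ, d = min 1 (q ^ 2 / (2 * C0)) := ⟨_, rfl⟩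
  rw [← hd]
  have hd0 : 0 < d := by rw [hd]; exact lt_min one_pos (by positivity)
  have hd1 : d ≤ 1 := by rw [hd]; exact min_le_left _ _
  have hdq : Real.sqrt (2 * C0 * d) ≤ q := by
    have h1 : d ≤ q ^ 2 / (2 * C0) := by rw [hd]; exact min_le_right _ _
    rw [le_div_iff₀ (by positivity)] at h1
    refine Real.sqrt_le_iff.2 ⟨hq0.le, ?_⟩
    linarith
  intro u x G R e hG hR hRR he hed hsn hdef hds hrd
  have hR0 : 0 < R := by rw [hR]; positivity
  have hx : x ∈ ball x R := mem_ball_self hR0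
  have hfin : ∀ s ⊆ ball x R, volume s ≠ ⊤ := fun s hs =>
    ((measure_mono hs).trans_lt measure_ball_lt_top).ne
  have hf : ∀ b, ∃ f : Bs K (E b), Spl F f (rs (E b) (u x)) := fun b =>
    (rs_sn F (E b) (hsn x hx)).2
  choose f hf using hf
  -- the strips
  obtain ⟨T, hTdef⟩ : ∃ T : ((Σ b, Fin (Module.finrank K (E b))) ×
      (Σ b, Fin (Module.finrank K (E b)))) → Set ℂ, T = fun p => {y | y ∈ ball x R ∧
        p.1.1 ≠ p.2.1 ∧ ∃ n : ℤ, |(a p.1.1 - a p.2.1).re * (y - x).re +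
          (a p.1.1 - a p.2.1).im * (y - x).im -
          (n * F.w - (u x (f p.1.1 p.1.2) - u x (f p.2.1 p.2.2)))| ≤ 2 * q * R} := ⟨_, rfl⟩
  have hT : ∀ p, volume.real (T p) ≤ 8 * q * R ^ 2 / gam := by
    intro p
    rcases (T p).eq_empty_or_nonempty with h0 | ⟨y0, hy0⟩
    · rw [h0, measureReal_empty]
      positivity
    · have hy0' := hy0
      rw [hTdef] at hy0'
      obtain ⟨hy0b, hbb, n0, hn0⟩ := hy0'
      have key : ∀ y ∈ ball x R, ∀ n : ℤ, |(a p.1.1 - a p.2.1).re * (y - x).re +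
          (a p.1.1 - a p.2.1).im * (y - x).im -
          (n * F.w - (u x (f p.1.1 p.1.2) - u x (f p.2.1 p.2.2)))| ≤ 2 * q * R →
          |n * F.w - (u x (f p.1.1 p.1.2) - u x (f p.2.1 p.2.2))| ≤ F.w / 8 := by
        intro y hy n hn
        have h1 := L4_inner_bd (a p.1.1 - a p.2.1) (y - x)
        have h2 : ‖a p.1.1 - a p.2.1‖ ≤ 2 * A := by
          have := norm_sub_le (a p.1.1) (a p.2.1)
          have := hA p.1.1
          have := hA p.2.1
          linarith
        have h3 : ‖y - x‖ ≤ R := by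
          rw [← dist_eq_norm]
          exact (mem_ball.1 hy).le
        have h4 : ‖a p.1.1 - a p.2.1‖ * ‖y - x‖ ≤ 2 * A * R :=
          mul_le_mul h2 h3 (norm_nonneg _) (by positivity)
        have h5 : (8 * (2 * A + 2 * q + 1)) * R ≤ F.w := by
          rw [le_div_iff₀ (by positivity)] at hRR
          linarith
        have h6 := abs_le.1 h1
        have h7 := abs_le.1 hn
        rw [abs_le]
        constructor <;> nlinarith
      have hsub : T p ⊆ {z : ℂ | z ∈ ball x R ∧ |(a p.1.1 - a p.2.1).re * (z - x).re +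
          (a p.1.1 - a p.2.1).im * (z - x).im -
          (n0 * F.w - (u x (f p.1.1 p.1.2) - u x (f p.2.1 p.2.2)))| ≤ 2 * q * R} := by
        intro y hy
        rw [hTdef] at hy
        obtain ⟨hyb, _, n, hn⟩ := hy
        have k1 := key y hyb n hn
        have k0 := key y0 hy0b n0 hn0
        have hnn : n = n0 := by
          by_contra hne'
          have h1 : (1 : ℝ) ≤ |(n : ℝ) - n0| := by
            exact_mod_cast Int.one_le_abs (sub_ne_zero.2 hne')
          have h2 : |((n : ℝ) - n0) * F.w| ≤ F.w / 4 := by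
            have h3 := abs_le.1 k1
            have h4 := abs_le.1 k0
            rw [abs_le]
            constructor <;> linarith
          rw [abs_mul, abs_of_pos hw] at h2
          nlinarith
        refine ⟨hyb, ?_⟩
        rw [← hnn]
        exact hn
      have hpos : 0 < ‖a p.1.1 - a p.2.1‖ := norm_pos_iff.2 (sub_ne_zero.2 fun h => hbb (ha h))
      calc volume.real (T p) ≤ _ := measureReal_mono hsub (hfin _ fun z hz => hz.1)
        _ ≤ 4 * R * (2 * q * R) / ‖a p.1.1 - a p.2.1‖ :=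
            strip (norm_pos_iff.1 hpos) (by positivity) hR0.le x
        _ ≤ 4 * R * (2 * q * R) / gam :=
            div_le_div_of_nonneg_left (by positivity) hg0 (hg _ _ hbb)
        _ = 8 * q * R ^ 2 / gam := by ring
  have hsubset : {y | y ∈ ball x R ∧ ¬ SpD E (u y)} ⊆ ball x (R / 3) ∪ ⋃ p, T p := by
    rintro y ⟨hy, hyn⟩
    by_cases hyr : y ∈ ball x (R / 3)
    · exact Or.inl hyr
    · right
      rw [mem_ball, not_lt] at hyr
      have hZ : dist y x = ‖y - x‖ := dist_eq_norm _ _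
      have hZ' : dist x y = ‖y - x‖ := by rw [dist_comm, hZ]
      have hGd : G ≤ d * ‖y - x‖ := by
        have h1 : R / 3 = G / d := by rw [hR]; ring
        rw [h1, hZ, div_le_iff₀ hd0] at hyr
        linarith
      have hcm : ∀ b, ∃ v : Bs K (E b), Spl F v (rs (E b) (u x)) ∧ Spl F v (rs (E b) (u y)) :=
        fun b => common F (rs_sn F (E b) (hsn x hx)) (rs_sn F (E b) (hsn y hy))
      choose v hv1 hv2 using hcm
      have hlam := L4_lam F hE hn1 hsum.le hA0 hA (hsn x hx) (hsn y hy) (z := y - x) he hed hd1 hGd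
        (hdef x hx) (hdef y hy) (by have := hds y hy; rw [hZ'] at this; exact this)
        (fun b => by have := hrd b y hy; rw [hZ] at this; exact this) v hv1 hv2
      rw [← hC0] at hlam
      obtain ⟨b, b', hbb, x1, hx1, x2, hx2, h10, h20, n, hn⟩ := spec F hE (hsn y hy) hyn
      obtain ⟨i, n1, e1⟩ := spl_val F (hv2 b) (x := ⟨x1, hx1⟩) (by
        intro h
        exact h10 (congrArg Subtype.val h))
      obtain ⟨i', n2, e2⟩ := spl_val F (hv2 b') (x := ⟨x2, hx2⟩) (by
        intro h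
        exact h20 (congrArg Subtype.val h))
      obtain ⟨j, n3, e3⟩ := spl_val F (hf b) (x := v b i) ((v b).ne_zero i)
      obtain ⟨j', n4, e4⟩ := spl_val F (hf b') (x := v b' i') ((v b').ne_zero i')
      simp only [rs] at e1 e2 e3 e4
      refine mem_iUnion.2 ⟨(⟨b, j⟩, ⟨b', j'⟩), ?_⟩
      rw [hTdef]
      refine ⟨hy, hbb, n - n1 + n2 - n3 + n4, ?_⟩
      have l1 := hlam b i
      have l2 := hlam b' i'
      have hzR : ‖y - x‖ ≤ R := by
        rw [← hZ]
        exact (mem_ball.1 hy).le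
      have hb1 : Real.sqrt (2 * C0 * d) * ‖y - x‖ ≤ q * R :=
        mul_le_mul hdq hzR (norm_nonneg _) hq0.le
      have l1' := abs_le.1 (l1.trans hb1)
      have l2' := abs_le.1 (l2.trans hb1)
      have hid : (((n - n1 + n2 - n3 + n4 : ℤ) : ℝ) * F.w - (u x (f b j) - u x (f b' j'))) =
          (u y (v b i) - u x (v b i)) - (u y (v b' i') - u x (v b' i')) := by
        push_cast
        linarith
      show |(a b - a b').re * (y - x).re + (a b - a b').im * (y - x).im -
        (((n - n1 + n2 - n3 + n4 : ℤ) : ℝ) * F.w - (u x (f b j) - u x (f b' j')))| ≤ 2 * q * R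
      rw [hid, abs_le]
      simp only [Complex.sub_re, Complex.sub_im] at l1' l2' ⊢
      constructor <;> nlinarith
  -- the volumes
  have hballv : ∀ r : ℝ, 0 ≤ r → volume.real (ball x r) = Real.pi * r ^ 2 := by
    intro r hr
    rw [measureReal_def, Complex.volume_ball, ENNReal.toReal_mul, ENNReal.toReal_pow,
      ENNReal.toReal_ofReal hr]
    simp [mul_comm]
  have hcard : ∑ p : (Σ b, Fin (Module.finrank K (E b))) × (Σ b, Fin (Module.finrank K (E b))),
      volume.real (T p) ≤ M * (8 * q * R ^ 2 / gam) := by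
    refine (Finset.sum_le_card_nsmul _ _ _ fun p _ => hT p).trans ?_
    rw [nsmul_eq_mul, Finset.card_univ, Fintype.card_prod, Fintype.card_sigma]
    simp only [Fintype.card_fin]
    rw [hsum, hM]
    push_cast
    exact le_of_eq (by ring)
  have hMq : M * (8 * q * R ^ 2 / gam) ≤ R ^ 2 / 4 := by
    rw [hq]
    have h1 : M * (8 * (gam / (32 * (M + 1))) * R ^ 2 / gam) = (M / (M + 1)) * (R ^ 2 / 4) := by
      field_simp
      ring
    rw [h1]
    have h2 : M / (M + 1) ≤ 1 := by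
      rw [div_le_one (by linarith)]
      linarith
    nlinarith [sq_nonneg R]
  have hpi := Real.pi_gt_three
  have hfinal : volume.real {y | y ∈ ball x R ∧ ¬ SpD E (u y)} ≤
      Real.pi * (R / 3) ^ 2 + R ^ 2 / 4 := by
    have hTfin : volume (ball x (R / 3) ∪ ⋃ p, T p) ≠ ⊤ := by
      apply hfin
      refine union_subset (ball_subset_ball (by linarith)) (iUnion_subset fun p => ?_)
      rw [hTdef]
      exact fun z hz => hz.1
    calc volume.real {y | y ∈ ball x R ∧ ¬ SpD E (u y)}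
        ≤ volume.real (ball x (R / 3) ∪ ⋃ p, T p) := measureReal_mono hsubset hTfin
      _ ≤ volume.real (ball x (R / 3)) + volume.real (⋃ p, T p) := measureReal_union_le _ _
      _ ≤ Real.pi * (R / 3) ^ 2 + ∑ p, volume.real (T p) := by
          rw [hballv _ (by linarith)]
          exact add_le_add le_rfl (measureReal_iUnion_fintype_le _)
      _ ≤ Real.pi * (R / 3) ^ 2 + R ^ 2 / 4 := by
          exact add_le_add le_rfl (hcard.trans hMq)
  rw [hballv R hR0.le]
  refine hfinal.trans ?_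
  nlinarith [sq_nonneg R, mul_pos hR0 hR0]

end H50NA
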