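import Pool.Agent.H50.NA.Inst
import Pool.Agent.H50.NA.XI

set_option autoImplicit false

/-!
# Row L5: degree functions along a local minimiser are superharmonic
-/

namespace H50NA

open MeasureTheory Set Filter Topology Metric

variable {K : Type} [Field K] (F : VF K) {V : Type} [AddCommGroup V] [Module K V] [Module.Finite K V]

private theorem L5_ball_ne (x : ℂ) {r : ℝ} (hr : 0 < r) : (volume : Measure ℂ).real (ball x r) ≠ 0 := by
  have h1 : 0 < (volume : Measure ℂ) (ball x r) := measure_ball_pos _ _ hr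
  have h2 : (volume : Measure ℂ) (ball x r) < ⊤ := measure_ball_lt_top
  exact (ENNReal.toReal_pos h1.ne' h2.ne).ne'

private theorem L5_affine {f : ℂ → ℝ} {O : Set ℂ} (hf : SubH f O) {a : ℝ} (ha : 0 ≤ a) (b : ℝ) :
    SubH (fun z => a * f z + b) O := by
  refine ⟨(continuousOn_const.mul hf.cont).add continuousOn_const, ?_⟩
  intro x r R hr hrR hx
  have key : ∀ s : ℝ, 0 < s → s ≤ R →
      (⨍ y in ball x s, (a * f y + b)) = a * (⨍ y in ball x s, f y) + b := by
    intro s hs hsR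
    have h1 : IntegrableOn f (ball x s) := by
      have h2 : ContinuousOn f (closedBall x s) := hf.cont.mono ((closedBall_subset_closedBall hsR).trans hx)
      exact (h2.integrableOn_compact (isCompact_closedBall _ _)).mono_set ball_subset_closedBall
    have h3 : IntegrableOn (fun _ : ℂ => b) (ball x s) :=
      integrableOn_const (measure_ball_lt_top).ne
    rw [setAverage_eq, setAverage_eq, integral_add (h1.const_mul a) h3, integral_const_mul,
      setIntegral_const, smul_eq_mul, smul_eq_mul, smul_eq_mul]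
    have h4 := L5_ball_ne x hs
    field_simp
  rw [key r hr hrR, key R (hr.trans_le hrR) le_rfl]
  have := hf.mono x r R hr hrR hx
  have h5 := mul_le_mul_of_nonneg_left this ha
  linarith

private theorem L5_lim {O : Set ℂ} {f : ℕ → ℂ → ℝ} {G : ℂ → ℝ} (hf : ∀ n, SubH (f n) O)
    (hG : ContinuousOn G O) (hlim : ∀ z ∈ O, Tendsto (fun n => f n z) atTop (𝓝 (G z)))
    (hbd : ∀ C ⊆ O, IsCompact C → ∃ B : ℝ, ∀ n, ∀ z ∈ C, |f n z| ≤ B) : SubH G O := by
  refine ⟨hG, ?_⟩
  intro x r R hr hrR hx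
  have key : ∀ s : ℝ, 0 < s → s ≤ R →
      Tendsto (fun n => ⨍ y in ball x s, f n y) atTop (𝓝 (⨍ y in ball x s, G y)) := by
    intro s hs hsR
    have hsub : closedBall x s ⊆ O := (closedBall_subset_closedBall hsR).trans hx
    obtain ⟨B, hB⟩ := hbd _ hsub (isCompact_closedBall _ _)
    simp only [setAverage_eq]
    apply Tendsto.const_smul
    apply tendsto_integral_of_dominated_convergence (fun _ => B)
    · intro n
      exact ((hf n).cont.mono (ball_subset_closedBall.trans hsub)).aestronglyMeasurable measurableSet_ball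
    · exact integrableOn_const (measure_ball_lt_top).ne
    · intro n
      apply ae_restrict_of_forall_mem measurableSet_ball
      intro z hz
      rw [Real.norm_eq_abs]
      exact hB n z (ball_subset_closedBall hz)
    · apply ae_restrict_of_forall_mem measurableSet_ball
      intro z hz
      exact hlim z (hsub (ball_subset_closedBall hz))
  exact le_of_tendsto_of_tendsto' (key r hr hrR) (key R (hr.trans_le hrR) le_rfl)
    (fun n => (hf n).mono x r R hr hrR hx)

private theorem L5_cont {X : Type} [MetricSpace X] {u : ℂ → X} {O : Set ℂ} (hO : IsOpen O)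
    (hl : Lpo u O) : ContinuousOn u O := by
  intro x hx
  apply ContinuousAt.continuousWithinAt
  obtain ⟨ε, hε, hε'⟩ := Metric.nhds_basis_closedBall.mem_iff.1 (hO.mem_nhds hx)
  obtain ⟨L, hL⟩ := hl _ hε' (isCompact_closedBall _ _)
  rw [ContinuousAt, tendsto_iff_dist_tendsto_zero]
  have h1 : Tendsto (fun y : ℂ => L * dist y x) (𝓝 x) (𝓝 0) := by
    have h2 : Tendsto (fun y : ℂ => L * dist y x) (𝓝 x) (𝓝 (L * dist x x)) :=
      tendsto_const_nhds.mul ((continuous_id.dist continuous_const).tendsto x)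
    simpa using h2
  refine squeeze_zero' (Eventually.of_forall fun _ => dist_nonneg) ?_ h1
  filter_upwards [closedBall_mem_nhds x hε] with y hy
  exact hL y hy x (mem_closedBall_self hε.le)

private theorem L5_cont2 {X : Type} [MetricSpace X] {u : ℂ → X} {O : Set ℂ} (hu : ContinuousOn u O)
    {G : ℂ → ℝ} {c : ℝ} (hG : ∀ z z' : ℂ, |G z - G z'| ≤ c * dist (u z) (u z')) : ContinuousOn G O := by
  intro x hx
  rw [ContinuousWithinAt, tendsto_iff_dist_tendsto_zero]
  have h1 := tendsto_iff_dist_tendsto_zero.1 (hu x hx)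
  have h2 : Tendsto (fun y : ℂ => c * dist (u y) (u x)) (𝓝[O] x) (𝓝 0) := by
    simpa using h1.const_mul c
  refine squeeze_zero (fun _ => dist_nonneg) ?_ h2
  intro y
  rw [Real.dist_eq]
  exact hG y x

private theorem L5_rd_self {U : Type} [AddCommGroup U] [Module K U] [Module.Finite K U]
    {al : U → ℝ} (ha : SN F al) : rd F al al = 0 := by
  obtain ⟨b, hb⟩ := ha.2
  rw [rd_eq F hb hb]
  simp

private theorem L5_rd_neg {U : Type} [AddCommGroup U] [Module K U] [Module.Finite K U]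
    {al be : U → ℝ} (ha : SN F al) (hb : SN F be) : rd F al be = - rd F be al := by
  have h1 := rd_add F ha hb ha
  rw [L5_rd_self F ha] at h1
  linarith

private theorem L5_rd_cont (W : Submodule K V) {u : ℂ → Nm F V} {om : V → ℝ} (ho : SN F om) (z z' : ℂ) :
    |(- rd F (rs W om) (rs W (u z).1)) - (- rd F (rs W om) (rs W (u z').1))| ≤
      Module.finrank K W * dist (u z) (u z') := by
  have h1 := rd_add F (rs_sn F W ho) (rs_sn F W (u z).2) (rs_sn F W (u z').2)
  have h2 : (- rd F (rs W om) (rs W (u z).1)) - (- rd F (rs W om) (rs W (u z').1)) =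
      rd F (rs W (u z).1) (rs W (u z').1) := by
    rw [h1]
    ring
  rw [h2, dist_nm]
  apply rd_le_sup F (rs_sn F W (u z).2) (rs_sn F W (u z').2)
  intro x _
  exact abs_le_ds F (u z).2 (u z').2 (x : V)

private theorem L5_rd_cont' {u : ℂ → Nm F V} {om : V → ℝ} (ho : SN F om) (z z' : ℂ) :
    |(rd F om (u z).1) - (rd F om (u z').1)| ≤
      Module.finrank K V * dist (u z) (u z') := by
  have h1 := rd_add F ho (u z).2 (u z').2
  have h2 : |(rd F om (u z).1) - (rd F om (u z').1)| = |rd F (u z).1 (u z').1| := by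
    rw [h1, abs_sub_comm]
    congr 1
    ring
  rw [h2, dist_nm]
  apply rd_le_sup F (u z).2 (u z').2
  intro x _
  exact abs_le_ds F (u z).2 (u z').2 x

private theorem L5_main {u : ℂ → Nm F V} {O : Set ℂ} (hu : LM u O) {q : V → ℝ} (hq : SN F q)
    {a : ℝ} (ha : 0 ≤ a) (b : ℝ) : SubH (fun z => a * ds F (u z).1 q ^ 2 + b) O := by
  obtain ⟨Q, hQ⟩ : ∃ Q : Nm F V, Q.1 = q := ⟨⟨q, hq⟩, rfl⟩
  have h1 : SubH (fun z => dist (u z) Q ^ 2) O := m2 (npcN F) hu (lm_const Q hu.opn)
  rw [← hQ]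
  exact L5_affine h1 ha b

private theorem L5_bound {u : ℂ → Nm F V} {O : Set ℂ} (hu : LM u O) {om : V → ℝ} (ho : SN F om)
    {C : Set ℂ} (hC : C ⊆ O) (hCc : IsCompact C) : ∃ c : ℝ, 0 ≤ c ∧ ∀ z ∈ C, ds F (u z).1 om ≤ c := by
  obtain ⟨Q, hQ⟩ : ∃ Q : Nm F V, Q.1 = om := ⟨⟨om, ho⟩, rfl⟩
  have h0 : ContinuousOn u C := (L5_cont hu.opn hu.lip).mono hC
  have h1 : ContinuousOn (fun z => dist (u z) Q) C := by
    have h2 : Continuous (fun a : Nm F V => dist a Q) := continuous_id.dist continuous_const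
    exact h2.comp_continuousOn h0
  obtain ⟨c, hc⟩ := hCc.exists_bound_of_continuousOn h1
  rw [← hQ]
  refine ⟨max c 0, le_max_right _ _, ?_⟩
  intro z hz
  have h2 := hc z hz
  rw [Real.norm_eq_abs] at h2
  exact ((le_abs_self _).trans h2).trans (le_max_left _ _)

theorem deg_sup (W : Submodule K V) {u : ℂ → Nm F V} {O : Set ℂ} (hu : LM u O) {om : V → ℝ}
    (ho : SN F om) : SubH (fun z => - rd F (rs W om) (rs W (u z).1)) O := by
  obtain ⟨q, hq1, hq2, hq3⟩ := bus F W ho
  obtain ⟨p, hp⟩ : ∃ p : ℝ, p = (Module.finrank K W : ℝ) := ⟨_, rfl⟩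
  have hp0 : 0 ≤ p := by rw [hp]; exact Nat.cast_nonneg _
  rw [← hp] at hq2 hq3
  refine L5_lim (f := fun n z => (1 / (2 * ((n : ℝ) + 1))) * ds F (u z).1 (q ((n : ℝ) + 1)) ^ 2 +
    (- (p * ((n : ℝ) + 1) ^ 2) / (2 * ((n : ℝ) + 1)))) ?_ ?_ ?_ ?_
  · intro n
    exact L5_main F hu (hq1 _) (by positivity) _
  · exact L5_cont2 (L5_cont hu.opn hu.lip) (fun z z' => L5_rd_cont F W ho z z')
  · intro z hz
    have h1 := hq3 (u z).1 (u z).2
    have h2 : Tendsto (fun n : ℕ => (n : ℝ) + 1) atTop atTop :=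
      tendsto_atTop_add_const_right _ _ tendsto_natCast_atTop_atTop
    have h3 := h1.comp h2
    rw [← L5_rd_neg F (rs_sn F W (u z).2) (rs_sn F W ho)]
    refine h3.congr ?_
    intro n
    simp only [Function.comp_apply]
    ring
  · intro C hC hCc
    obtain ⟨c, hc0, hc⟩ := L5_bound F hu ho hC hCc
    refine ⟨c * (Real.sqrt p + c), ?_⟩
    intro n z hz
    obtain ⟨R, hR⟩ : ∃ R : ℝ, R = (n : ℝ) + 1 := ⟨_, rfl⟩
    have hR1 : 1 ≤ R := by rw [hR]; linarith [(Nat.cast_nonneg n : (0 : ℝ) ≤ n)]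
    rw [← hR]
    have hcz := hc z hz
    obtain ⟨d0, hd0⟩ : ∃ d0 : ℝ, d0 = ds F om (q R) := ⟨_, rfl⟩
    obtain ⟨d1, hd1⟩ : ∃ d1 : ℝ, d1 = ds F (u z).1 (q R) := ⟨_, rfl⟩
    obtain ⟨e, he⟩ : ∃ e : ℝ, e = ds F (u z).1 om := ⟨_, rfl⟩
    have h0 : 0 ≤ d0 := by rw [hd0]; exact ds_nonneg F _ _
    have h1 : 0 ≤ d1 := by rw [hd1]; exact ds_nonneg F _ _
    have t1 : d1 ≤ e + d0 := by
      rw [hd1, he, hd0]
      exact ds_tri F (u z).2 ho (hq1 R)
    have t2 : d0 ≤ e + d1 := by
      rw [hd1, he, hd0, ds_comm F (u z).2 ho]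
      exact ds_tri F ho (u z).2 (hq1 R)
    have hd0R : d0 = Real.sqrt p * R := by
      have h2 : d0 ^ 2 = (Real.sqrt p * R) ^ 2 := by
        rw [hd0, hq2, mul_pow, Real.sq_sqrt hp0]
      exact (pow_left_inj₀ h0 (by positivity) two_ne_zero).1 h2
    have hsq : p * R ^ 2 = d0 ^ 2 := by rw [hd0, hq2]
    rw [← hd1, hsq]
    rw [← he] at hcz
    have e1 : 1 / (2 * R) * d1 ^ 2 + - (d0 ^ 2) / (2 * R) = (d1 - d0) * (d1 + d0) / (2 * R) := by ring
    rw [e1, abs_div, abs_mul, abs_of_nonneg (by positivity : 0 ≤ d1 + d0),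
      abs_of_pos (by positivity : 0 < 2 * R), div_le_iff₀ (by positivity)]
    have h3 : |d1 - d0| ≤ c := by
      rw [abs_le]
      constructor <;> linarith
    have h4 : d1 + d0 ≤ (Real.sqrt p + c) * (2 * R) := by
      have h5 : c ≤ c * R := le_mul_of_one_le_right hc0 hR1
      nlinarith [Real.sqrt_nonneg p]
    calc |d1 - d0| * (d1 + d0) ≤ c * ((Real.sqrt p + c) * (2 * R)) :=
          mul_le_mul h3 h4 (by positivity) hc0
      _ = c * (Real.sqrt p + c) * (2 * R) := by ring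

private theorem L5_trl0 {al : V → ℝ} (h : al 0 = 0) : trl al 0 = al := by
  funext x
  unfold trl
  split_ifs with hx
  · rw [hx, h]
  · rw [add_zero]

private theorem L5_trl {u : ℂ → Nm F V} {om : V → ℝ} (ho : SN F om) (R : ℝ) (z : ℂ) :
    ds F (u z).1 (trl om R) ^ 2 =
      ds F (u z).1 om ^ 2 + 2 * R * rd F (u z).1 om + Module.finrank K V * R ^ 2 := by
  have h1 := ds_trl F (u z).2 ho 0 R
  rw [L5_trl0 (u z).2.1, sub_zero] at h1
  exact h1

private theorem L5_top {u : ℂ → Nm F V} {O : Set ℂ} (hu : LM u O) {om : V → ℝ} (ho : SN F om)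
    {σ : ℝ} (hσ : |σ| = 1) : SubH (fun z => - (σ * rd F om (u z).1)) O := by
  have hσ2 : σ ^ 2 = 1 := by rw [← sq_abs, hσ, one_pow]
  refine L5_lim (f := fun n z => (1 / (2 * ((n : ℝ) + 1))) * ds F (u z).1 (trl om (σ * ((n : ℝ) + 1))) ^ 2 +
    (- (Module.finrank K V * ((n : ℝ) + 1) ^ 2) / (2 * ((n : ℝ) + 1)))) ?_ ?_ ?_ ?_
  · intro n
    exact L5_main F hu (trl_sn F ho _) (by positivity) _
  · refine L5_cont2 (c := Module.finrank K V) (L5_cont hu.opn hu.lip) (fun z z' => ?_)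
    have h1 := L5_rd_cont' F (u := u) ho z z'
    have h2 : -(σ * rd F om (u z).1) - -(σ * rd F om (u z').1) =
      -(σ * (rd F om (u z).1 - rd F om (u z').1)) := by ring
    rw [h2, abs_neg, abs_mul, hσ, one_mul]
    exact h1
  · intro z hz
    have h0 : ∀ n : ℕ, (1 / (2 * ((n : ℝ) + 1))) * ds F (u z).1 (trl om (σ * ((n : ℝ) + 1))) ^ 2 +
        (- (Module.finrank K V * ((n : ℝ) + 1) ^ 2) / (2 * ((n : ℝ) + 1))) =
        (ds F (u z).1 om ^ 2 / 2) * (1 / ((n : ℝ) + 1)) + -(σ * rd F om (u z).1) := by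
      intro n
      have hn : (n : ℝ) + 1 ≠ 0 := by positivity
      rw [L5_trl F ho, mul_pow, hσ2, L5_rd_neg F (u z).2 ho]
      field_simp
      ring
    have h1 := (tendsto_one_div_add_atTop_nhds_zero_nat (𝕜 := ℝ)).const_mul (ds F (u z).1 om ^ 2 / 2)
    rw [mul_zero] at h1
    have h2 := h1.add_const (-(σ * rd F om (u z).1))
    rw [zero_add] at h2
    exact h2.congr (fun n => (h0 n).symm)
  · intro C hC hCc
    obtain ⟨c, hc0, hc⟩ := L5_bound F hu ho hC hCc
    refine ⟨c ^ 2 + Module.finrank K V * c, ?_⟩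
    intro n z hz
    have h0 : (1 / (2 * ((n : ℝ) + 1))) * ds F (u z).1 (trl om (σ * ((n : ℝ) + 1))) ^ 2 +
        (- (Module.finrank K V * ((n : ℝ) + 1) ^ 2) / (2 * ((n : ℝ) + 1))) =
        ds F (u z).1 om ^ 2 * (1 / (2 * ((n : ℝ) + 1))) + -(σ * rd F om (u z).1) := by
      have hn : (n : ℝ) + 1 ≠ 0 := by positivity
      rw [L5_trl F ho, mul_pow, hσ2, L5_rd_neg F (u z).2 ho]
      field_simp
      ring
    rw [h0]
    have h1 := hc z hz
    have h2 : 0 ≤ ds F (u z).1 om := ds_nonneg F _ _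
    have h3 : |rd F om (u z).1| ≤ Module.finrank K V * c := by
      rw [L5_rd_neg F ho (u z).2, abs_neg]
      refine (rd_le_sup F (u z).2 ho (c := ds F (u z).1 om) (fun x _ => abs_le_ds F (u z).2 ho x)).trans ?_
      exact mul_le_mul_of_nonneg_left h1 (Nat.cast_nonneg _)
    have h4 : |ds F (u z).1 om ^ 2 * (1 / (2 * ((n : ℝ) + 1)))| ≤ c ^ 2 := by
      rw [abs_of_nonneg (by positivity)]
      have h5 : 1 / (2 * ((n : ℝ) + 1)) ≤ 1 := by
        rw [div_le_one (by positivity)]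
        linarith [(Nat.cast_nonneg n : (0 : ℝ) ≤ n)]
      calc ds F (u z).1 om ^ 2 * (1 / (2 * ((n : ℝ) + 1))) ≤ c ^ 2 * 1 := by
            apply mul_le_mul (pow_le_pow_left₀ h2 h1 2) h5 (by positivity) (by positivity)
        _ = c ^ 2 := mul_one _
    refine (abs_add_le _ _).trans (add_le_add h4 ?_)
    rw [abs_neg, abs_mul, hσ, one_mul]
    exact h3

theorem deg_top {u : ℂ → Nm F V} {O : Set ℂ} (hu : LM u O) {om : V → ℝ}
    (ho : SN F om) : SubH (fun z => rd F om (u z).1) O ∧ SubH (fun z => - rd F om (u z).1) O := by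
  constructor
  · have h1 := L5_top F hu ho (σ := -1) (by simp)
    simpa using h1
  · have h1 := L5_top F hu ho (σ := 1) (by simp)
    simpa using h1

end H50NA
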