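import Pool.Agent.H50.NA.L2
import Pool.Agent.H50.NA.L4
import Pool.Agent.H50.NA.L5

set_option autoImplicit false

/-!
# Row L6: the main lemma

d, R0 from thin; e0 := d/(1000 (m+1)), m = finrank V, r0 := R0. Let u, x0, r be given. O := ball x0 r.
h b z := rd (rs (E b)(u x0))(rs (E b)(u z)) - nn E b (a_b.re (z-x0).re + a_b.im (z-x0).im);  g z := rd (osm E (u z))(u z).  e := e0.
* SubH (-h b): deg_sup with W = E b, om = u x0, plus an affine function (averages of affine functions over balls are the value at the centre: SubH of affine functions; sums of SubH are SubH).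
* g z = rd (osm E (u z))(u z) = rd (osm E (u z))(osm E (u x0)) + rd (osm E (u x0))(u x0) + rd (u x0)(u z) = - sum_b rd (rs (E b)(u x0))(rs (E b)(u z)) + g x0 + rd (u x0)(u z)  (rd_add, rd_osm, antisymmetry). So g is SubH (sum of SubH functions) and
  h b + g = rd (u x0)(u z) - sum_{b' <> b} rd (rs (E b')(u x0))(rs (E b')(u z)) + const - affine is SubH.
* g >= 0 (def_nonneg), g <= e r by (ii), |h b| <= e r by (i).
* th: for x, G, R as in iter: R <= r <= r0 = R0 (ball x R in ball x0 r; R > 0). Apply thin to y -> (u y).1, e: the second bound is (iii), the third: h b y - h b x = rd (rs (u x))(rs (u y)) - nn (..(y-x)..) (rd_add). Not SpD iff 0 < g (def_nonneg).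
* iter: g = 0 on ball x0 (3/4 r), so SpD (def_nonneg).
-/

set_option autoImplicit false

/-!
# Row L6: the main lemma

d, R0 from thin; e0 := d/(1000 (m+1)), m = finrank V, r0 := R0. Let u, x0, r be given. O := ball x0 r.
h b z := rd (rs (E b)(u x0))(rs (E b)(u z)) - nn E b (a_b.re (z-x0).re + a_b.im (z-x0).im);  g z := rd (osm E (u z))(u z).  e := e0.
* SubH (-h b): deg_sup with W = E b, om = u x0, plus an affine function (averages of affine functions over balls are the value at the centre: SubH of affine functions; sums of SubH are SubH).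
* g z = rd (osm E (u z))(u z) = rd (osm E (u z))(osm E (u x0)) + rd (osm E (u x0))(u x0) + rd (u x0)(u z) = - sum_b rd (rs (E b)(u x0))(rs (E b)(u z)) + g x0 + rd (u x0)(u z)  (rd_add, rd_osm, antisymmetry). So g is SubH (sum of SubH functions) and
  h b + g = rd (u x0)(u z) - sum_{b' <> b} rd (rs (E b')(u x0))(rs (E b')(u z)) + const - affine is SubH.
* g >= 0 (def_nonneg), g <= e r by (ii), |h b| <= e r by (i).
* th: for x, G, R as in iter: R <= r <= r0 = R0 (ball x R in ball x0 r; R > 0). Apply thin to y -> (u y).1, e: the second bound is (iii), the third: h b y - h b x = rd (rs (u x))(rs (u y)) - nn (..(y-x)..) (rd_add). Not SpD iff 0 < g (def_nonneg).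
* iter: g = 0 on ball x0 (3/4 r), so SpD (def_nonneg).
-/

namespace H50NA

open MeasureTheory Set Filter Topology Metric

private theorem L6_int {f : ℂ → ℝ} {O : Set ℂ} (hf : ContinuousOn f O) {x : ℂ} {r : ℝ}
    (h : closedBall x r ⊆ O) : IntegrableOn f (ball x r) :=
  ((hf.mono h).integrableOn_compact (isCompact_closedBall x r)).mono_set ball_subset_closedBall

private theorem L6_avg_add {f g : ℂ → ℝ} {s : Set ℂ} (hf : IntegrableOn f s)
    (hg : IntegrableOn g s) :
    (⨍ y in s, (f y + g y)) = (⨍ y in s, f y) + ⨍ y in s, g y := by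
  rw [setAverage_eq, setAverage_eq, setAverage_eq, integral_add hf hg, smul_add]

private theorem L6_add {f g : ℂ → ℝ} {O : Set ℂ} (hf : SubH f O) (hg : SubH g O) :
    SubH (fun z => f z + g z) O := by
  refine ⟨hf.cont.add hg.cont, ?_⟩
  intro x r R hr hR hx
  have hx' : closedBall x r ⊆ O := (closedBall_subset_closedBall hR).trans hx
  rw [L6_avg_add (L6_int hf.cont hx') (L6_int hg.cont hx'),
    L6_avg_add (L6_int hf.cont hx) (L6_int hg.cont hx)]
  exact add_le_add (hf.mono x r R hr hR hx) (hg.mono x r R hr hR hx)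

private theorem L6_aff_avg (c p q : ℝ) (x : ℂ) {r : ℝ} (hr : 0 < r) :
    (⨍ y in ball x r, (c + p * y.re + q * y.im)) = c + p * x.re + q * x.im := by
  have hcont : Continuous fun y : ℂ => c + p * y.re + q * y.im := by fun_prop
  have hi : IntegrableOn (fun y : ℂ => c + p * y.re + q * y.im) (ball x r) :=
    L6_int (O := univ) hcont.continuousOn (subset_univ _)
  have hmp : MeasurePreserving (fun y : ℂ => (x + x) - y) volume volume :=
    Measure.measurePreserving_sub_left volume (x + x)
  have hme : MeasurableEmbedding (fun y : ℂ => (x + x) - y) :=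
    (Homeomorph.subLeft (x + x)).measurableEmbedding
  have hpre : (fun y : ℂ => (x + x) - y) ⁻¹' ball x r = ball x r := by
    ext y
    simp only [mem_preimage, mem_ball, dist_eq_norm]
    rw [show x + x - y - x = -(y - x) by ring, norm_neg]
  have h1 : (∫ y in ball x r, (c + p * ((x + x) - y).re + q * ((x + x) - y).im)) =
      ∫ y in ball x r, (c + p * y.re + q * y.im) := by
    have h2 := hmp.setIntegral_preimage_emb hme (fun y : ℂ => c + p * y.re + q * y.im) (ball x r)
    rw [hpre] at h2
    exact h2
  have hcont2 : Continuous fun y : ℂ => c + p * ((x + x) - y).re + q * ((x + x) - y).im := by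
    have h3 : Continuous fun y : ℂ => (x + x) - y := by fun_prop
    exact hcont.comp h3
  have hi2 : IntegrableOn (fun y : ℂ => c + p * ((x + x) - y).re + q * ((x + x) - y).im)
      (ball x r) := L6_int (O := univ) hcont2.continuousOn (subset_univ _)
  have h4 : (∫ y in ball x r, (c + p * ((x + x) - y).re + q * ((x + x) - y).im)) +
      (∫ y in ball x r, (c + p * y.re + q * y.im)) =
      volume.real (ball x r) * (2 * (c + p * x.re + q * x.im)) := by
    rw [← integral_add hi2 hi]
    have h5 : (fun y : ℂ => (c + p * ((x + x) - y).re + q * ((x + x) - y).im) +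
        (c + p * y.re + q * y.im)) = fun _ : ℂ => 2 * (c + p * x.re + q * x.im) := by
      funext y
      simp only [Complex.sub_re, Complex.add_re, Complex.sub_im, Complex.add_im]
      ring
    rw [h5, setIntegral_const, smul_eq_mul]
  have hv : 0 < volume.real (ball x r) := by
    rw [measureReal_def]
    exact ENNReal.toReal_pos (measure_ball_pos volume x hr).ne' measure_ball_lt_top.ne
  rw [setAverage_eq, smul_eq_mul]
  rw [h1] at h4
  have h6 : (∫ y in ball x r, (c + p * y.re + q * y.im)) =
      volume.real (ball x r) * (c + p * x.re + q * x.im) := by linarith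
  rw [h6, ← mul_assoc, inv_mul_cancel₀ hv.ne', one_mul]

private theorem L6_aff (c p q : ℝ) (O : Set ℂ) :
    SubH (fun y : ℂ => c + p * y.re + q * y.im) O := by
  refine ⟨?_, ?_⟩
  · exact (by fun_prop : Continuous fun y : ℂ => c + p * y.re + q * y.im).continuousOn
  · intro x r R hr hR _
    rw [L6_aff_avg c p q x hr, L6_aff_avg c p q x (hr.trans_le hR)]

private theorem L6_sum {ι : Type} (s : Finset ι) {f : ι → ℂ → ℝ} {O : Set ℂ}
    (h : ∀ i ∈ s, SubH (f i) O) : SubH (fun z => ∑ i ∈ s, f i z) O := by
  classical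
  induction s using Finset.induction_on with
  | empty =>
    have h1 := L6_aff 0 0 0 O
    simpa using h1
  | insert i s hi ih =>
    have h1 : (fun z => ∑ j ∈ insert i s, f j z) = fun z => f i z + ∑ j ∈ s, f j z := by
      funext z
      rw [Finset.sum_insert hi]
    rw [h1]
    exact L6_add (h i (Finset.mem_insert_self i s))
      (ih fun j hj => h j (Finset.mem_insert_of_mem hj))

private theorem L6_rad {x y : ℂ} {R r : ℝ} (hR : 0 < R) (hr : 0 < r) (h : ball x R ⊆ ball y r) :
    R ≤ r := by
  have h1 : closedBall x R ⊆ closedBall y r := by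
    rw [← closure_ball x hR.ne', ← closure_ball y hr.ne']
    exact closure_mono h
  have h2 : x + (R : ℂ) ∈ closedBall y r := h1 (by
    rw [mem_closedBall, dist_eq_norm, add_sub_cancel_left, Complex.norm_real, Real.norm_eq_abs,
      abs_of_pos hR])
  have h3 : x - (R : ℂ) ∈ closedBall y r := h1 (by
    rw [mem_closedBall, dist_eq_norm, sub_sub_cancel_left, norm_neg, Complex.norm_real,
      Real.norm_eq_abs, abs_of_pos hR])
  rw [mem_closedBall] at h2 h3
  have h4 : dist (x + (R : ℂ)) (x - (R : ℂ)) = 2 * R := by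
    rw [dist_eq_norm, show x + (R : ℂ) - (x - (R : ℂ)) = ((2 * R : ℝ) : ℂ) by push_cast; ring,
      Complex.norm_real, Real.norm_eq_abs, abs_of_pos (by linarith)]
  have h5 := dist_triangle_right (x + (R : ℂ)) (x - (R : ℂ)) y
  linarith

variable {K : Type} [Field K] (F : VF K) {V : Type} [AddCommGroup V] [Module K V] [Module.Finite K V]

private theorem L6_self {al : V → ℝ} (ha : SN F al) : rd F al al = 0 := by
  have h := rd_add F ha ha ha
  linarith

private theorem L6_anti {al be : V → ℝ} (ha : SN F al) (hb : SN F be) :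
    rd F be al = - rd F al be := by
  have h := rd_add F ha hb ha
  rw [L6_self F ha] at h
  linarith

private theorem L6_g {N : ℕ} {E : Fin N → Submodule K V} (hE : DirectSum.IsInternal E)
    {al om : V → ℝ} (ha : SN F al) (ho : SN F om) :
    rd F (osm E al) al = rd F om al + (∑ b, - rd F (rs (E b) om) (rs (E b) al)) +
      rd F (osm E om) om := by
  have h1 := rd_add F (osm_sn F hE ha) (osm_sn F hE ho) ha
  have h2 := rd_add F (osm_sn F hE ho) ho ha
  have h3 := L6_anti F (osm_sn F hE ho) (osm_sn F hE ha)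
  have h4 := rd_osm F hE ho ha
  rw [Finset.sum_neg_distrib]
  linarith

theorem main_lemma {N : ℕ} {E : Fin N → Submodule K V} (hE : DirectSum.IsInternal E)
    (hne : ∀ b, E b ≠ ⊥) {a : Fin N → ℂ} (ha : Function.Injective a) :
    ∃ e0 : ℝ, 0 < e0 ∧ ∃ r0 : ℝ, 0 < r0 ∧ ∀ (u : ℂ → Nm F V) (x0 : ℂ) (r : ℝ), 0 < r → r ≤ r0 →
      LM u (ball x0 r) →
      (∀ b, ∀ y ∈ ball x0 r, |rd F (rs (E b) (u x0).1) (rs (E b) (u y).1) -
        nn E b * ((a b).re * (y - x0).re + (a b).im * (y - x0).im)| ≤ e0 * r) →
      (∀ y ∈ ball x0 r, rd F (osm E (u y).1) (u y).1 ≤ e0 * r) →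
      (∀ x ∈ ball x0 r, ∀ y ∈ ball x0 r, dist (u x) (u y) ^ 2 ≤
        ∑ b, nn E b * ((a b).re * (y - x).re + (a b).im * (y - x).im) ^ 2 + e0 ^ 2 * dist x y ^ 2) →
      ∀ y ∈ ball x0 (3 / 4 * r), SpD E (u y).1 := by
  obtain ⟨d, hd, hd1, R0, hR0, hthin⟩ := thin F hE hne ha
  refine ⟨d / 1000, by positivity, R0, hR0, ?_⟩
  intro u x0 r hr hrR hLM hi hii hiii
  have he : 0 < d / 1000 := by positivity
  have hed : 100 * (d / 1000) ≤ d := by linarith
  -- the functions
  have hsub : ∀ b, SubH (fun z => - rd F (rs (E b) (u x0).1) (rs (E b) (u z).1)) (ball x0 r) :=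
    fun b => deg_sup F (E b) hLM (u x0).2
  have htop := (deg_top F hLM (u x0).2).1
  have hgz : ∀ z, rd F (osm E (u z).1) (u z).1 = rd F (u x0).1 (u z).1 +
      (∑ b, - rd F (rs (E b) (u x0).1) (rs (E b) (u z).1)) + rd F (osm E (u x0).1) (u x0).1 :=
    fun z => L6_g F hE (u z).2 (u x0).2
  have key := iter (N := N)
    (h := fun b z => rd F (rs (E b) (u x0).1) (rs (E b) (u z).1) -
        nn E b * ((a b).re * (z - x0).re + (a b).im * (z - x0).im))
    (g := fun z => rd F (osm E (u z).1) (u z).1) (x0 := x0) (r := r) (e := d / 1000) (d := d)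
    hr he hed ?_ ?_ ?_ ?_ hii hi ?_
  · intro y hy
    have h1 := key y hy
    exact (def_nonneg F hE (u y).2).2.2.1 h1
  · -- SubH of minus h
    intro b
    have h1 := L6_add (hsub b) (L6_aff (-(nn E b * ((a b).re * x0.re + (a b).im * x0.im)))
      (nn E b * (a b).re) (nn E b * (a b).im) (ball x0 r))
    have h2 : (fun z : ℂ => -(rd F (rs (E b) (u x0).1) (rs (E b) (u z).1) -
        nn E b * ((a b).re * (z - x0).re + (a b).im * (z - x0).im))) = fun z : ℂ =>
        - rd F (rs (E b) (u x0).1) (rs (E b) (u z).1) +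
        (-(nn E b * ((a b).re * x0.re + (a b).im * x0.im)) + nn E b * (a b).re * z.re +
          nn E b * (a b).im * z.im) := by
      funext z
      rw [Complex.sub_re, Complex.sub_im]
      ring
    rw [h2]
    exact h1
  · -- SubH of h plus g
    intro b
    have h1 : SubH (fun z => ∑ b' ∈ Finset.univ.erase b,
        - rd F (rs (E b') (u x0).1) (rs (E b') (u z).1)) (ball x0 r) :=
      L6_sum _ fun b' _ => hsub b'
    have h3 := L6_add (L6_add htop h1)
      (L6_aff (rd F (osm E (u x0).1) (u x0).1 +
        nn E b * ((a b).re * x0.re + (a b).im * x0.im))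
      (-(nn E b * (a b).re)) (-(nn E b * (a b).im)) (ball x0 r))
    have h2 : (fun z : ℂ => (rd F (rs (E b) (u x0).1) (rs (E b) (u z).1) -
        nn E b * ((a b).re * (z - x0).re + (a b).im * (z - x0).im)) +
        rd F (osm E (u z).1) (u z).1) = fun z : ℂ =>
        (rd F (u x0).1 (u z).1 + ∑ b' ∈ Finset.univ.erase b,
        - rd F (rs (E b') (u x0).1) (rs (E b') (u z).1)) +
        ((rd F (osm E (u x0).1) (u x0).1 +
        nn E b * ((a b).re * x0.re + (a b).im * x0.im)) + (-(nn E b * (a b).re)) * z.re +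
          (-(nn E b * (a b).im)) * z.im) := by
      funext z
      rw [hgz z, Complex.sub_re, Complex.sub_im,
        ← Finset.add_sum_erase Finset.univ _ (Finset.mem_univ b)]
      ring
    rw [h2]
    exact h3
  · -- SubH of g
    have h3 := L6_add (L6_add htop (L6_sum Finset.univ fun b' _ => hsub b'))
      (L6_aff (rd F (osm E (u x0).1) (u x0).1) 0 0 (ball x0 r))
    have h2 : (fun z : ℂ => rd F (osm E (u z).1) (u z).1) = fun z : ℂ =>
        (rd F (u x0).1 (u z).1 + ∑ b' ∈ Finset.univ,
        - rd F (rs (E b') (u x0).1) (rs (E b') (u z).1)) +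
        (rd F (osm E (u x0).1) (u x0).1 + 0 * z.re + 0 * z.im) := by
      funext z
      rw [hgz z]
      ring
    rw [h2]
    exact h3
  · intro z _
    exact (def_nonneg F hE (u z).2).1
  · -- thinness
    intro x G R hG hRG hxR hgG hhG
    have hR : 0 < R := by
      rw [hRG]
      positivity
    have hRr : R ≤ r := L6_rad hR hr hxR
    have hx : x ∈ ball x0 r := hxR (mem_ball_self hR)
    have h1 := hthin (fun y => (u y).1) x G R (d / 1000) hG hRG (hRr.trans hrR) he hed
      (fun y _ => (u y).2) (fun y hy => hgG y hy) (fun y hy => hiii x hx y (hxR hy)) ?_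
    · have h2 : {z | z ∈ ball x R ∧ 0 < rd F (osm E (u z).1) (u z).1} =
          {y | y ∈ ball x R ∧ ¬ SpD E (u y).1} := by
        ext z
        have h3 := def_nonneg F hE (u z).2
        constructor
        · rintro ⟨h4, h5⟩
          exact ⟨h4, fun h6 => h5.ne' (h3.2.2.2 h6)⟩
        · rintro ⟨h4, h5⟩
          exact ⟨h4, lt_of_le_of_ne h3.1 fun h6 => h5 (h3.2.2.1 h6.symm)⟩
      rw [h2]
      exact h1
    · intro b y hy
      have h2 := hhG b y hy
      have h3 := rd_add F (rs_sn F (E b) (u x0).2) (rs_sn F (E b) (u x).2) (rs_sn F (E b) (u y).2)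
      have h4 : rd F (rs (E b) (u x).1) (rs (E b) (u y).1) -
          nn E b * ((a b).re * (y - x).re + (a b).im * (y - x).im) =
          (rd F (rs (E b) (u x0).1) (rs (E b) (u y).1) -
          nn E b * ((a b).re * (y - x0).re + (a b).im * (y - x0).im)) -
          (rd F (rs (E b) (u x0).1) (rs (E b) (u x).1) -
          nn E b * ((a b).re * (x - x0).re + (a b).im * (x - x0).im)) := by
        rw [h3]
        simp only [Complex.sub_re, Complex.sub_im]
        ring
      rw [h4]
      exact h2

end H50NA
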