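import Pool.Agent.H50.NA.G8

set_option autoImplicit false

/-!
# Interface of block G (metric part)
-/

namespace H50NA

open MeasureTheory Set Filter Topology

noncomputable section

variable {K : Type} [Field K] (F : VF K) {V : Type} [AddCommGroup V] [Module K V] [Module.Finite K V]

theorem ds_tri {al be ga : V → ℝ} (ha : SN F al) (hb : SN F be) (hg : SN F ga) :
    ds F al ga ≤ ds F al be + ds F be ga := tri8 F ha hb hg

theorem ds_cn {al be ga : V → ℝ} (ha : SN F al) (hb : SN F be) (hg : SN F ga) {t : ℝ} (h0 : 0 ≤ t)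
    (h1 : t ≤ 1) : ds F (gmf F al be t) ga ^ 2 ≤
      (1 - t) * ds F al ga ^ 2 + t * ds F be ga ^ 2 - t * (1 - t) * ds F al be ^ 2 :=
  cn8 F ha hb hg h0 h1

end

end H50NA
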