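import Pool.Agent.H50.NA.Met

set_option autoImplicit false

/-!
# Additivity of the relative degree
-/

namespace H50NA

open MeasureTheory Set Filter Topology

noncomputable section

variable {K : Type} [Field K] (F : VF K) {V : Type} [AddCommGroup V] [Module K V] [Module.Finite K V]

theorem rda {al be ga : V → ℝ} (ha : SN F al) (hb : SN F be) (hg : SN F ga) :
    rd F al ga = rd F al be + rd F be ga := by
  obtain ⟨b1, h1a, h1b⟩ := common F ha hb
  obtain ⟨b2, h2b, h2c⟩ := common F hb hg
  obtain ⟨b3, h3a, h3c⟩ := common F ha hg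
  rw [rd_eq F h1a h1b, rd_eq F h2b h2c, rd_eq F h3a h3c]
  have e1 := (had_eq F hb.1 h1b b2).2 h2b
  have e2 := (had_eq F hg.1 h2c b3).2 h3c
  have e3 := (had_eq F ha.1 h1a b3).2 h3a
  have e4 : F.v (b1.toMatrix b3).det = F.v (b1.toMatrix b2).det + F.v (b2.toMatrix b3).det := by
    rw [← F.mul _ _ (det_ne b1 b2) (det_ne b2 b3), ← Matrix.det_mul,
      Module.Basis.toMatrix_mul_toMatrix]
  simp only [Finset.sum_sub_distrib]
  linarith

end

end H50NA
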