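import Pool.Agent.H50.NA.S3b
import Pool.Agent.H98.NX.Ek

set_option autoImplicit false

/-!
# Row S3 (sharp convexity in a chart, almost everywhere).  COMPLETE PROOFS.

* s3_a: on a compact C inside O: Lipschitz constants L of u, L' of w on C; v_lip.
* Tools: for q : R x R → R differentiable at z and a direction t: (q (z + h t) - q z)/h → fderiv q z t as h → 0, h ≠ 0 (HasFDerivAt.hasLineDerivAt, HasLineDerivAt.tendsto_slope_zero; see also sp_real, file
  Pool/Agent/H98/NX/Ej.lean), hence ((q (z + h t) - q z)/h)^2 → (fderiv q z t)^2.  T b is differentiable at every point of the open set O (hc.cd b, hc.opn: ContDiffOn.differentiableOn, DifferentiableOn.differentiableAt).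
  V_b = Vb F (E b) u w is differentiable at almost every point of O (lpo_diff, row Ea, with s3_a).  dist (f (z + h t)) (f z) / |h| → sp f t z for f with Dlim f z (definition of Dlim, row Ed; a.e. by sp_lim for Lpo maps).
  For h ≠ 0 small z + h t ∈ O (open).
* s3_b (for EVERY z in O): u_dist: (dist (u (z+ht)) (u z)/|h|)^2 = sum nn E b * ((T b (z+ht) - T b z)/h)^2 → sum nn E b * (fderiv (T b) z t)^2 =: S; so dist/|h| = sqrt of it → sqrt S and sp_eq_of_lim (row Eb) gives sp u t z = sqrt S,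
  sp^2 = S.  In particular Dlim u z.
* s3_c: a.e. z: Dlim w z and all V_b differentiable at z: w_dist divided by h^2, limit (le_of_tendsto_of_tendsto): sum nn (fderiv T_b + fderiv V_b)^2 <= sp w t z ^2.
* s3_d: g = ip (gmN F) u w (fun _ => h) is Lpo on O (lpo_gm, npcN F, constant function is Lpo: lpo_const), so Dlim g z a.e. (sp_lim).  g_dist with y = z + e t divided by e^2, limit e → 0: all terms converge at points with Dlim u,
  Dlim w, Dlim g, V_b differentiable, T_b differentiable.  The limit inequality is s3_d with Qc unfolded.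
* s3_e: v_le.
-/

namespace H50NA

open MeasureTheory Set Filter Topology
open H98NX (ip Dlim)

noncomputable section

variable {K : Type} [Field K] (F : VF K) {V : Type} [AddCommGroup V] [Module K V] [Module.Finite K V]
variable {N : ℕ} {E : Fin N → Submodule K V} {T : Fin N → ℝ × ℝ → ℝ} {O : Set (ℝ × ℝ)}
  {u w : ℝ × ℝ → Nm F V}

omit [Module.Finite K V] in
private theorem S3_slope {q : ℝ × ℝ → ℝ} {z : ℝ × ℝ} (hq : DifferentiableAt ℝ q z) (t : ℝ × ℝ) :
    Tendsto (fun e : ℝ => (q (z + e • t) - q z) / e) (𝓝[≠] 0) (𝓝 (fderiv ℝ q z t)) := by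
  have h1 := (hq.hasFDerivAt.hasLineDerivAt t).tendsto_slope_zero
  refine h1.congr fun h => ?_
  rw [smul_eq_mul, div_eq_inv_mul]

private theorem S3_sum (n X : Fin N → ℝ) (e : ℝ) :
    ∑ b, n b * (X b / e) ^ 2 = (∑ b, n b * X b ^ 2) / e ^ 2 := by
  rw [Finset.sum_div]
  exact Finset.sum_congr rfl fun b _ => by ring

private theorem S3_near {O : Set (ℝ × ℝ)} (hO : IsOpen O) {z : ℝ × ℝ} (hz : z ∈ O) (t : ℝ × ℝ) :
    ∀ᶠ e : ℝ in 𝓝[≠] 0, z + e • t ∈ O := by
  have h1 : Continuous fun e : ℝ => z + e • t := by fun_prop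
  have h2 := h1.tendsto 0
  simp only [zero_smul, add_zero] at h2
  exact (h2.mono_left nhdsWithin_le_nhds).eventually (hO.mem_nhds hz)

private theorem S3_T (hc : Chart F u O E T) {z : ℝ × ℝ} (hz : z ∈ O) (b : Fin N) :
    DifferentiableAt ℝ (T b) z :=
  ((hc.cd b).differentiableOn one_ne_zero).differentiableAt (hc.opn.mem_nhds hz)

theorem s3_a (hc : Chart F u O E T) (hu : Lpo u O) (hw : Lpo w O) (b : Fin N) :
    Lpo (Vb F (E b) u w) O := by
  intro C hC hCc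
  obtain ⟨L, hL⟩ := hu C hC hCc
  obtain ⟨L', hL'⟩ := hw C hC hCc
  refine ⟨L + L', fun x hx y hy => ?_⟩
  rw [Real.dist_eq]
  refine (v_lip F hc (hC hx) (hC hy) b).trans ?_
  have h1 := hL x hx y hy
  have h2 := hL' x hx y hy
  rw [add_mul]
  linarith

private theorem S3_u (hc : Chart F u O E T) {z : ℝ × ℝ} (hz : z ∈ O) (t : ℝ × ℝ) :
    Tendsto (fun e : ℝ => dist (u (z + e • t)) (u z) / |e|) (𝓝[≠] 0)
      (𝓝 (Real.sqrt (∑ b, nn E b * (fderiv ℝ (T b) z t) ^ 2))) := by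
  have h1 : Tendsto (fun e : ℝ => Real.sqrt (∑ b, nn E b * ((T b (z + e • t) - T b z) / e) ^ 2))
      (𝓝[≠] 0) (𝓝 (Real.sqrt (∑ b, nn E b * (fderiv ℝ (T b) z t) ^ 2))) := by
    refine (Real.continuous_sqrt.tendsto _).comp ?_
    exact tendsto_finsetSum _ fun b _ => ((S3_slope (S3_T F hc hz b) t).pow 2).const_mul _
  refine h1.congr' ?_
  filter_upwards [S3_near hc.opn hz t, self_mem_nhdsWithin] with e he he0
  rw [S3_sum, ← u_dist F hc he hz, ← sq_abs e, ← div_pow, Real.sqrt_sq (by positivity)]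

theorem s3_b (hc : Chart F u O E T) {z : ℝ × ℝ} (hz : z ∈ O) (t : ℝ × ℝ) :
    sp u t z ^ 2 = ∑ b, nn E b * (fderiv ℝ (T b) z t) ^ 2 := by
  rw [H98NX.sp_eq_of_lim (S3_u F hc hz t), Real.sq_sqrt]
  exact Finset.sum_nonneg fun b _ => mul_nonneg (nn_pos F hc b).le (sq_nonneg _)

private theorem S3_dlim (hc : Chart F u O E T) {z : ℝ × ℝ} (hz : z ∈ O) : Dlim u z := by
  intro t
  have h1 := S3_u F hc hz t
  rwa [← H98NX.sp_eq_of_lim h1] at h1

theorem s3_c (hc : Chart F u O E T) (hu : Lpo u O) (hw : Lpo w O) (hs : ∀ y ∈ O, SpD E (w y).1)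
    (t : ℝ × ℝ) : ∀ᵐ z ∂(volume : Measure (ℝ × ℝ)), z ∈ O →
      0 ≤ sp w t z ^ 2 - ∑ b, nn E b * (fderiv ℝ (T b) z t + fderiv ℝ (Vb F (E b) u w) z t) ^ 2 := by
  have hV : ∀ᵐ z ∂(volume : Measure (ℝ × ℝ)), ∀ b, z ∈ O → DifferentiableAt ℝ (Vb F (E b) u w) z :=
    ae_all_iff.2 fun b => H98NX.lpo_diff volume hc.opn (s3_a F hc hu hw b)
  filter_upwards [hV, H98NX.sp_lim volume hc.opn hw] with z hz1 hz2 hz
  rw [sub_nonneg]
  have hL : Tendsto (fun e : ℝ => ∑ b, nn E b * ((T b (z + e • t) - T b z) / e +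
      (Vb F (E b) u w (z + e • t) - Vb F (E b) u w z) / e) ^ 2) (𝓝[≠] 0)
      (𝓝 (∑ b, nn E b * (fderiv ℝ (T b) z t + fderiv ℝ (Vb F (E b) u w) z t) ^ 2)) :=
    tendsto_finsetSum _ fun b _ =>
      (((S3_slope (S3_T F hc hz b) t).add (S3_slope (hz1 b hz) t)).pow 2).const_mul _
  refine le_of_tendsto_of_tendsto hL ((hz2 hz t).pow 2) ?_
  filter_upwards [S3_near hc.opn hz t, self_mem_nhdsWithin] with e he he0
  have h1 := w_dist F hc hs he hz
  have he0' : e ≠ 0 := he0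
  have hsq : 0 < e ^ 2 := by positivity
  have h2 := div_le_div_of_nonneg_right h1 hsq.le
  rw [← S3_sum] at h2
  rw [div_pow, sq_abs]
  refine le_trans (le_of_eq ?_) h2
  exact Finset.sum_congr rfl fun b _ => by rw [add_div]

theorem s3_d (hc : Chart F u O E T) (hu : Lpo u O) (hw : Lpo w O) (hs : ∀ y ∈ O, SpD E (w y).1)
    (t : ℝ × ℝ) {h : ℝ} (h0 : 0 ≤ h) (h1 : h ≤ 1) : ∀ᵐ z ∂(volume : Measure (ℝ × ℝ)), z ∈ O →
      sp (ip (gmN F) u w (fun _ => h)) t z ^ 2 ≤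
        (1 - h) * sp u t z ^ 2 + h * sp w t z ^ 2 - h * (1 - h) * Qc F E T u w t z := by
  have hV : ∀ᵐ z ∂(volume : Measure (ℝ × ℝ)), ∀ b, z ∈ O → DifferentiableAt ℝ (Vb F (E b) u w) z :=
    ae_all_iff.2 fun b => H98NX.lpo_diff volume hc.opn (s3_a F hc hu hw b)
  have hg : Lpo (ip (gmN F) u w (fun _ => h)) O :=
    H98NX.lpo_gm (npcN F) hu hw (H98NX.lpo_const h O) fun _ _ => ⟨h0, h1⟩
  filter_upwards [hV, H98NX.sp_lim volume hc.opn hw, H98NX.sp_lim volume hc.opn hg] with z hz1 hz2 hz3 hz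
  have lu := ((S3_dlim F hc hz t).pow 2).const_mul (1 - h)
  have lw := (hz2 hz t).pow 2
  have l1 : Tendsto (fun e : ℝ => ∑ b, nn E b *
      ((Vb F (E b) u w (z + e • t) - Vb F (E b) u w z) / e) ^ 2) (𝓝[≠] 0)
      (𝓝 (∑ b, nn E b * (fderiv ℝ (Vb F (E b) u w) z t) ^ 2)) :=
    tendsto_finsetSum _ fun b _ => ((S3_slope (hz1 b hz) t).pow 2).const_mul _
  have l2 : Tendsto (fun e : ℝ => ∑ b, nn E b * ((T b (z + e • t) - T b z) / e +
      (Vb F (E b) u w (z + e • t) - Vb F (E b) u w z) / e) ^ 2) (𝓝[≠] 0)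
      (𝓝 (∑ b, nn E b * (fderiv ℝ (T b) z t + fderiv ℝ (Vb F (E b) u w) z t) ^ 2)) :=
    tendsto_finsetSum _ fun b _ =>
      (((S3_slope (S3_T F hc hz b) t).add (S3_slope (hz1 b hz) t)).pow 2).const_mul _
  have hR := (lu.add (lw.const_mul h)).sub (((l1.add lw).sub l2).const_mul (h * (1 - h)))
  unfold Qc
  refine le_of_tendsto_of_tendsto ((hz3 hz t).pow 2) hR ?_
  filter_upwards [S3_near hc.opn hz t, self_mem_nhdsWithin] with e he he0
  have he0' : e ≠ 0 := he0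
  have hsq : 0 < e ^ 2 := by positivity
  have h2 := div_le_div_of_nonneg_right (g_dist F hc hs he hz h0 h1) hsq.le
  rw [div_pow, sq_abs]
  refine h2.trans (le_of_eq ?_)
  have e1 : ∑ b, nn E b * ((T b (z + e • t) - T b z) / e +
      (Vb F (E b) u w (z + e • t) - Vb F (E b) u w z) / e) ^ 2 =
      (∑ b, nn E b * ((T b (z + e • t) - T b z) +
        (Vb F (E b) u w (z + e • t) - Vb F (E b) u w z)) ^ 2) / e ^ 2 := by
    rw [← S3_sum]
    exact Finset.sum_congr rfl fun b _ => by rw [add_div]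
  rw [e1, S3_sum, div_pow, div_pow, sq_abs]
  ring

theorem s3_e (hc : Chart F u O E T) (hs : ∀ y ∈ O, SpD E (w y).1) {z : ℝ × ℝ} (hz : z ∈ O) :
    ∑ b, nn E b * Vb F (E b) u w z ^ 2 ≤ dist (u z) (w z) ^ 2 :=
  v_le F hc hs hz

end

end H50NA
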