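import Pool.Agent.H50.NA.Inst
import Pool.Agent.H98.NX.Nc

set_option autoImplicit false

/-!
# Row S3a (norm inequalities for the sharp convexity).  COMPLETE PROOFS.  n = finrank K V as a real number.

* rd_sq: common basis b of al, be: rd = sum_i (be b_i - al b_i), ds^2 = sum of squares (rd_eq, ds_eq): Cauchy-Schwarz (sq_sum_le_card_mul_sum_sq), card (Fin n) = n.
* rd_self: rd_eq with a basis splitting al: 0.  rd_neg: rd_add for al, be, al and rd_self.
* rd_gm: gmf_ex: b splits al, be and gmf al be t, with value (1-t) al + t be at b_i: rd al (gmf) = sum t (be - al) (rd_eq twice).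
* rd_gm2: rd (gmf al be t)(gmf al be' t) = rd (gmf al be t) al + rd al (gmf al be' t) (rd_add) = - t rd al be + t rd al be' (rd_neg, rd_gm) = t rd be be' (rd_add: rd al be' = rd al be + rd be be').
* trl_trl: pointwise (x = 0 or not).  trl_zero: trl al 0 = al if al 0 = 0.
* ds_gm1: int_one1 (row Nc of H98/NX) in the space Nm F V with gmN F, npcN F, points p0 = p1 = al, q0 = be, q1 = be': dist(gmN al be t, gmN al be' t)^2 <= t D^2 - t(1-t) D^2 = (t D)^2, D = ds be be' (dist_self; dist_nm).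
* comp_sharp.  Notation c = (rd be be')/n (n > 0), B = ds be be' ^2.  be1 := trl be' (-c): be' = trl be1 c (trl_trl, trl_zero).  rd be be1 = rd be be' - n c = 0 and ds be be1 ^2 = B - 2 c rd be be' + n c^2 = B - n c^2
  (rd_trl, ds_trl with the first translation 0).  gmf (trl al tau) be' h = gmf (trl al tau) (trl be1 c) h = trl (gmf al be1 h) s with s = (1-h) tau + h c (gmf_trl).
  m = gmf al be h, m1 = gmf al be1 h: rd m m1 = h rd be be1 = 0 (rd_gm2), ds m m1 <= h ds be be1 (ds_gm1).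
  ds m (trl m1 s) ^2 = ds m m1 ^2 + 2 s rd m m1 + n s^2 <= h^2 (B - n c^2) + n s^2, and this number is EQUAL to the right hand side of the claim (ring: both are h^2 B + n (1-h)^2 tau^2 + 2 n h (1-h) tau c).
* ds_comm where needed.
-/

namespace H50NA

open MeasureTheory Set Filter Topology

noncomputable section

variable {K : Type} [Field K] (F : VF K) {V : Type} [AddCommGroup V] [Module K V] [Module.Finite K V]

theorem rd_sq {al be : V → ℝ} (ha : SN F al) (hb : SN F be) :
    rd F al be ^ 2 ≤ Module.finrank K V * ds F al be ^ 2 := by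
  obtain ⟨b, h1, h2⟩ := common F ha hb
  rw [rd_eq F h1 h2, ds_eq F h1 h2]
  have h3 := sq_sum_le_card_mul_sum_sq (s := (Finset.univ : Finset (Fin (Module.finrank K V))))
    (f := fun i => be (b i) - al (b i))
  rw [Finset.card_univ, Fintype.card_fin] at h3
  exact h3

theorem rd_self {al : V → ℝ} (ha : SN F al) : rd F al al = 0 := by
  obtain ⟨b, h1⟩ := ha.2
  rw [rd_eq F h1 h1]
  exact Finset.sum_eq_zero fun i _ => sub_self _

theorem rd_neg {al be : V → ℝ} (ha : SN F al) (hb : SN F be) : rd F be al = - rd F al be := by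
  have h1 := rd_add F ha hb ha
  rw [rd_self F ha] at h1
  linarith

theorem rd_gm {al be : V → ℝ} (ha : SN F al) (hb : SN F be) (t : ℝ) :
    rd F al (gmf F al be t) = t * rd F al be := by
  obtain ⟨b, h1, h2, h3, h4⟩ := gmf_ex F ha hb t
  rw [rd_eq F h1 h3, rd_eq F h1 h2, Finset.mul_sum]
  refine Finset.sum_congr rfl fun i _ => ?_
  rw [h4]
  ring

theorem rd_gm2 {al be be' : V → ℝ} (ha : SN F al) (hb : SN F be) (hb' : SN F be') (t : ℝ) :
    rd F (gmf F al be t) (gmf F al be' t) = t * rd F be be' := by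
  have h1 := rd_add F (gm_sn F ha hb t) ha (gm_sn F ha hb' t)
  rw [rd_neg F ha (gm_sn F ha hb t), rd_gm F ha hb, rd_gm F ha hb'] at h1
  have h2 := rd_add F ha hb hb'
  rw [h1, h2]
  ring

theorem trl_trl (al : V → ℝ) (c c' : ℝ) : trl (trl al c) c' = trl al (c + c') := by
  funext x
  unfold trl
  by_cases hx : x = 0
  · rw [if_pos hx, if_pos hx]
  · rw [if_neg hx, if_neg hx, if_neg hx]
    ring

theorem trl_zero' {al : V → ℝ} (h : al 0 = 0) : trl al 0 = al := by
  funext x
  unfold trl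
  by_cases hx : x = 0
  · rw [if_pos hx, hx, h]
  · rw [if_neg hx, add_zero]

theorem S3a_gm1 (A B B' : Nm F V) {t : ℝ} (h0 : 0 ≤ t) (h1 : t ≤ 1) :
    dist (gmN F A B t) (gmN F A B' t) ≤ t * dist B B' := by
  have h2 := H98NX.int_one1 (npcN F (V := V)) A A B B' h0 h1
  rw [dist_self] at h2
  have h5 : dist (gmN F A B t) (gmN F A B' t) ^ 2 ≤ (t * dist B B') ^ 2 := by
    refine h2.trans (le_of_eq ?_)
    ring
  exact (sq_le_sq₀ dist_nonneg (mul_nonneg h0 dist_nonneg)).1 h5

theorem ds_gm1 {al be be' : V → ℝ} (ha : SN F al) (hb : SN F be) (hb' : SN F be') {t : ℝ}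
    (h0 : 0 ≤ t) (h1 : t ≤ 1) : ds F (gmf F al be t) (gmf F al be' t) ≤ t * ds F be be' :=
  S3a_gm1 F ⟨al, ha⟩ ⟨be, hb⟩ ⟨be', hb'⟩ h0 h1

/-- the sharp inequality in one component: al moves by a scalar, be arbitrarily -/
theorem comp_sharp {al be be' : V → ℝ} (ha : SN F al) (hb : SN F be) (hb' : SN F be')
    (hn : 0 < Module.finrank K V) (tau : ℝ) {h : ℝ} (h0 : 0 ≤ h) (h1 : h ≤ 1) :
    ds F (gmf F al be h) (gmf F (trl al tau) be' h) ^ 2 ≤
      (1 - h) * (Module.finrank K V * tau ^ 2) + h * ds F be be' ^ 2 -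
        h * (1 - h) * (Module.finrank K V * (rd F be be' / Module.finrank K V - tau) ^ 2 +
          ds F be be' ^ 2 - Module.finrank K V * (rd F be be' / Module.finrank K V) ^ 2) := by
  have hn' : (0 : ℝ) < Module.finrank K V := by exact_mod_cast hn
  obtain ⟨n, hnn⟩ : ∃ n : ℝ, n = Module.finrank K V := ⟨_, rfl⟩
  rw [← hnn] at hn' ⊢
  obtain ⟨c, hc⟩ : ∃ c, c = rd F be be' / n := ⟨_, rfl⟩
  rw [← hc]
  have hrd : rd F be be' = n * c := by
    rw [hc]
    field_simp
  have hb1 := trl_sn F hb' (-c)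
  have hbe' : be' = trl (trl be' (-c)) c := by
    rw [trl_trl, neg_add_cancel, trl_zero' hb'.1]
  have e1 : rd F be (trl be' (-c)) = 0 := by
    have h2 := rd_trl F hb hb' 0 (-c)
    rw [trl_zero' hb.1, hrd, ← hnn] at h2
    rw [h2]
    ring
  have e2 : ds F be (trl be' (-c)) ^ 2 = ds F be be' ^ 2 - n * c ^ 2 := by
    have h2 := ds_trl F hb hb' 0 (-c)
    rw [trl_zero' hb.1, hrd, ← hnn] at h2
    rw [h2]
    ring
  have e3 : gmf F (trl al tau) be' h = trl (gmf F al (trl be' (-c)) h) ((1 - h) * tau + h * c) := by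
    have h2 := gmf_trl F ha hb1 tau c h
    rw [← hbe'] at h2
    exact h2
  have hm := gm_sn F ha hb h
  have hm1 := gm_sn F ha hb1 h
  have e4 : rd F (gmf F al be h) (gmf F al (trl be' (-c)) h) = 0 := by
    rw [rd_gm2 F ha hb hb1, e1, mul_zero]
  have e5 := ds_gm1 F ha hb hb1 h0 h1
  have e6 : ds F (gmf F al be h) (gmf F al (trl be' (-c)) h) ^ 2 ≤
      h ^ 2 * (ds F be be' ^ 2 - n * c ^ 2) := by
    have h2 := pow_le_pow_left₀ (ds_nonneg F _ _) e5 2
    rw [mul_pow, e2] at h2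
    exact h2
  have e7 := ds_trl F hm hm1 0 ((1 - h) * tau + h * c)
  rw [trl_zero' hm.1, e4, ← hnn] at e7
  rw [e3, e7]
  have e8 : (1 - h) * (n * tau ^ 2) + h * ds F be be' ^ 2 -
      h * (1 - h) * (n * (c - tau) ^ 2 + ds F be be' ^ 2 - n * c ^ 2) =
      h ^ 2 * (ds F be be' ^ 2 - n * c ^ 2) + n * ((1 - h) * tau + h * c) ^ 2 := by
    ring
  rw [e8]
  linarith

end

end H50NA
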