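import Pool.Agent.H50.NA.S3a
import Pool.Agent.H80.NA.Sdf

set_option autoImplicit false

/-!
# Row S3b (two-point inequalities in a chart).  COMPLETE PROOFS.

Chart F u O E T (Pool/Agent/H80/NA/Chd.lean), w with SpD E (w y).1 for y in O.  V_b := Vb F (E b) u w, n_b = nn E b = finrank (E b) > 0 (from hc.nz b: a nonzero subspace has positive finrank, Submodule.one_le_finrank_iff or
finrank_pos).  All (u y).1, (w y).1 are SN ((u y).2).  For y in O: osm E (u y).1 = (u y).1 and osm E (w y).1 = (w y).1 (spd_iff, hc.spl, hs).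
* ds_spl: p, q split along E: ds_osm with osm E p = p, osm E q = q.
* u_dist: hc.cst y z: rs (E b)(u z) = trl (rs (E b)(u y)) (T b z - T b y), ds_trl with al = be: ds al (trl al c)^2 = n c^2 (write al = trl al 0: trl_zero'; rd_self; ds al al = 0 by ds_self).  Sum over b (ds_spl).
* u_rd: rd al (trl al c) = n c (rd_trl, rd_self).
* v_diff: n_b (V_b y - V_b z) = rd(rs u y)(rs w y) - rd(rs u z)(rs w z); rd_add twice: rd(rs w z)(rs w y) = rd(rs w z)(rs u z) + rd(rs u z)(rs u y) + rd(rs u y)(rs w y), rd_neg, u_rd: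
  rd(rs w z)(rs w y) = n_b (T b y - T b z) + n_b (V_b y - V_b z).
* w_dist: dist (w z)(w y)^2 = sum ds(rs w z)(rs w y)^2 >= sum rd^2/n_b (rd_sq) = sum n_b (dT + dV)^2.
* v_le: sum n_b V_b^2 = sum rd(rs u z)(rs w z)^2/n_b <= sum ds(rs u z)(rs w z)^2 = dist(u z)(w z)^2.
* v_lip: |V_b y - V_b z| <= dist (u z)(u y) + dist (w z)(w y): from v_diff: n_b (V_b y - V_b z) = rd(rs w z)(rs w y) - rd(rs u z)(rs u y), each |rd| <= n_b * (distance) by rd_le_sup for the restrictions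
  (|(w y) x - (w z) x| <= ds, abs_le_ds).
* g_dist: g y = gmN F (u y) (w y) h.  gmf_spd: (g y).1 is split along E and rs (E b)(g y) = gmf (rs u y)(rs w y) h.  ds_spl and comp_sharp in every component with al = rs (E b)(u z), tau = T b y - T b z,
  be = rs (E b)(w z), be' = rs (E b)(w y), rd be be'/n_b = (T b y - T b z) + (V_b y - V_b z) (v_diff).  Sum over b.
-/

namespace H50NA

open MeasureTheory Set Filter Topology
open H98NX (ip)

noncomputable section

variable {K : Type} [Field K] (F : VF K) {V : Type} [AddCommGroup V] [Module K V] [Module.Finite K V]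
variable {N : ℕ} {E : Fin N → Submodule K V} {T : Fin N → ℝ × ℝ → ℝ} {O : Set (ℝ × ℝ)}
  {u w : ℝ × ℝ → Nm F V}

theorem S3b_ds {W : Type} [AddCommGroup W] [Module K W] [Module.Finite K W] {al : W → ℝ}
    (ha : SN F al) (c : ℝ) : ds F al (trl al c) ^ 2 = Module.finrank K W * c ^ 2 := by
  have h := ds_trl F ha ha 0 c
  rw [trl_zero' ha.1, ds_self F ha, rd_self F ha] at h
  rw [h]
  ring

theorem S3b_rd {W : Type} [AddCommGroup W] [Module K W] [Module.Finite K W] {al : W → ℝ}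
    (ha : SN F al) (c : ℝ) : rd F al (trl al c) = Module.finrank K W * c := by
  have h := rd_trl F ha ha 0 c
  rw [trl_zero' ha.1, rd_self F ha] at h
  rw [h]
  ring

theorem S3b_sq {W : Type} [AddCommGroup W] [Module K W] [Module.Finite K W] {al be : W → ℝ}
    (ha : SN F al) (hb : SN F be) (hn : (0 : ℝ) < Module.finrank K W) {X : ℝ}
    (hX : rd F al be = Module.finrank K W * X) :
    Module.finrank K W * X ^ 2 ≤ ds F al be ^ 2 := by
  have h := rd_sq F ha hb
  rw [hX, mul_pow, sq (Module.finrank K W : ℝ), mul_assoc] at h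
  exact le_of_mul_le_mul_left h hn

theorem ds_spl (hE : DirectSum.IsInternal E) {p q : V → ℝ} (hp : SN F p) (hq : SN F q)
    (h1 : SpD E p) (h2 : SpD E q) : ds F p q ^ 2 = ∑ b, ds F (rs (E b) p) (rs (E b) q) ^ 2 := by
  have h := ds_osm F hE hp hq
  rw [(spd_iff F hE hp).1 h1, (spd_iff F hE hq).1 h2] at h
  exact h

theorem nn_pos (hc : Chart F u O E T) (b : Fin N) : 0 < nn E b := by
  have h := Submodule.one_le_finrank_iff.2 (hc.nz b)
  unfold nn
  exact_mod_cast h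

theorem u_dist (hc : Chart F u O E T) {y z : ℝ × ℝ} (hy : y ∈ O) (hz : z ∈ O) :
    dist (u y) (u z) ^ 2 = ∑ b, nn E b * (T b y - T b z) ^ 2 := by
  rw [dist_nm, ds_spl F hc.int (u y).2 (u z).2 (hc.spl y hy) (hc.spl z hz)]
  refine Finset.sum_congr rfl fun b _ => ?_
  rw [hc.cst y hy z hz b, S3b_ds F (rs_sn F (E b) (u y).2)]
  unfold nn
  ring

theorem v_diff (hc : Chart F u O E T) {y z : ℝ × ℝ} (hy : y ∈ O) (hz : z ∈ O) (b : Fin N) :
    rd F (rs (E b) (w z).1) (rs (E b) (w y).1) =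
      nn E b * ((T b y - T b z) + (Vb F (E b) u w y - Vb F (E b) u w z)) := by
  have hn : nn E b ≠ 0 := (nn_pos F hc b).ne'
  have hsn : ∀ p : Nm F V, SN F (rs (E b) p.1) := fun p => rs_sn F (E b) p.2
  have e1 := rd_add F (hsn (w z)) (hsn (u z)) (hsn (w y))
  have e2 := rd_add F (hsn (u z)) (hsn (u y)) (hsn (w y))
  have e3 := rd_neg F (hsn (u z)) (hsn (w z))
  have e4 : rd F (rs (E b) (u z).1) (rs (E b) (u y).1) = nn E b * (T b y - T b z) := by
    rw [hc.cst z hz y hy b, S3b_rd F (hsn (u z))]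
    rfl
  have e5 : ∀ t : ℝ × ℝ, nn E b * Vb F (E b) u w t =
      rd F (rs (E b) (u t).1) (rs (E b) (w t).1) := by
    intro t
    unfold Vb
    exact mul_div_cancel₀ _ hn
  have e6 := e5 y
  have e7 := e5 z
  rw [e1, e2, e3, e4, mul_add, mul_sub (nn E b) (Vb F (E b) u w y), e6, e7]
  ring

theorem w_dist (hc : Chart F u O E T) (hs : ∀ y ∈ O, SpD E (w y).1) {y z : ℝ × ℝ} (hy : y ∈ O)
    (hz : z ∈ O) : ∑ b, nn E b * ((T b y - T b z) + (Vb F (E b) u w y - Vb F (E b) u w z)) ^ 2 ≤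
      dist (w y) (w z) ^ 2 := by
  rw [dist_comm, dist_nm, ds_spl F hc.int (w z).2 (w y).2 (hs z hz) (hs y hy)]
  refine Finset.sum_le_sum fun b _ => ?_
  exact S3b_sq F (rs_sn F (E b) (w z).2) (rs_sn F (E b) (w y).2) (nn_pos F hc b)
    (v_diff F hc hy hz b)

theorem v_le (hc : Chart F u O E T) (hs : ∀ y ∈ O, SpD E (w y).1) {z : ℝ × ℝ} (hz : z ∈ O) :
    ∑ b, nn E b * Vb F (E b) u w z ^ 2 ≤ dist (u z) (w z) ^ 2 := by
  rw [dist_nm, ds_spl F hc.int (u z).2 (w z).2 (hc.spl z hz) (hs z hz)]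
  refine Finset.sum_le_sum fun b _ => ?_
  refine S3b_sq F (rs_sn F (E b) (u z).2) (rs_sn F (E b) (w z).2) (nn_pos F hc b) ?_
  unfold Vb
  exact (mul_div_cancel₀ _ (nn_pos F hc b).ne').symm

theorem v_lip (hc : Chart F u O E T) {y z : ℝ × ℝ} (hy : y ∈ O) (hz : z ∈ O) (b : Fin N) :
    |Vb F (E b) u w y - Vb F (E b) u w z| ≤ dist (u y) (u z) + dist (w y) (w z) := by
  have hn := nn_pos F hc b
  have hsn : ∀ p : Nm F V, SN F (rs (E b) p.1) := fun p => rs_sn F (E b) p.2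
  have key : ∀ p q : Nm F V, |rd F (rs (E b) p.1) (rs (E b) q.1)| ≤ nn E b * dist q p := by
    intro p q
    rw [dist_comm]
    exact rd_le_sup F (hsn p) (hsn q) fun x _ => abs_le_ds F p.2 q.2 (x : V)
  have e1 := v_diff F (w := w) hc hy hz b
  have e4 : rd F (rs (E b) (u z).1) (rs (E b) (u y).1) = nn E b * (T b y - T b z) := by
    rw [hc.cst z hz y hy b, S3b_rd F (hsn (u z))]
    rfl
  have h1 := abs_le.1 (key (w z) (w y))
  have h2 := abs_le.1 (key (u z) (u y))
  rw [e1] at h1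
  rw [e4] at h2
  have h3 : |nn E b * (Vb F (E b) u w y - Vb F (E b) u w z)| ≤
      nn E b * (dist (u y) (u z) + dist (w y) (w z)) := by
    rw [abs_le]
    constructor
    · nlinarith [h1.1, h2.2]
    · nlinarith [h1.2, h2.1]
  rw [abs_mul, abs_of_pos hn] at h3
  exact le_of_mul_le_mul_left h3 hn

theorem g_dist (hc : Chart F u O E T) (hs : ∀ y ∈ O, SpD E (w y).1) {y z : ℝ × ℝ} (hy : y ∈ O)
    (hz : z ∈ O) {h : ℝ} (h0 : 0 ≤ h) (h1 : h ≤ 1) :
    dist (gmN F (u y) (w y) h) (gmN F (u z) (w z) h) ^ 2 ≤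
      (1 - h) * dist (u y) (u z) ^ 2 + h * dist (w y) (w z) ^ 2 -
        h * (1 - h) * ((∑ b, nn E b * (Vb F (E b) u w y - Vb F (E b) u w z) ^ 2) +
          dist (w y) (w z) ^ 2 -
          ∑ b, nn E b * ((T b y - T b z) + (Vb F (E b) u w y - Vb F (E b) u w z)) ^ 2) := by
  obtain ⟨gy1, gy2⟩ := gmf_spd F hc.int (u y).2 (w y).2 (hc.spl y hy) (hs y hy) h h0 h1
  obtain ⟨gz1, gz2⟩ := gmf_spd F hc.int (u z).2 (w z).2 (hc.spl z hz) (hs z hz) h h0 h1
  have hsn : ∀ b, ∀ p : Nm F V, SN F (rs (E b) p.1) := fun b p => rs_sn F (E b) p.2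
  have e1 : dist (gmN F (u y) (w y) h) (gmN F (u z) (w z) h) ^ 2 =
      ∑ b, ds F (gmf F (rs (E b) (u z).1) (rs (E b) (w z).1) h)
        (gmf F (trl (rs (E b) (u z).1) (T b y - T b z)) (rs (E b) (w y).1) h) ^ 2 := by
    rw [dist_comm, dist_nm, ds_spl F hc.int (gmN F (u z) (w z) h).2 (gmN F (u y) (w y) h).2 gz1 gy1]
    refine Finset.sum_congr rfl fun b _ => ?_
    have e2 : rs (E b) (gmN F (u z) (w z) h).1 =
        gmf F (rs (E b) (u z).1) (rs (E b) (w z).1) h := gz2 b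
    have e3 : rs (E b) (gmN F (u y) (w y) h).1 =
        gmf F (rs (E b) (u y).1) (rs (E b) (w y).1) h := gy2 b
    rw [e2, e3, hc.cst z hz y hy b]
  have e4 : dist (w y) (w z) ^ 2 =
      ∑ b, ds F (rs (E b) (w z).1) (rs (E b) (w y).1) ^ 2 := by
    rw [dist_comm, dist_nm, ds_spl F hc.int (w z).2 (w y).2 (hs z hz) (hs y hy)]
  rw [e1, u_dist F hc hy hz, e4]
  have key : ∀ b, ds F (gmf F (rs (E b) (u z).1) (rs (E b) (w z).1) h)
        (gmf F (trl (rs (E b) (u z).1) (T b y - T b z)) (rs (E b) (w y).1) h) ^ 2 ≤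
      (1 - h) * (nn E b * (T b y - T b z) ^ 2) +
        h * ds F (rs (E b) (w z).1) (rs (E b) (w y).1) ^ 2 -
        h * (1 - h) * (nn E b * (Vb F (E b) u w y - Vb F (E b) u w z) ^ 2 +
          ds F (rs (E b) (w z).1) (rs (E b) (w y).1) ^ 2 -
          nn E b * ((T b y - T b z) + (Vb F (E b) u w y - Vb F (E b) u w z)) ^ 2) := by
    intro b
    have hn := nn_pos F hc b
    have hn' : 0 < Module.finrank K (E b) := Submodule.one_le_finrank_iff.2 (hc.nz b)
    have h2 := comp_sharp F (hsn b (u z)) (hsn b (w z)) (hsn b (w y)) hn' (T b y - T b z) h0 h1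
    have h3 : rd F (rs (E b) (w z).1) (rs (E b) (w y).1) / (Module.finrank K (E b) : ℝ) =
        (T b y - T b z) + (Vb F (E b) u w y - Vb F (E b) u w z) := by
      rw [v_diff F hc hy hz b]
      exact mul_div_cancel_left₀ _ hn.ne'
    rw [h3, add_sub_cancel_left] at h2
    exact h2
  refine (Finset.sum_le_sum fun b _ => key b).trans (le_of_eq ?_)
  rw [Finset.sum_sub_distrib, Finset.sum_add_distrib, ← Finset.mul_sum, ← Finset.mul_sum,
    ← Finset.mul_sum, Finset.sum_sub_distrib, Finset.sum_add_distrib]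

end

end H50NA
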