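import Pool.Agent.H50.NA.Inst
import Pool.Agent.H80.NA.Chd
import Pool.Agent.H31.NA.GM

set_option autoImplicit false

/-!
# Row S4b (uniform gap and transport of the degree).  COMPLETE PROOFS.

* s4_gap.  Finitely many values: al = (u z0).1 for a fixed z0 ∈ Q (Q nonempty; if Q is empty nothing to prove).  By spl_val every value of al on a nonzero vector is al (e i) + n w with e a basis splitting al
  (al is SN).  So every difference d = al x1 - al x2 (x1, x2 ≠ 0) lies in D = {al (e i) - al (e j) + n w | i, j, n : ℤ}, and D ∩ [-M, M] is finite for every M (w = F.w > 0).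
  For y ∈ Q, x ∈ E' b' nonzero, b = sigma b', b2 ≠ b with cpt E b2 x ≠ 0:  by h.cst, (u y).1 (cpt E b2 x) = al (cpt E b2 x) + T b2 y - T b2 z0 and (u y).1 x = (u y).1 (cpt E b x) = al (cpt E b x) + T b y - T b z0
  (hypothesis hs).  So gap(y) := (u y).1 (cpt E b2 x) - (u y).1 x = d + f y with d = al (cpt E b2 x) - al (cpt E b x) ∈ D and f y = (T b2 y - T b2 z0) - (T b y - T b z0), a continuous function on the compact set Q
  (T b is C^1 on O, Q ⊆ O), depending only on the pair (b, b2); gap(y) > 0 for all y ∈ Q.  Let |f| ≤ M on Q for all pairs.  If d > M + 1 the gap is >= 1.  Otherwise -M ≤ d ≤ M + 1 (d + f z0 = d > 0): finitely many d; for each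
  pair (b, b2) and each such d for which d + f > 0 on all of Q, the minimum of d + f over Q is positive (IsCompact.exists_isMinOn).  ep0 := the minimum of 1 and these finitely many positive numbers.
* s4_eqv.  pi x := cpt E (sigma b') x is linear (H31NA.cpt_add, cpt_smul), maps E' b' to E (sigma b'), injective by hs (x ≠ 0 → pi x ≠ 0; use one y ∈ Q).  So finrank (E' b') ≤ finrank (E (sigma b')); the sums over all b' and
  over all b are both finrank V (h.int, h'.int: internal direct sums; sigma is a bijection), so all are equal and pi is a linear equivalence (LinearEquiv.ofInjectiveOfFinrankEq or LinearEquiv.ofBijective with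
  LinearMap.injective_iff_surjective_of_finrank_eq_finrank).
* rd_comp.  A common basis b of al, be (index Fin (finrank V2)); (b.map pi.symm) reindexed by the equality of finranks is a common basis of al ∘ pi, be ∘ pi with the same values; rd_eq twice.
-/

namespace H50NA

open MeasureTheory Set Filter Topology

noncomputable section

theorem S4b_low {w : ℝ} (hw : 0 < w) (c : ℝ) :
    ∃ ep : ℝ, 0 < ep ∧ ∀ n : ℤ, 0 < c + n * w → ep ≤ c + n * w := by
  refine ⟨c + ((⌊-c / w⌋ + 1 : ℤ) : ℝ) * w, ?_, ?_⟩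
  · have h1 := Int.lt_floor_add_one (-c / w)
    rw [div_lt_iff₀ hw] at h1
    push_cast
    linarith
  · intro n hn
    have h1 : -c / w < n := by
      rw [div_lt_iff₀ hw]
      linarith
    have h2 : ⌊-c / w⌋ < n := Int.floor_lt.2 h1
    have h3 : ((⌊-c / w⌋ + 1 : ℤ) : ℝ) ≤ n := by
      exact_mod_cast Int.add_one_le_iff.2 h2
    have h4 := mul_le_mul_of_nonneg_right h3 hw.le
    linarith

theorem S4b_fin {ι : Type} [Finite ι] {f : ι → ℝ} (hf : ∀ i, 0 < f i) :
    ∃ ep : ℝ, 0 < ep ∧ ∀ i, ep ≤ f i := by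
  rcases isEmpty_or_nonempty ι with h | h
  · exact ⟨1, one_pos, fun i => (h.false i).elim⟩
  · obtain ⟨i0, hi0⟩ := Finite.exists_min f
    exact ⟨f i0, hf i0, hi0⟩

variable {K : Type} [Field K] (F : VF K) {V : Type} [AddCommGroup V] [Module K V] [Module.Finite K V]
variable {W : Type} [NormedAddCommGroup W] [NormedSpace ℝ W]
variable {N N' : ℕ} {E : Fin N → Submodule K V} {T : Fin N → W → ℝ} {O : Set W}
  {E' : Fin N' → Submodule K V} {u : W → Nm F V}

theorem s4_gap (h : Chart F u O E T) {Q : Set W} (hQ : IsCompact Q) (hO : Q ⊆ O)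
    (sigma : Fin N' ≃ Fin N)
    (hs : ∀ y ∈ Q, ∀ b', ∀ x ∈ E' b', x ≠ 0 →
      cpt E (sigma b') x ≠ 0 ∧ (u y).1 x = (u y).1 (cpt E (sigma b') x) ∧
        ∀ b2, b2 ≠ sigma b' → cpt E b2 x ≠ 0 → (u y).1 x < (u y).1 (cpt E b2 x)) :
    ∃ ep : ℝ, 0 < ep ∧ ∀ y ∈ Q, ∀ b', ∀ x ∈ E' b', x ≠ 0 →
      ∀ b2, b2 ≠ sigma b' → cpt E b2 x ≠ 0 → (u y).1 x + ep ≤ (u y).1 (cpt E b2 x) := by
  rcases Q.eq_empty_or_nonempty with hQe | ⟨z0, hz0⟩
  · exact ⟨1, one_pos, fun y hy => by rw [hQe] at hy; exact hy.elim⟩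
  obtain ⟨e, he⟩ := (u z0).2.2
  obtain ⟨f, hf⟩ : ∃ f : Fin N × Fin N → W → ℝ, ∀ p y, f p y =
      (T p.2 y - T p.2 z0) - (T p.1 y - T p.1 z0) := ⟨_, fun _ _ => rfl⟩
  have hTc : ∀ b, ContinuousOn (T b) Q := fun b => (h.cd b).continuousOn.mono hO
  have hfc : ∀ p, ContinuousOn (f p) Q := by
    intro p
    have e1 : f p = fun y => (T p.2 y - T p.2 z0) - (T p.1 y - T p.1 z0) := funext (hf p)
    rw [e1]
    exact ((hTc _).sub continuousOn_const).sub ((hTc _).sub continuousOn_const)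
  have hmin : ∀ p, ∃ y ∈ Q, IsMinOn (f p) Q y := fun p =>
    hQ.exists_isMinOn ⟨z0, hz0⟩ (hfc p)
  choose m hmQ hm using hmin
  have hlow : ∀ q : (Fin N × Fin N) × (Fin (Module.finrank K V) × Fin (Module.finrank K V)),
      ∃ ep : ℝ, 0 < ep ∧ ∀ n : ℤ, 0 < ((u z0).1 (e q.2.1) - (u z0).1 (e q.2.2) + f q.1 (m q.1)) +
        n * F.w → ep ≤ ((u z0).1 (e q.2.1) - (u z0).1 (e q.2.2) + f q.1 (m q.1)) + n * F.w :=
    fun q => S4b_low F.wpos _
  choose g hg0 hg using hlow
  obtain ⟨ep, hep, hepg⟩ := S4b_fin hg0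
  refine ⟨ep, hep, ?_⟩
  intro y hy b' x hx hx0 b2 hb2 hc2
  -- values
  have hval : ∀ y ∈ Q, ∀ b, cpt E b x ≠ 0 →
      (u y).1 (cpt E b x) = (u z0).1 (cpt E b x) + (T b y - T b z0) := by
    intro y hy b hc
    have h1 := congrFun (h.cst z0 (hO hz0) y (hO hy) b) ⟨cpt E b x, H31NA.cpt_mem E b x⟩
    have h2 : (⟨cpt E b x, H31NA.cpt_mem E b x⟩ : E b) ≠ 0 := by
      intro h3
      exact hc (congrArg Subtype.val h3)
    unfold trl rs at h1
    rw [if_neg h2] at h1
    exact h1
  have hgap : ∀ y ∈ Q, (u y).1 (cpt E b2 x) - (u y).1 x =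
      ((u z0).1 (cpt E b2 x) - (u z0).1 (cpt E (sigma b') x)) + f (sigma b', b2) y := by
    intro y hy
    obtain ⟨h1, h2, _⟩ := hs y hy b' x hx hx0
    rw [h2, hval y hy b2 hc2, hval y hy _ h1, hf]
    ring
  have hc1 := (hs y hy b' x hx hx0).1
  obtain ⟨i, n1, e1⟩ := spl_val F he hc2
  obtain ⟨j, n2, e2⟩ := spl_val F he hc1
  have hpos : 0 < (u (m (sigma b', b2))).1 (cpt E b2 x) - (u (m (sigma b', b2))).1 x :=
    sub_pos.2 ((hs _ (hmQ _) b' x hx hx0).2.2 b2 hb2 hc2)
  rw [hgap _ (hmQ _), e1, e2] at hpos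
  have h3 := hg ((sigma b', b2), (i, j)) (n1 - n2) (by
    push_cast
    linarith)
  push_cast at h3
  have h4 := hepg ((sigma b', b2), (i, j))
  have h5 : f (sigma b', b2) (m (sigma b', b2)) ≤ f (sigma b', b2) y := hm (sigma b', b2) hy
  have h6 := hgap y hy
  rw [e1, e2] at h6
  linarith

theorem S4b_dim (hE : DirectSum.IsInternal E) :
    ∑ b, Module.finrank K (E b) = Module.finrank K V := by
  have e1 := (LinearEquiv.ofBijective (DirectSum.coeLinearMap E) hE).finrank_eq
  rw [← e1, Module.finrank_directSum]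

theorem s4_eqv (hE : DirectSum.IsInternal E) (hE' : DirectSum.IsInternal E') (sigma : Fin N' ≃ Fin N)
    (hs : ∀ b', ∀ x ∈ E' b', x ≠ 0 → cpt E (sigma b') x ≠ 0) (b' : Fin N') :
    ∃ pi : E' b' ≃ₗ[K] E (sigma b'), ∀ x : E' b', (pi x : V) = cpt E (sigma b') (x : V) := by
  let p : ∀ b' : Fin N', E' b' →ₗ[K] E (sigma b') := fun b' =>
    { toFun := fun x => ⟨cpt E (sigma b') (x : V), H31NA.cpt_mem E (sigma b') (x : V)⟩
      map_add' := fun x y => Subtype.ext (H31NA.cpt_add hE _ _ _)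
      map_smul' := fun c x => Subtype.ext (H31NA.cpt_smul hE _ _ _) }
  have hinj : ∀ b', Function.Injective (p b') := by
    intro b'
    rw [injective_iff_map_eq_zero]
    intro x hx
    by_contra hx0
    have h1 : (x : V) ≠ 0 := fun h => hx0 (Subtype.ext h)
    exact hs b' x x.2 h1 (congrArg Subtype.val hx)
  have hle : ∀ b' ∈ Finset.univ, Module.finrank K (E' b') ≤ Module.finrank K (E (sigma b')) :=
    fun b' _ => LinearMap.finrank_le_finrank_of_injective (hinj b')
  have hsum : ∑ b', Module.finrank K (E' b') = ∑ b', Module.finrank K (E (sigma b')) := by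
    rw [S4b_dim hE', Equiv.sum_comp sigma (fun b => Module.finrank K (E b)), S4b_dim hE]
  have heq := (Finset.sum_eq_sum_iff_of_le hle).1 hsum b' (Finset.mem_univ _)
  exact ⟨LinearMap.linearEquivOfInjective (p b') (hinj b') heq, fun x => rfl⟩

theorem rd_comp {V1 V2 : Type} [AddCommGroup V1] [Module K V1] [AddCommGroup V2] [Module K V2]
    [Module.Finite K V1] [Module.Finite K V2] (pi : V1 ≃ₗ[K] V2) {al be : V2 → ℝ} (ha : SN F al)
    (hb : SN F be) : rd F (fun x => al (pi x)) (fun x => be (pi x)) = rd F al be := by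
  obtain ⟨b, h1, h2⟩ := common F ha hb
  let e : Fin (Module.finrank K V1) ≃ Fin (Module.finrank K V2) := finCongr pi.finrank_eq
  let b' : Bs K V1 := (b.map pi.symm).reindex e.symm
  have hbi : ∀ i, pi (b' i) = b (e i) := by
    intro i
    change pi (((b.map pi.symm).reindex e.symm) i) = b (e i)
    rw [Module.Basis.reindex_apply, Module.Basis.map_apply, LinearEquiv.apply_symm_apply,
      Equiv.symm_symm]
  have hre : ∀ x i, b'.repr x i = b.repr (pi x) (e i) := by
    intro x i
    change ((b.map pi.symm).reindex e.symm).repr x i = _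
    rw [Module.Basis.repr_reindex_apply, Equiv.symm_symm, Module.Basis.map_repr]
    rfl
  have hspl : ∀ {ga : V2 → ℝ}, Spl F b ga → Spl F b' (fun x => ga (pi x)) := by
    intro ga hg x hx
    have hx' : pi x ≠ 0 := by
      intro h0
      exact hx (pi.map_eq_zero_iff.1 h0)
    obtain ⟨h3, i, h4, h5⟩ := hg (pi x) hx'
    constructor
    · intro i hi
      rw [hre] at hi ⊢
      change ga (pi x) ≤ _ + ga (pi (b' i))
      rw [hbi]
      exact h3 _ hi
    · refine ⟨e.symm i, ?_, ?_⟩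
      · rw [hre, Equiv.apply_symm_apply]
        exact h4
      · change ga (pi x) = _ + ga (pi (b' (e.symm i)))
        rw [hre, hbi, Equiv.apply_symm_apply]
        exact h5
  rw [rd_eq F (hspl h1) (hspl h2), rd_eq F h1 h2]
  change ∑ i, (be (pi (b' i)) - al (pi (b' i))) = _
  simp only [hbi]
  exact Equiv.sum_comp e (fun i => be (b i) - al (b i))

end

end H50NA
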