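import Pool.Agent.H50.NA.S4a
import Pool.Agent.H50.NA.S4b
import Pool.Agent.H50.NA.Act
import Pool.Agent.H80.NA.Sdf

set_option autoImplicit false

/-!
# Row S4 (chart change).  COMPLETE PROOFS.

* s4.  s4_sig gives sigma with property (P) on Q; s4_gap gives ep0 > 0.  Take ep := ep0 / 3.  Let y ∈ Q, v with dist v (u y) ≤ ep, so |v.1 x - (u y).1 x| ≤ ep for all x (dist_nm, abs_le_ds, ds_comm).
  Claim: v.1 x = v.1 (cpt E (sigma b') x) for all x ∈ E' b' (and the same for u y, by (P)).  x = 0: cpt of 0 is 0.  x ≠ 0: r := x - cpt E (sigma b') x = sum of the cpt E b2 x over b2 ≠ sigma b' (H31NA.cpt_sum).  If r = 0 done.  Otherwise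
  some term has v.1 (cpt E b2 x) ≤ v.1 r (nrm_sum, row Gv; v.1 is a norm: sn_nrm) and v.1 (cpt E b2 x) ≥ (u y).1 (cpt E b2 x) - ep ≥ (u y).1 x + ep0 - ep ≥ v.1 x + ep0 - 2 ep > v.1 x.  So v.1 x < v.1 r; cpt E (sigma b') x = x + (-r),
  nrm_strict: v.1 (x - r) = v.1 x.
  So rs (E' b') v.1 = (rs (E (sigma b')) v.1) ∘ pi with pi of s4_eqv, same for u y: rd_comp.  finrank: LinearEquiv.finrank_eq.
* s4_tr.  Chart F u O E T, R z = c + s • z with s = 1 or -1.  New chart: opn: preimage of an open set under a continuous map; int: int_acf; nz: E b ≠ ⊥ → map ≠ ⊥ (Submodule.map_eq_bot_iff / injectivity); cd: composition with the affine map R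
  (ContDiffOn.comp); dis: fderiv (fun z => T b (R z)) y = s • fderiv (T b) (R y) (fderiv_comp, or fderiv_comp_smul..), s ≠ 0; spl: spd_acf with act_fun; cst: h.cst (R y) (R z) b gives the identity on E b; on the image: every element of
  (E b).map a is a x with x ∈ E b; rs_acf; trl (x ≠ 0 iff a x ≠ 0).
* s4_Vb.  Vb unfolded: rd_rs_acf (act_fun), finrank of the image = finrank (LinearEquiv.finrank_map_eq or the equivalence a.submoduleMap).
-/

namespace H50NA

open MeasureTheory Set Filter Topology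

noncomputable section

variable {K : Type} [Field K] (F : VF K) {V : Type} [AddCommGroup V] [Module K V] [Module.Finite K V]

theorem s4 {W : Type} [NormedAddCommGroup W] [NormedSpace ℝ W]
    {N N' : ℕ} {E : Fin N → Submodule K V} {T : Fin N → W → ℝ} {O : Set W}
    {E' : Fin N' → Submodule K V} {T' : Fin N' → W → ℝ} {O' : Set W} {u u' : W → Nm F V}
    (h : Chart F u O E T) (h' : Chart F u' O' E' T') (he : ∀ y ∈ O ∩ O', u y = u' y)
    {Q : Set W} (hQc : IsCompact Q) (hQ : IsPreconnected Q) (hn : Q.Nonempty) (hO : Q ⊆ O ∩ O') :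
    ∃ (sigma : Fin N' ≃ Fin N) (ep : ℝ), 0 < ep ∧ ∀ y ∈ Q, ∀ v : Nm F V, dist v (u y) ≤ ep → ∀ b',
      rd F (rs (E' b') (u y).1) (rs (E' b') v.1) =
        rd F (rs (E (sigma b')) (u y).1) (rs (E (sigma b')) v.1) ∧
      Module.finrank K (E' b') = Module.finrank K (E (sigma b')) ∧
      fderiv ℝ (T' b') y = fderiv ℝ (T (sigma b')) y := by
  obtain ⟨sigma, hfd, hP⟩ := s4_sig F h h' he hQ hn hO
  have hQO : Q ⊆ O := fun y hy => (hO hy).1
  obtain ⟨ep0, hep0, hgap⟩ := s4_gap F h hQc hQO sigma hP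
  refine ⟨sigma, ep0 / 3, by positivity, fun y hy v hv b' => ?_⟩
  obtain ⟨y0, hy0⟩ := hn
  obtain ⟨pi, hpi⟩ := s4_eqv h.int h'.int sigma (fun b' x hx hx0 => (hP y0 hy0 b' x hx hx0).1) b'
  have hclose : ∀ x, |v.1 x - (u y).1 x| ≤ ep0 / 3 := by
    intro x
    have h1 := abs_le_ds F (u y).2 v.2 x
    rw [dist_comm, dist_nm] at hv
    exact h1.trans hv
  have hvn : Nrm F v.1 := sn_nrm F v.2
  have hcl : ∀ x ∈ E' b', x ≠ 0 → v.1 x = v.1 (cpt E (sigma b') x) := by
    intro x hx hx0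
    have hsum : cpt E (sigma b') x + ∑ b2 ∈ Finset.univ.erase (sigma b'), cpt E b2 x = x := by
      have h0 := Finset.add_sum_erase Finset.univ (fun b2 => cpt E b2 x) (Finset.mem_univ (sigma b'))
      exact h0.trans (H31NA.cpt_sum h.int x)
    by_cases hr : ∑ b2 ∈ Finset.univ.erase (sigma b'), cpt E b2 x = 0
    · rw [hr, add_zero] at hsum
      rw [hsum]
    · obtain ⟨b2, hb2, hb3, hb4⟩ := nrm_sum F hvn _ (fun b2 => cpt E b2 x) hr
      have hne : b2 ≠ sigma b' := Finset.ne_of_mem_erase hb2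
      have h1 := hgap y hy b' x hx hx0 b2 hne hb3
      have h2 := abs_le.1 (hclose x)
      have h3 := abs_le.1 (hclose (cpt E b2 x))
      have h4 : v.1 x < v.1 (∑ b2 ∈ Finset.univ.erase (sigma b'), cpt E b2 x) := by
        refine lt_of_lt_of_le ?_ hb4
        linarith [h2.2, h3.1]
      have h5 := nrm_strict F hvn hx0 (neg_ne_zero.2 hr) (by rw [nrm_neg F hvn]; exact h4)
      have h6 : x + -(∑ b2 ∈ Finset.univ.erase (sigma b'), cpt E b2 x) = cpt E (sigma b') x := by
        rw [← sub_eq_add_neg, sub_eq_iff_eq_add]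
        exact hsum.symm
      rw [h6] at h5
      exact h5.2.symm
  have e1 : rs (E' b') v.1 = fun x => rs (E (sigma b')) v.1 (pi x) := by
    funext x
    show v.1 (x : V) = v.1 ((pi x : E (sigma b')) : V)
    rw [hpi]
    by_cases hx : (x : V) = 0
    · rw [hx, H31NA.cpt_zero h.int]
    · exact hcl x x.2 hx
  have e2 : rs (E' b') (u y).1 = fun x => rs (E (sigma b')) (u y).1 (pi x) := by
    funext x
    show (u y).1 (x : V) = (u y).1 ((pi x : E (sigma b')) : V)
    rw [hpi]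
    by_cases hx : (x : V) = 0
    · rw [hx, H31NA.cpt_zero h.int]
    · exact (hP y hy b' x x.2 hx).2.1
  refine ⟨?_, pi.finrank_eq, hfd y hy b'⟩
  rw [e1, e2]
  exact rd_comp F pi (rs_sn F _ (u y).2) (rs_sn F _ v.2)

variable {N : ℕ} {E : Fin N → Submodule K V} {T : Fin N → ℝ × ℝ → ℝ} {O : Set (ℝ × ℝ)}
  {u w : ℝ × ℝ → Nm F V}

theorem s4_tr (h : Chart F u O E T) (a : V ≃ₗ[K] V) {R : ℝ × ℝ → ℝ × ℝ} {c : ℝ × ℝ} {s : ℝ}
    (hs : s = 1 ∨ s = -1) (hR : ∀ z, R z = c + s • z) :
    Chart F (fun z => act F a (u (R z))) (R ⁻¹' O) (fun b => (E b).map (a : V →ₗ[K] V))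
      (fun b z => T b (R z)) := by
  have hRe : R = fun z => c + s • z := funext hR
  have hss : s * s = 1 := by rcases hs with rfl | rfl <;> norm_num
  have hRd : ContDiff ℝ 1 R := by
    rw [hRe]
    exact contDiff_const.add (contDiff_id.const_smul s)
  have hRf : ∀ y, HasFDerivAt R (s • ContinuousLinearMap.id ℝ (ℝ × ℝ)) y := by
    intro y
    rw [hRe]
    exact ((hasFDerivAt_id y).const_smul s).const_add c
  have hTd : ∀ b, ∀ y, R y ∈ O → HasFDerivAt (fun z => T b (R z))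
      ((fderiv ℝ (T b) (R y)).comp (s • ContinuousLinearMap.id ℝ (ℝ × ℝ))) y := by
    intro b y hy
    have h1 : DifferentiableAt ℝ (T b) (R y) :=
      ((h.cd b).contDiffAt (h.opn.mem_nhds hy)).differentiableAt one_ne_zero
    exact h1.hasFDerivAt.comp y (hRf y)
  refine ⟨h.opn.preimage hRd.continuous, int_acf a h.int, fun b hb => ?_, fun b => ?_,
    fun y hy b b' hbb he => ?_, fun y hy => ?_, fun y hy z hz b => ?_⟩
  · obtain ⟨x, hx, hx0⟩ := Submodule.exists_mem_ne_zero_of_ne_bot (h.nz b)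
    have h1 : a x ∈ (E b).map (a : V →ₗ[K] V) := Submodule.mem_map_of_mem (f := (a : V →ₗ[K] V)) hx
    rw [hb, Submodule.mem_bot] at h1
    exact hx0 (by simpa using h1)
  · exact (h.cd b).comp hRd.contDiffOn (fun z hz => hz)
  · have hy' : R y ∈ O := hy
    rw [(hTd b y hy').fderiv, (hTd b' y hy').fderiv] at he
    apply h.dis (R y) hy' b b' hbb
    refine ContinuousLinearMap.ext fun v => ?_
    have h3 := congrArg (fun L : ℝ × ℝ →L[ℝ] ℝ => L (s • v)) he
    have h4 : (s • ContinuousLinearMap.id ℝ (ℝ × ℝ)) (s • v) = v := by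
      show s • (s • v) = v
      rw [smul_smul, hss, one_smul]
    simp only [ContinuousLinearMap.comp_apply, h4] at h3
    exact h3
  · have hy' : R y ∈ O := hy
    show SpD (fun b => (E b).map (a : V →ₗ[K] V)) (act F a (u (R y))).1
    rw [act_fun]
    exact (spd_acf a h.int _).2 (h.spl (R y) hy')
  · have hy' : R y ∈ O := hy
    have hz' : R z ∈ O := hz
    have h1 := h.cst (R y) hy' (R z) hz' b
    show rs ((E b).map (a : V →ₗ[K] V)) (act F a (u (R z))).1 =
      trl (rs ((E b).map (a : V →ₗ[K] V)) (act F a (u (R y))).1) (T b (R z) - T b (R y))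
    rw [act_fun, act_fun]
    funext x
    obtain ⟨x', hx', hxx⟩ := Submodule.mem_map.1 x.2
    have hxe : x = ⟨a x', Submodule.mem_map_of_mem (f := (a : V →ₗ[K] V)) hx'⟩ := Subtype.ext hxx.symm
    have h2 := rs_acf a (E b) (u (R z)).1 ⟨x', hx'⟩
    have h3 := rs_acf a (E b) (u (R y)).1 ⟨x', hx'⟩
    have h4 := congrFun h1 ⟨x', hx'⟩
    have hz1 : (x = 0) ↔ ((⟨x', hx'⟩ : E b) = 0) := by
      rw [hxe]
      constructor
      · intro h5
        have h6 : a x' = 0 := congrArg Subtype.val h5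
        exact Subtype.ext (by simpa using h6)
      · intro h5
        have h6 : x' = 0 := congrArg Subtype.val h5
        exact Subtype.ext (by simp [h6])
    unfold trl at h4 ⊢
    by_cases hx0 : x = 0
    · rw [if_pos hx0]
      rw [if_pos (hz1.1 hx0)] at h4
      rw [hxe, h2, h4]
    · rw [if_neg hx0]
      rw [if_neg (fun h5 => hx0 (hz1.2 h5))] at h4
      rw [hxe, h2, h3, h4]

theorem s4_Vb (W : Submodule K V) (a : V ≃ₗ[K] V) (R : ℝ × ℝ → ℝ × ℝ) (z : ℝ × ℝ) :
    Vb F (W.map (a : V →ₗ[K] V)) (fun z => act F a (u (R z))) (fun z => act F a (w (R z))) z =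
      Vb F W u w (R z) := by
  unfold Vb
  simp only [act_fun]
  rw [rd_rs_acf F a W (u (R z)).2 (w (R z)).2, LinearEquiv.finrank_map_eq]

end

end H50NA
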