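import Pool.Agent.H50.NA.Inst
import Pool.Agent.H80.NA.Chd
import Pool.Agent.H31.NA.GM

set_option autoImplicit false

/-!
# Row S4a (change of chart at a point and along a connected set).  COMPLETE PROOFS.

Two charts Chart F u O E T, Chart F u' O' E' T' with u = u' on O ∩ O'.  Facts about cpt: H31NA.cpt_mem, cpt_sum, cpt_ex, cpt_of_mem (row GM of helper31).
For a fixed x ≠ 0 in E' b': for y, z ∈ O ∩ O' : (u z).1 x - (u y).1 x = T' b' z - T' b' y, by h'.cst y z b' applied to ⟨x, _⟩ (rs, trl, x ≠ 0; u = u' at y, z).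
For b with cpt E b x ≠ 0 : (u z).1 (cpt E b x) - (u y).1 (cpt E b x) = T b z - T b y (h.cst).
* s4_pt.  y ∈ O ∩ O'.  By h.spl y (SpD) there is b with cpt E b x ≠ 0 and (u y).1 x = (u y).1 (cpt E b x), and for all z ∈ O ∩ O': (u z).1 x ≤ (u z).1 (cpt E b x) (first part of SpD at z).  Subtract:
  T' b' z - T' b' y ≤ T b z - T b y for all z in the neighbourhood O ∩ O' of y: the function T b - T' b' has a local minimum at y, both are differentiable at y (cd: ContDiffOn 1 on an open set), so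
  fderiv (T b) y = fderiv (T' b') y (IsLocalMin.fderiv_eq_zero, fderiv_sub).  Hence every index b that is minimal for x at y satisfies fderiv (T b) y = fderiv (T' b') y, and by h.dis there is only one such b (independent of x).
  Choose x0 ≠ 0 in E' b' (h'.nz) to get b.  For every x ≠ 0 in E' b' a minimal index exists and equals b; for b2 ≠ b with cpt E b2 x ≠ 0: (u y).1 x ≤ (u y).1 (cpt E b2 x) by SpD, and equality would make b2 minimal, so b2 = b:
  contradiction.
* s4_sig.  For y ∈ O ∩ O' let s y : Fin N' → Fin N with fderiv (T (s y b')) y = fderiv (T' b') y (s4_pt).  s y is injective by h'.dis; by symmetry (s4_pt with the two charts exchanged) for every b there is b' with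
  fderiv (T' b') y = fderiv (T b) y = .. so s y b' = b by h.dis: s y is bijective.  Constancy on Q: for fixed b', b the set {y ∈ O ∩ O' | s y b' = b} = {y ∈ O ∩ O' | fderiv (T b) y = fderiv (T' b') y} is closed in O ∩ O'
  (ContDiffOn.continuousOn_fderiv_of_isOpen), these sets for b : Fin N are disjoint and cover, so they are also open in O ∩ O'; Q preconnected and nonempty: s y b' is constant on Q (for instance IsPreconnected.constant
  for the map Q → Fin N, continuous because the fibres are closed and finite in number).  sigma := the common value (Equiv.ofBijective).  The property is that of s4_pt with b = s y b' = sigma b'.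
-/

namespace H50NA

open MeasureTheory Set Filter Topology

noncomputable section

variable {K : Type} [Field K] (F : VF K) {V : Type} [AddCommGroup V] [Module K V] [Module.Finite K V]
variable {W : Type} [NormedAddCommGroup W] [NormedSpace ℝ W]
variable {N N' : ℕ} {E : Fin N → Submodule K V} {T : Fin N → W → ℝ} {O : Set W}
  {E' : Fin N' → Submodule K V} {T' : Fin N' → W → ℝ} {O' : Set W} {u u' : W → Nm F V}

omit [Module.Finite K V] in
theorem S4a_cst (h : Chart F u O E T) {y z : W} (hy : y ∈ O) (hz : z ∈ O) (b : Fin N) {x : V}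
    (hx : x ∈ E b) (hx0 : x ≠ 0) : (u z).1 x = (u y).1 x + (T b z - T b y) := by
  have h1 := congrFun (h.cst y hy z hz b) ⟨x, hx⟩
  have h2 : (⟨x, hx⟩ : E b) ≠ 0 := fun hc => hx0 (congrArg Subtype.val hc)
  unfold rs trl at h1
  rw [if_neg h2] at h1
  exact h1

omit [Module.Finite K V] in
theorem S4a_min (h : Chart F u O E T) (h' : Chart F u' O' E' T') (he : ∀ y ∈ O ∩ O', u y = u' y)
    {y : W} (hy : y ∈ O ∩ O') {b' : Fin N'} {x : V} (hx : x ∈ E' b') (hx0 : x ≠ 0) {b : Fin N}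
    (hb : cpt E b x ≠ 0) (hm : (u y).1 x = (u y).1 (cpt E b x)) :
    fderiv ℝ (T b) y = fderiv ℝ (T' b') y := by
  have d1 : DifferentiableAt ℝ (T b) y :=
    ((h.cd b).differentiableOn one_ne_zero).differentiableAt (h.opn.mem_nhds hy.1)
  have d2 : DifferentiableAt ℝ (T' b') y :=
    ((h'.cd b').differentiableOn one_ne_zero).differentiableAt (h'.opn.mem_nhds hy.2)
  have hmin : IsLocalMin (fun z => T b z - T' b' z) y := by
    filter_upwards [(h.opn.inter h'.opn).mem_nhds hy] with z hz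
    have e1 := (h.spl z hz.1 x hx0).1 b hb
    have e2 := S4a_cst F h hy.1 hz.1 b (H31NA.cpt_mem E b x) hb
    have e3 := S4a_cst F h' hy.2 hz.2 b' hx hx0
    rw [← he z hz, ← he y hy] at e3
    linarith
  have h1 := hmin.fderiv_eq_zero
  rw [fderiv_fun_sub d1 d2] at h1
  exact sub_eq_zero.1 h1

theorem s4_pt (h : Chart F u O E T) (h' : Chart F u' O' E' T') (he : ∀ y ∈ O ∩ O', u y = u' y)
    {y : W} (hy : y ∈ O ∩ O') (b' : Fin N') :
    ∃ b : Fin N, fderiv ℝ (T b) y = fderiv ℝ (T' b') y ∧ ∀ x ∈ E' b', x ≠ 0 →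
      cpt E b x ≠ 0 ∧ (u y).1 x = (u y).1 (cpt E b x) ∧
        ∀ b2, b2 ≠ b → cpt E b2 x ≠ 0 → (u y).1 x < (u y).1 (cpt E b2 x) := by
  obtain ⟨x0, hx0, hx00⟩ := Submodule.exists_mem_ne_zero_of_ne_bot (h'.nz b')
  obtain ⟨b, hb, hm⟩ := (h.spl y hy.1 x0 hx00).2
  have hD := S4a_min F h h' he hy hx0 hx00 hb hm
  have huniq : ∀ x ∈ E' b', x ≠ 0 → ∀ b1, cpt E b1 x ≠ 0 → (u y).1 x = (u y).1 (cpt E b1 x) →
      b1 = b := by
    intro x hx hxn b1 hb1 hm1
    by_contra hne
    exact h.dis y hy.1 b1 b hne ((S4a_min F h h' he hy hx hxn hb1 hm1).trans hD.symm)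
  refine ⟨b, hD, fun x hx hxn => ?_⟩
  obtain ⟨b1, hb1, hm1⟩ := (h.spl y hy.1 x hxn).2
  obtain rfl := huniq x hx hxn b1 hb1 hm1
  refine ⟨hb1, hm1, fun b2 hb2 hc2 => ?_⟩
  refine lt_of_le_of_ne ((h.spl y hy.1 x hxn).1 b2 hc2) fun heq => ?_
  exact hb2 (huniq x hx hxn b2 hc2 heq)

theorem S4a_conn (h : Chart F u O E T) (h' : Chart F u' O' E' T') (he : ∀ y ∈ O ∩ O', u y = u' y)
    {Q : Set W} (hQ : IsPreconnected Q) (hn : Q.Nonempty) (hO : Q ⊆ O ∩ O') (b' : Fin N') :
    ∃ b : Fin N, ∀ y ∈ Q, fderiv ℝ (T b) y = fderiv ℝ (T' b') y := by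
  classical
  have : PreconnectedSpace Q := Subtype.preconnectedSpace hQ
  obtain ⟨y0, hy0⟩ := hn
  obtain ⟨b, hb, -⟩ := s4_pt F h h' he (hO hy0) b'
  have hc : ∀ c : Fin N, Continuous fun y : Q => fderiv ℝ (T c) (y : W) := fun c =>
    continuousOn_iff_continuous_domRestrict.1
      (((h.cd c).continuousOn_fderiv_of_isOpen h.opn le_rfl).mono fun y hy => (hO hy).1)
  have hc' : Continuous fun y : Q => fderiv ℝ (T' b') (y : W) :=
    continuousOn_iff_continuous_domRestrict.1
      (((h'.cd b').continuousOn_fderiv_of_isOpen h'.opn le_rfl).mono fun y hy => (hO hy).2)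
  have hcl : ∀ c : Fin N, IsClosed {y : Q | fderiv ℝ (T c) (y : W) = fderiv ℝ (T' b') (y : W)} :=
    fun c => isClosed_eq (hc c) hc'
  have hcompl : {y : Q | fderiv ℝ (T b) (y : W) = fderiv ℝ (T' b') (y : W)}ᶜ =
      ⋃ c ∈ {c : Fin N | c ≠ b}, {y : Q | fderiv ℝ (T c) (y : W) = fderiv ℝ (T' b') (y : W)} := by
    ext y
    simp only [Set.mem_compl_iff, Set.mem_ofPred_eq, Set.mem_iUnion, exists_prop]
    constructor
    · intro hne
      obtain ⟨c, hcc, -⟩ := s4_pt F h h' he (hO y.2) b'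
      refine ⟨c, ?_, hcc⟩
      rintro rfl
      exact hne hcc
    · rintro ⟨c, hcb, hcc⟩ hbb
      exact h.dis y (hO y.2).1 c b hcb (hcc.trans hbb.symm)
  have hopen : IsOpen {y : Q | fderiv ℝ (T b) (y : W) = fderiv ℝ (T' b') (y : W)} := by
    rw [← isClosed_compl_iff, hcompl]
    exact Set.Finite.isClosed_biUnion (Set.toFinite _) fun c _ => hcl c
  have huniv : {y : Q | fderiv ℝ (T b) (y : W) = fderiv ℝ (T' b') (y : W)} = Set.univ :=
    IsClopen.eq_univ ⟨hcl b, hopen⟩ ⟨⟨y0, hy0⟩, hb⟩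
  refine ⟨b, fun y hy => ?_⟩
  have hmem : (⟨y, hy⟩ : Q) ∈ {y : Q | fderiv ℝ (T b) (y : W) = fderiv ℝ (T' b') (y : W)} := by
    rw [huniv]
    exact Set.mem_univ _
  exact hmem

theorem s4_sig (h : Chart F u O E T) (h' : Chart F u' O' E' T') (he : ∀ y ∈ O ∩ O', u y = u' y)
    {Q : Set W} (hQ : IsPreconnected Q) (hn : Q.Nonempty) (hO : Q ⊆ O ∩ O') :
    ∃ sigma : Fin N' ≃ Fin N,
      (∀ y ∈ Q, ∀ b', fderiv ℝ (T' b') y = fderiv ℝ (T (sigma b')) y) ∧
      ∀ y ∈ Q, ∀ b', ∀ x ∈ E' b', x ≠ 0 →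
      cpt E (sigma b') x ≠ 0 ∧ (u y).1 x = (u y).1 (cpt E (sigma b') x) ∧
        ∀ b2, b2 ≠ sigma b' → cpt E b2 x ≠ 0 → (u y).1 x < (u y).1 (cpt E b2 x) := by
  choose s hs using S4a_conn F h h' he hQ hn hO
  obtain ⟨y0, hy0⟩ := hn
  have hinj : Function.Injective s := by
    intro b1 b2 hb
    by_contra hne
    refine h'.dis y0 (hO hy0).2 b1 b2 hne ?_
    rw [← hs b1 y0 hy0, ← hs b2 y0 hy0, hb]
  have hsurj : Function.Surjective s := by
    intro b
    obtain ⟨b', hb', -⟩ := s4_pt F h' h (fun y hy => (he y hy.symm).symm) (hO hy0).symm b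
    refine ⟨b', ?_⟩
    by_contra hne
    exact h.dis y0 (hO hy0).1 _ _ hne ((hs b' y0 hy0).trans hb')
  have hbij : Function.Bijective s := ⟨hinj, hsurj⟩
  refine ⟨Equiv.ofBijective s hbij, fun y hy b' => (hs b' y hy).symm, fun y hy b' => ?_⟩
  obtain ⟨b, hb, hp⟩ := s4_pt F h h' he (hO hy) b'
  have hbs : b = s b' := by
    by_contra hne
    exact h.dis y (hO hy).1 _ _ hne (hb.trans (hs b' y hy).symm)
  rw [Equiv.ofBijective_apply, ← hbs]
  exact hp

end

end H50NA
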